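import Pool.Agent.Mir.Det

/-!
Probability lemmas for the mirror model: one-vertex law, independence of disjoint regions,
reindexing, resampling of one vertex, measurability of ray events.
-/

open MeasureTheory ProbabilityTheory

noncomputable section

namespace Mir

theorem law_isProb {p : ℝ} (h0 : 0 ≤ p) (h1 : p ≤ 1) : IsProbabilityMeasure (law p) := by
  constructor
  simp only [law, Measure.add_apply, Measure.smul_apply, measure_univ, smul_eq_mul, mul_one]
  rw [← ENNReal.ofReal_add (by linarith) (by linarith), ← ENNReal.ofReal_add (by linarith)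
    (by linarith)]
  rw [show 1 - p + p / 2 + p / 2 = 1 by ring, ENNReal.ofReal_one]

theorem law_real {p : ℝ} (h0 : 0 ≤ p) (h1 : p ≤ 1) (a : Fin 3) :
    (law p).real {a} = if a = 0 then 1 - p else p / 2 := by
  have hp : 0 ≤ p / 2 := by linarith
  have hq : 0 ≤ 1 - p := by linarith
  fin_cases a <;> simp [law, Measure.real, Measure.add_apply, Measure.smul_apply, hp, hq]

theorem wm_le_law {p : ℝ} (h0 : 0 ≤ p) (h1 : p ≤ 1) (a : Fin 3) : wm p ≤ (law p).real {a} := by
  rw [law_real h0 h1, wm]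
  split_ifs
  · exact min_le_left _ _
  · exact min_le_right _ _

theorem wm_pos {p : ℝ} (h0 : 0 < p) (h1 : p < 1) : 0 < wm p :=
  lt_min (by linarith) (by linarith)

theorem wm_le_one {p : ℝ} (h0 : 0 ≤ p) (h1 : p ≤ 1) : wm p ≤ 1 :=
  (min_le_left _ _).trans (by linarith)

theorem mirOn_isProb {V : Type} {p : ℝ} (h0 : 0 ≤ p) (h1 : p ≤ 1) :
    IsProbabilityMeasure (mirOn V p) := by
  have := law_isProb h0 h1
  unfold mirOn; infer_instance

theorem mir_isProb {p : ℝ} (h0 : 0 ≤ p) (h1 : p ≤ 1) : IsProbabilityMeasure (mir p) :=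
  mirOn_isProb h0 h1

/-- `X` depends only on the vertices in `G` -/
def DepOn {V : Type} (X : Set (V → Fin 3)) (G : Set V) : Prop :=
  ∀ ω ω' : V → Fin 3, (∀ v ∈ G, ω v = ω' v) → ω ∈ X → ω' ∈ X

theorem DepOn.mono {V : Type} {X : Set (V → Fin 3)} {G G' : Set V} (h : DepOn X G)
    (hG : G ⊆ G') : DepOn X G' := fun ω ω' hω hX => h ω ω' (fun v hv => hω v (hG hv)) hX

/-- the sigma-algebra of one coordinate -/
@[reducible] def cm {V : Type} (v : V) : MeasurableSpace (V → Fin 3) :=
  MeasurableSpace.comap (fun c => c v) inferInstance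

theorem meas_of_dep {V : Type} (S : Set V) (E : Set (V → Fin 3)) (hE : MeasurableSet E)
    (h : DepOn E S) : MeasurableSet[⨆ l ∈ S, cm l] E := by
  classical
  set r : (V → Fin 3) → (V → Fin 3) := fun c l => if l ∈ S then c l else 0 with hr
  have hEr : E = r ⁻¹' E := by
    ext c
    rw [Set.mem_preimage]
    refine ⟨h c (r c) fun l hl => ?_, h (r c) c fun l hl => ?_⟩
    · simp only [hr, if_pos hl]
    · simp only [hr, if_pos hl]
  rw [hEr]
  have hrm : @Measurable _ _ (⨆ l ∈ S, cm l) MeasurableSpace.pi r := by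
    refine @measurable_pi_lambda _ _ _ (⨆ l ∈ S, cm l) _ _ fun l => ?_
    by_cases hl : l ∈ S
    · have : (fun c => r c l) = fun c : V → Fin 3 => c l := by
        funext c
        simp only [hr, if_pos hl]
      rw [this]
      have h1 : @Measurable _ _ (cm l) _ (fun c : V → Fin 3 => c l) :=
        comap_measurable _
      exact h1.mono (le_iSup₂_of_le l hl le_rfl) le_rfl
    · have : (fun c => r c l) = fun c : V → Fin 3 => 0 := by
        funext c
        simp only [hr, if_neg hl]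
      rw [this]
      exact @measurable_const _ _ _ (⨆ l ∈ S, cm l) _
  exact hrm hE

/-- events on disjoint sets of vertices are independent -/
theorem indep_mul {V : Type} {p : ℝ} (h0 : 0 ≤ p) (h1 : p ≤ 1) {G G' : Set V}
    (hd : Disjoint G G') {X Y : Set (V → Fin 3)} (hX : MeasurableSet X) (hY : MeasurableSet Y)
    (hXG : DepOn X G) (hYG : DepOn Y G') :
    mirOn V p (X ∩ Y) = mirOn V p X * mirOn V p Y := by
  have := law_isProb h0 h1
  have hi : iIndep cm (mirOn V p) := by
    have h1 : iIndepFun (fun (l : V) (c : V → Fin 3) => c l) (mirOn V p) := by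
      unfold mirOn
      exact iIndepFun_infinitePi (X := fun _ ω => ω) (fun _ => measurable_id)
    exact h1
  have hI := indep_iSup_of_disjoint (m := cm) (fun l => (measurable_pi_apply l).comap_le) hi hd
  exact (Indep_iff _ _ _).1 hI X Y (meas_of_dep G X hX hXG) (meas_of_dep G' Y hY hYG)

theorem indep_mul_real {V : Type} {p : ℝ} (h0 : 0 ≤ p) (h1 : p ≤ 1) {G G' : Set V}
    (hd : Disjoint G G') {X Y : Set (V → Fin 3)} (hX : MeasurableSet X) (hY : MeasurableSet Y)
    (hXG : DepOn X G) (hYG : DepOn Y G') :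
    (mirOn V p).real (X ∩ Y) = (mirOn V p).real X * (mirOn V p).real Y := by
  rw [Measure.real, indep_mul h0 h1 hd hX hY hXG hYG, ENNReal.toReal_mul]; rfl

/-- reindexing along an injective map preserves the law -/
theorem reindex {V W : Type} {p : ℝ} (h0 : 0 ≤ p) (h1 : p ≤ 1) {f : W → V}
    (hf : Function.Injective f) :
    MeasurePreserving (fun (ω : V → Fin 3) w => ω (f w)) (mirOn V p) (mirOn W p) := by
  have := law_isProb h0 h1
  refine ⟨by fun_prop, ?_⟩
  exact Measure.map_infinitePi_infinitePi_of_inj (P := fun _ : V => law p) hf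

/-- exchange of the two mirror types -/
def flip : Fin 3 → Fin 3
  | 0 => 0
  | 1 => 2
  | 2 => 1

theorem flip_flip (a : Fin 3) : flip (flip a) = a := by fin_cases a <;> rfl

theorem law_flip (p : ℝ) : (law p).map flip = law p := by
  have hm : Measurable flip := measurable_of_finite _
  rw [law, Measure.map_add _ _ hm, Measure.map_add _ _ hm, Measure.map_smul, Measure.map_smul,
    Measure.map_smul]
  simp only [Measure.map_dirac]
  show _ • Measure.dirac 0 + _ • Measure.dirac 2 + _ • Measure.dirac 1 = _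
  rw [add_assoc, add_assoc]
  congr 1
  rw [add_comm]

theorem flip_preserving {V : Type} {p : ℝ} (h0 : 0 ≤ p) (h1 : p ≤ 1) :
    MeasurePreserving (fun (ω : V → Fin 3) v => flip (ω v)) (mirOn V p) (mirOn V p) := by
  have := law_isProb h0 h1
  have hm : Measurable flip := measurable_of_finite _
  refine ⟨by fun_prop, ?_⟩
  unfold mirOn
  rw [Measure.infinitePi_map_pi (fun _ : V => law p) (fun _ => hm)]
  simp only [law_flip]

/-- resampling one vertex -/
theorem resample {V : Type} [DecidableEq V] {p : ℝ} (h0 : 0 ≤ p) (h1 : p ≤ 1) (v : V)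
    {B : Set (V → Fin 3)} (hB : MeasurableSet B) :
    wm p * (mirOn V p).real {ω | ∃ a, Function.update ω v a ∈ B} ≤ (mirOn V p).real B := by
  have hP := mirOn_isProb (V := V) h0 h1
  have := law_isProb h0 h1
  -- `Ba a = {ω | update ω v a ∈ B}` depends only on the other vertices
  set Ba : Fin 3 → Set (V → Fin 3) := fun a => {ω | Function.update ω v a ∈ B} with hBa
  have hmu : ∀ a, Measurable fun ω : V → Fin 3 => Function.update ω v a := by
    intro a
    refine measurable_pi_lambda _ fun w => ?_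
    by_cases hw : w = v
    · subst hw; simp
    · simp only [Function.update_of_ne hw]; exact measurable_pi_apply w
  have hBm : ∀ a, MeasurableSet (Ba a) := fun a => hmu a hB
  have hBd : ∀ a, DepOn (Ba a) {v}ᶜ := by
    intro a ω ω' h hω
    have : Function.update ω' v a = Function.update ω v a := by
      funext w
      by_cases hw : w = v
      · subst hw; simp
      · simp only [Function.update_of_ne hw]; exact (h w hw).symm
    show Function.update ω' v a ∈ B
    rw [this]; exact hω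
  set C : Fin 3 → Set (V → Fin 3) := fun a => {ω | ω v = a} with hC
  have hCm : ∀ a, MeasurableSet (C a) := fun a =>
    measurableSet_eq_fun (measurable_pi_apply v) measurable_const
  have hCd : ∀ a, DepOn (C a) {v} := by
    intro a ω ω' h hω
    show ω' v = a
    rw [← h v rfl]; exact hω
  have hCP : ∀ a, wm p ≤ (mirOn V p).real (C a) := by
    intro a
    have h2 : mirOn V p (C a) = law p {a} := by
      have := (measurePreserving_eval_infinitePi (fun _ : V => law p) v).measure_preimage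
        (measurableSet_singleton a).nullMeasurableSet
      exact this
    rw [Measure.real, h2]
    exact wm_le_law h0 h1 a
  have hdis : Pairwise (Function.onFun Disjoint fun a => Ba a ∩ C a) := by
    intro a b hab
    refine Set.disjoint_left.2 ?_
    rintro ω ⟨_, h1⟩ ⟨_, h2⟩
    exact hab ((show ω v = a from h1).symm.trans h2)
  have hsub : ⋃ a, Ba a ∩ C a ⊆ B := by
    intro ω hω
    obtain ⟨a, h1, h2⟩ := Set.mem_iUnion.1 hω
    have h3 : Function.update ω v a = ω := by
      rw [← (show ω v = a from h2)]; exact Function.update_eq_self v ω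
    have h4 : Function.update ω v a ∈ B := h1
    rwa [h3] at h4
  calc wm p * (mirOn V p).real {ω | ∃ a, Function.update ω v a ∈ B}
      ≤ wm p * ∑ a, (mirOn V p).real (Ba a) := by
        refine mul_le_mul_of_nonneg_left ?_ (le_min (by linarith) (by linarith))
        have : {ω | ∃ a, Function.update ω v a ∈ B} = ⋃ a, Ba a := by
          ext ω; simp [hBa]
        rw [this]
        exact measureReal_iUnion_fintype_le _
    _ = ∑ a, wm p * (mirOn V p).real (Ba a) := by rw [Finset.mul_sum]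
    _ ≤ ∑ a, (mirOn V p).real (Ba a ∩ C a) := by
        refine Finset.sum_le_sum fun a _ => ?_
        rw [indep_mul_real h0 h1 disjoint_compl_left (hBm a) (hCm a) (hBd a) (hCd a), mul_comm]
        exact mul_le_mul_of_nonneg_left (hCP a) measureReal_nonneg
    _ = (mirOn V p).real (⋃ a, Ba a ∩ C a) := by
        rw [measureReal_iUnion_fintype hdis fun a => (hBm a).inter (hCm a)]
    _ ≤ (mirOn V p).real B := measureReal_mono hsub

section generic

variable {A : Type} [CommRing A] [Countable A]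

theorem countable_state : Countable ((A × ℤ) × Dir) := by
  have : Countable Dir := Finite.to_countable
  infer_instance

theorem meas_step (s t : (A × ℤ) × Dir) : MeasurableSet {ω : A × ℤ → Fin 3 | step ω s = t} := by
  have : {ω : A × ℤ → Fin 3 | step ω s = t}
      = (fun ω : A × ℤ → Fin 3 => ω s.1) ⁻¹' {a | (s.1 + vec (turn a s.2), turn a s.2) = t} := rfl
  rw [this]
  exact (measurable_pi_apply s.1) (Set.toFinite _).measurableSet

theorem meas_ray (s t : (A × ℤ) × Dir) (n : ℕ) :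
    MeasurableSet {ω : A × ℤ → Fin 3 | ray ω s n = t} := by
  have hc := countable_state (A := A)
  induction n generalizing t with
  | zero => exact MeasurableSet.const (s = t)
  | succ n ih =>
    have : {ω : A × ℤ → Fin 3 | ray ω s (n + 1) = t}
        = ⋃ u, {ω | ray ω s n = u} ∩ {ω | step ω u = t} := by
      ext ω
      simp [ray_succ]
    rw [this]
    exact MeasurableSet.iUnion fun u => (ih u).inter (meas_step u t)

/-- every property of finitely many ray states is measurable -/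
theorem meas_ray_prop (s : (A × ℤ) × Dir) (n : ℕ) (Q : (A × ℤ) × Dir → Prop) :
    MeasurableSet {ω : A × ℤ → Fin 3 | Q (ray ω s n)} := by
  have hc := countable_state (A := A)
  have : {ω : A × ℤ → Fin 3 | Q (ray ω s n)} = ⋃ u, ⋃ (_ : Q u), {ω | ray ω s n = u} := by
    ext ω; simp
  rw [this]
  exact MeasurableSet.iUnion fun u => MeasurableSet.iUnion fun _ => meas_ray s u n

theorem meas_exitsIn (G : Set (A × ℤ)) (s t : (A × ℤ) × Dir) (n : ℕ) :
    MeasurableSet {ω : A × ℤ → Fin 3 | ExitsIn ω G s t n} := by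
  have : {ω : A × ℤ → Fin 3 | ExitsIn ω G s t n} = {ω | ray ω s n = t} ∩ ({_ω | t.1 ∉ G} ∩
      ⋂ i, ⋂ (_ : i < n), {ω | (ray ω s i).1 ∈ G}) := by
    ext ω; simp [ExitsIn]
  rw [this]
  exact (meas_ray s t n).inter ((MeasurableSet.const _).inter
    (MeasurableSet.iInter fun i => MeasurableSet.iInter fun _ =>
      meas_ray_prop s i fun u => u.1 ∈ G))

theorem meas_exits (G : Set (A × ℤ)) (s t : (A × ℤ) × Dir) :
    MeasurableSet {ω : A × ℤ → Fin 3 | Exits ω G s t} := by
  have : {ω : A × ℤ → Fin 3 | Exits ω G s t} = ⋃ n, {ω | ExitsIn ω G s t n} := by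
    ext ω; simp [Exits]
  rw [this]
  exact MeasurableSet.iUnion fun n => meas_exitsIn G s t n

theorem meas_exits_some (G : Set (A × ℤ)) (s : (A × ℤ) × Dir) (Q : (A × ℤ) × Dir → Prop) :
    MeasurableSet {ω : A × ℤ → Fin 3 | ∃ t, Exits ω G s t ∧ Q t} := by
  have hc := countable_state (A := A)
  have : {ω : A × ℤ → Fin 3 | ∃ t, Exits ω G s t ∧ Q t}
      = ⋃ t, ⋃ (_ : Q t), {ω | Exits ω G s t} := by
    ext ω; simp [and_comm]
  rw [this]
  exact MeasurableSet.iUnion fun t => MeasurableSet.iUnion fun _ => meas_exits G s t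

theorem dep_exits (G : Set (A × ℤ)) (s t : (A × ℤ) × Dir) :
    DepOn {ω : A × ℤ → Fin 3 | Exits ω G s t} G :=
  fun _ _ h hX => (exits_congr h).1 hX

theorem dep_exits_some (G : Set (A × ℤ)) (s : (A × ℤ) × Dir) (Q : (A × ℤ) × Dir → Prop) :
    DepOn {ω : A × ℤ → Fin 3 | ∃ t, Exits ω G s t ∧ Q t} G := by
  rintro ω ω' h ⟨t, h1, h2⟩
  exact ⟨t, (exits_congr h).1 h1, h2⟩

end generic

theorem meas_thru (j : ℕ) (x : ℤ) : MeasurableSet {ω : ℤ × ℤ → Fin 3 | Thru ω j x} := by
  have : {ω : ℤ × ℤ → Fin 3 | Thru ω j x}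
      = ⋃ y : ℤ, {ω | Exits ω (slab j) ((y, 1), Dir.N) ((x, (j : ℤ) + 1), Dir.N)} := by
    ext ω; simp [Thru]
  rw [this]
  exact MeasurableSet.iUnion fun y => meas_exits _ _ _

theorem dep_thru (j : ℕ) (x : ℤ) : DepOn {ω : ℤ × ℤ → Fin 3 | Thru ω j x} (slab j) := by
  rintro ω ω' h ⟨y, h1⟩
  exact ⟨y, (exits_congr h).1 h1⟩

/-! ### symmetries -/

/-- translation by `z` -/
def tr (z : ℤ × ℤ) (ω : ℤ × ℤ → Fin 3) : ℤ × ℤ → Fin 3 := fun v => ω (v - z)

theorem tr_preserving {p : ℝ} (h0 : 0 ≤ p) (h1 : p ≤ 1) (z : ℤ × ℤ) :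
    MeasurePreserving (tr z) (mir p) (mir p) :=
  reindex h0 h1 (f := fun v : ℤ × ℤ => v - z) fun _ _ h => sub_left_injective h

/-- translation of states -/
def trS (z : ℤ × ℤ) (s : (ℤ × ℤ) × Dir) : (ℤ × ℤ) × Dir := (s.1 + z, s.2)

theorem step_tr (z : ℤ × ℤ) (ω : ℤ × ℤ → Fin 3) (s : (ℤ × ℤ) × Dir) :
    step (tr z ω) (trS z s) = trS z (step ω s) := by
  simp only [step, tr, trS, add_sub_cancel_right, Prod.mk.injEq, and_true]
  abel

theorem ray_tr (z : ℤ × ℤ) (ω : ℤ × ℤ → Fin 3) (s : (ℤ × ℤ) × Dir) (n : ℕ) :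
    ray (tr z ω) (trS z s) n = trS z (ray ω s n) := by
  induction n with
  | zero => rfl
  | succ n ih => rw [ray_succ, ray_succ, ih, step_tr]

theorem exitsIn_tr (z : ℤ × ℤ) (ω : ℤ × ℤ → Fin 3) {G G' : Set (ℤ × ℤ)}
    (hG : ∀ v, v + z ∈ G' ↔ v ∈ G) (s t : (ℤ × ℤ) × Dir) (n : ℕ) :
    ExitsIn (tr z ω) G' (trS z s) (trS z t) n ↔ ExitsIn ω G s t n := by
  have hinj : ∀ a b, trS z a = trS z b ↔ a = b := by
    intro a b
    constructor
    · intro h
      simp only [trS, Prod.mk.injEq, add_left_inj] at h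
      exact Prod.ext h.1 h.2
    · rintro rfl; rfl
  simp only [ExitsIn, ray_tr, hinj]
  simp only [trS, hG]

theorem exits_tr (z : ℤ × ℤ) (ω : ℤ × ℤ → Fin 3) {G G' : Set (ℤ × ℤ)}
    (hG : ∀ v, v + z ∈ G' ↔ v ∈ G) (s t : (ℤ × ℤ) × Dir) :
    Exits (tr z ω) G' (trS z s) (trS z t) ↔ Exits ω G s t :=
  exists_congr fun n => exitsIn_tr z ω hG s t n

/-- reflection `x ↦ -x` -/
def rf (ω : ℤ × ℤ → Fin 3) : ℤ × ℤ → Fin 3 := fun v => flip (ω (-v.1, v.2))

theorem rf_preserving {p : ℝ} (h0 : 0 ≤ p) (h1 : p ≤ 1) :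
    MeasurePreserving rf (mir p) (mir p) := by
  have h2 := reindex h0 h1 (f := fun v : ℤ × ℤ => (-v.1, v.2)) (by
    intro a b h
    simp only [Prod.mk.injEq, neg_inj] at h
    exact Prod.ext h.1 h.2)
  exact (flip_preserving h0 h1).comp h2

/-- reflection of directions -/
def rfD : Dir → Dir
  | .N => .N
  | .S => .S
  | .E => .W
  | .W => .E

/-- reflection of states -/
def rfS (s : (ℤ × ℤ) × Dir) : (ℤ × ℤ) × Dir := ((-s.1.1, s.1.2), rfD s.2)

theorem rfS_rfS (s : (ℤ × ℤ) × Dir) : rfS (rfS s) = s := by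
  obtain ⟨⟨x, y⟩, d⟩ := s
  cases d <;> simp [rfS, rfD]

theorem step_rf (ω : ℤ × ℤ → Fin 3) (s : (ℤ × ℤ) × Dir) :
    step (rf ω) (rfS s) = rfS (step ω s) := by
  obtain ⟨⟨x, y⟩, d⟩ := s
  simp only [step, rf, rfS, neg_neg]
  have ht : turn (flip (ω (x, y))) (rfD d) = rfD (turn (ω (x, y)) d) := by
    generalize ω (x, y) = a
    fin_cases a <;> cases d <;> rfl
  rw [ht]
  generalize turn (ω (x, y)) d = e
  cases e <;> simp [vec, rfD] <;> ring

theorem ray_rf (ω : ℤ × ℤ → Fin 3) (s : (ℤ × ℤ) × Dir) (n : ℕ) :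
    ray (rf ω) (rfS s) n = rfS (ray ω s n) := by
  induction n with
  | zero => rfl
  | succ n ih => rw [ray_succ, ray_succ, ih, step_rf]

theorem exitsIn_rf (ω : ℤ × ℤ → Fin 3) {G G' : Set (ℤ × ℤ)}
    (hG : ∀ x y, (-x, y) ∈ G' ↔ (x, y) ∈ G) (s t : (ℤ × ℤ) × Dir) (n : ℕ) :
    ExitsIn (rf ω) G' (rfS s) (rfS t) n ↔ ExitsIn ω G s t n := by
  have hinj : ∀ a b, rfS a = rfS b ↔ a = b := by
    intro a b
    constructor
    · intro h
      rw [← rfS_rfS a, h, rfS_rfS]
    · rintro rfl; rfl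
  simp only [ExitsIn, ray_rf, hinj]
  simp only [rfS, hG]

theorem exits_rf (ω : ℤ × ℤ → Fin 3) {G G' : Set (ℤ × ℤ)}
    (hG : ∀ x y, (-x, y) ∈ G' ↔ (x, y) ∈ G) (s t : (ℤ × ℤ) × Dir) :
    Exits (rf ω) G' (rfS s) (rfS t) ↔ Exits ω G s t :=
  exists_congr fun n => exitsIn_rf ω hG s t n

/-- exchange of the two coordinates -/
def sw (ω : ℤ × ℤ → Fin 3) : ℤ × ℤ → Fin 3 := fun v => ω (v.2, v.1)

theorem sw_preserving {p : ℝ} (h0 : 0 ≤ p) (h1 : p ≤ 1) :
    MeasurePreserving sw (mir p) (mir p) :=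
  reindex h0 h1 (f := fun v : ℤ × ℤ => (v.2, v.1)) (by
    intro a b h
    simp only [Prod.mk.injEq] at h
    exact Prod.ext h.2 h.1)

/-- exchange of the coordinates, on directions -/
def swD : Dir → Dir
  | .N => .E
  | .E => .N
  | .S => .W
  | .W => .S

/-- exchange of the coordinates, on states -/
def swS (s : (ℤ × ℤ) × Dir) : (ℤ × ℤ) × Dir := ((s.1.2, s.1.1), swD s.2)

theorem swS_swS (s : (ℤ × ℤ) × Dir) : swS (swS s) = s := by
  obtain ⟨⟨x, y⟩, d⟩ := s
  cases d <;> simp [swS, swD]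

theorem step_sw (ω : ℤ × ℤ → Fin 3) (s : (ℤ × ℤ) × Dir) :
    step (sw ω) (swS s) = swS (step ω s) := by
  obtain ⟨⟨x, y⟩, d⟩ := s
  simp only [step, sw, swS]
  have ht : turn (ω (x, y)) (swD d) = swD (turn (ω (x, y)) d) := by
    generalize ω (x, y) = a
    fin_cases a <;> cases d <;> rfl
  rw [ht]
  generalize turn (ω (x, y)) d = e
  cases e <;> simp [vec, swD]

theorem ray_sw (ω : ℤ × ℤ → Fin 3) (s : (ℤ × ℤ) × Dir) (n : ℕ) :
    ray (sw ω) (swS s) n = swS (ray ω s n) := by
  induction n with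
  | zero => rfl
  | succ n ih => rw [ray_succ, ray_succ, ih, step_sw]

theorem exitsIn_sw (ω : ℤ × ℤ → Fin 3) {G G' : Set (ℤ × ℤ)}
    (hG : ∀ x y, (y, x) ∈ G' ↔ (x, y) ∈ G) (s t : (ℤ × ℤ) × Dir) (n : ℕ) :
    ExitsIn (sw ω) G' (swS s) (swS t) n ↔ ExitsIn ω G s t n := by
  have hinj : ∀ a b, swS a = swS b ↔ a = b := by
    intro a b
    constructor
    · intro h
      rw [← swS_swS a, h, swS_swS]
    · rintro rfl; rfl
  simp only [ExitsIn, ray_sw, hinj]
  simp only [swS, hG]

theorem exits_sw (ω : ℤ × ℤ → Fin 3) {G G' : Set (ℤ × ℤ)}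
    (hG : ∀ x y, (y, x) ∈ G' ↔ (x, y) ∈ G) (s t : (ℤ × ℤ) × Dir) :
    Exits (sw ω) G' (swS s) (swS t) ↔ Exits ω G s t :=
  exists_congr fun n => exitsIn_sw ω hG s t n

end Mir
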