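import Pool.Agent.Mir.Defs

/-!
Deterministic lemmas on rays of the mirror model.
-/

open MeasureTheory

noncomputable section

namespace Mir

theorem opp_opp (d : Dir) : d.opp.opp = d := by cases d <;> rfl

theorem turn_turn (a : Fin 3) (d : Dir) : turn a (turn a d).opp = d.opp := by
  fin_cases a <;> cases d <;> rfl

theorem turn_inj (a : Fin 3) {d d' : Dir} (h : turn a d = turn a d') : d = d' := by
  have h1 := turn_turn a d
  have h2 := turn_turn a d'
  rw [h] at h1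
  have h3 : d.opp = d'.opp := h1.symm.trans h2
  rw [← opp_opp d, h3, opp_opp]

/-- some state of the vertex turns `d` into `e`, unless this is a U-turn -/
theorem exists_turn (d e : Dir) (h : e ≠ d.opp) : ∃ a : Fin 3, turn a d = e := by
  cases d <;> cases e <;> first
    | exact ⟨0, rfl⟩
    | exact ⟨1, rfl⟩
    | exact ⟨2, rfl⟩
    | exact absurd rfl h

section generic

variable {A : Type} [CommRing A]

@[simp] theorem vec_opp (d : Dir) : (vec d.opp : A × ℤ) = - vec d := by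
  cases d <;> simp [vec, Dir.opp]

theorem rev_rev (s : (A × ℤ) × Dir) : rev (rev s) = s := by
  obtain ⟨v, d⟩ := s
  simp [rev, opp_opp]

theorem rev_inj {s t : (A × ℤ) × Dir} (h : rev s = rev t) : s = t := by
  rw [← rev_rev s, h, rev_rev]

theorem step_rev (ω : A × ℤ → Fin 3) (s : (A × ℤ) × Dir) :
    step ω (rev (step ω s)) = rev s := by
  obtain ⟨v, d⟩ := s
  simp only [step, rev, add_sub_cancel_right, turn_turn, vec_opp]
  rw [sub_eq_add_neg]

theorem step_inj (ω : A × ℤ → Fin 3) {s t : (A × ℤ) × Dir} (h : step ω s = step ω t) : s = t := by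
  apply rev_inj
  rw [← step_rev ω s, h, step_rev]

@[simp] theorem ray_zero (ω : A × ℤ → Fin 3) (s : (A × ℤ) × Dir) : ray ω s 0 = s := rfl

theorem ray_succ (ω : A × ℤ → Fin 3) (s : (A × ℤ) × Dir) (n : ℕ) :
    ray ω s (n + 1) = step ω (ray ω s n) := by
  rw [ray, Function.iterate_succ_apply']; rfl

theorem ray_succ' (ω : A × ℤ → Fin 3) (s : (A × ℤ) × Dir) (n : ℕ) :
    ray ω s (n + 1) = ray ω (step ω s) n := by
  rw [ray, Function.iterate_succ_apply]; rfl

theorem ray_add (ω : A × ℤ → Fin 3) (s : (A × ℤ) × Dir) (m n : ℕ) :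
    ray ω s (m + n) = ray ω (ray ω s m) n := by
  rw [add_comm]
  simp only [ray, Function.iterate_add_apply]

/-- the previous vertex -/
theorem ray_prev (ω : A × ℤ → Fin 3) (s : (A × ℤ) × Dir) (n : ℕ) :
    (ray ω s (n + 1)).1 - vec (ray ω s (n + 1)).2 = (ray ω s n).1 := by
  rw [ray_succ]; simp [step]

theorem ray_inj (ω : A × ℤ → Fin 3) {s t : (A × ℤ) × Dir} (n : ℕ) (h : ray ω s n = ray ω t n) :
    s = t := by
  induction n with
  | zero => exact h
  | succ n ih =>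
    rw [ray_succ, ray_succ] at h
    exact ih (step_inj ω h)

/-- time reversal of a ray segment -/
theorem ray_rev (ω : A × ℤ → Fin 3) (s : (A × ℤ) × Dir) (m n : ℕ) :
    ray ω (rev (ray ω s (m + n))) n = rev (ray ω s m) := by
  induction n with
  | zero => rfl
  | succ n ih =>
    rw [ray_succ', ← add_assoc, ray_succ ω s (m + n), step_rev, ih]

/-- rays in two configurations that agree on the visited vertices agree -/
theorem ray_congr {ω ω' : A × ℤ → Fin 3} {s : (A × ℤ) × Dir} {n : ℕ}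
    (h : ∀ i < n, ω (ray ω s i).1 = ω' (ray ω s i).1) : ∀ i ≤ n, ray ω' s i = ray ω s i := by
  intro i
  induction i with
  | zero => intro _; rfl
  | succ i ih =>
    intro hi
    rw [ray_succ, ray_succ, ih (by omega), step, step, ← h i (by omega)]

theorem ExitsIn.unique {ω : A × ℤ → Fin 3} {G : Set (A × ℤ)} {s t t' : (A × ℤ) × Dir} {n n' : ℕ}
    (h : ExitsIn ω G s t n) (h' : ExitsIn ω G s t' n') : n = n' ∧ t = t' := by
  obtain ⟨h1, h2, h3⟩ := h
  obtain ⟨h1', h2', h3'⟩ := h'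
  have : n = n' := by
    rcases lt_trichotomy n n' with h | h | h
    · exact absurd (h3' n h) (by rw [h1]; exact h2)
    · exact h
    · exact absurd (h3 n' h) (by rw [h1']; exact h2')
  exact ⟨this, by rw [← h1, ← h1', this]⟩

theorem Exits.unique {ω : A × ℤ → Fin 3} {G : Set (A × ℤ)} {s t t' : (A × ℤ) × Dir}
    (h : Exits ω G s t) (h' : Exits ω G s t') : t = t' := by
  obtain ⟨n, h⟩ := h
  obtain ⟨n', h'⟩ := h'
  exact (h.unique h').2

/-- the ray is inside `G` just before the exit -/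
theorem ExitsIn.prev {ω : A × ℤ → Fin 3} {G : Set (A × ℤ)} {s t : (A × ℤ) × Dir} {n : ℕ}
    (h : ExitsIn ω G s t n) (hs : s.1 ∈ G) : 0 < n ∧ (ray ω s (n - 1)).1 ∈ G ∧
      t.1 - vec t.2 = (ray ω s (n - 1)).1 := by
  obtain ⟨h1, h2, h3⟩ := h
  have hn : 0 < n := by
    rcases Nat.eq_zero_or_pos n with h | h
    · subst h
      rw [ray_zero] at h1
      exact absurd (h1 ▸ hs) h2
    · exact h
  refine ⟨hn, h3 _ (by omega), ?_⟩
  obtain ⟨k, rfl⟩ : ∃ k, n = k + 1 := ⟨n - 1, by omega⟩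
  rw [← h1, ray_prev]; simp

theorem Exits.prev {ω : A × ℤ → Fin 3} {G : Set (A × ℤ)} {s t : (A × ℤ) × Dir}
    (h : Exits ω G s t) (hs : s.1 ∈ G) : t.1 - vec t.2 ∈ G := by
  obtain ⟨n, h⟩ := h
  obtain ⟨_, h1, h2⟩ := h.prev hs
  rw [h2]; exact h1

/-- time reversal of a passage through `G` -/
theorem ExitsIn.reverse {ω : A × ℤ → Fin 3} {G : Set (A × ℤ)} {s t : (A × ℤ) × Dir} {n : ℕ}
    (h : ExitsIn ω G s t n) (hs : Enters G s) : ExitsIn ω G (rev t) (rev s) n := by
  obtain ⟨hn, _, _⟩ := h.prev hs.1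
  obtain ⟨h1, h2, h3⟩ := h
  have key : ∀ i ≤ n, ray ω (rev t) i = rev (ray ω s (n - i)) := by
    intro i hi
    have := ray_rev ω s (n - i) i
    rwa [Nat.sub_add_cancel hi, h1] at this
  refine ⟨?_, ?_, ?_⟩
  · rw [key n le_rfl]; simp
  · exact hs.2
  · intro i hi
    rw [key i hi.le]
    obtain ⟨k, hk⟩ : ∃ k, n - i = k + 1 := ⟨n - i - 1, by omega⟩
    rw [hk]
    show (ray ω s (k + 1)).1 - vec (ray ω s (k + 1)).2 ∈ G
    rw [ray_prev]
    exact h3 k (by omega)

theorem Exits.reverse {ω : A × ℤ → Fin 3} {G : Set (A × ℤ)} {s t : (A × ℤ) × Dir}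
    (h : Exits ω G s t) (hs : Enters G s) : Exits ω G (rev t) (rev s) := by
  obtain ⟨n, h⟩ := h
  exact ⟨n, h.reverse hs⟩

theorem Exits.enters_rev {ω : A × ℤ → Fin 3} {G : Set (A × ℤ)} {s t : (A × ℤ) × Dir}
    (h : Exits ω G s t) (hs : s.1 ∈ G) : Enters G (rev t) := by
  refine ⟨h.prev hs, ?_⟩
  obtain ⟨n, _, h2, _⟩ := h
  show t.1 - vec t.2 - vec t.2.opp ∉ G
  simpa using h2

/-- if `s` enters `G` and `t` is an exit state: passage `s → t` iff passage `rev t → rev s` -/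
theorem exits_rev_iff {ω : A × ℤ → Fin 3} {G : Set (A × ℤ)} {s t : (A × ℤ) × Dir}
    (hs : Enters G s) (ht : Enters G (rev t)) :
    Exits ω G s t ↔ Exits ω G (rev t) (rev s) := by
  constructor
  · intro h; exact h.reverse hs
  · intro h
    have := h.reverse ht
    rwa [rev_rev, rev_rev] at this

theorem ExitsIn.congr {ω ω' : A × ℤ → Fin 3} {G : Set (A × ℤ)} {s t : (A × ℤ) × Dir} {n : ℕ}
    (h : ExitsIn ω G s t n) (hG : ∀ v ∈ G, ω v = ω' v) : ExitsIn ω' G s t n := by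
  obtain ⟨h1, h2, h3⟩ := h
  have key := ray_congr (ω := ω) (ω' := ω') (s := s) (n := n) (fun i hi => hG _ (h3 i hi))
  refine ⟨by rw [key n le_rfl, h1], h2, ?_⟩
  intro i hi
  rw [key i hi.le]; exact h3 i hi

theorem exits_congr {ω ω' : A × ℤ → Fin 3} {G : Set (A × ℤ)} {s t : (A × ℤ) × Dir}
    (hG : ∀ v ∈ G, ω v = ω' v) : Exits ω G s t ↔ Exits ω' G s t :=
  ⟨fun ⟨n, h⟩ => ⟨n, h.congr hG⟩, fun ⟨n, h⟩ => ⟨n, h.congr fun v hv => (hG v hv).symm⟩⟩

theorem ExitsIn.trans {ω : A × ℤ → Fin 3} {G G' : Set (A × ℤ)} {s t u : (A × ℤ) × Dir} {m n : ℕ}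
    (h : ExitsIn ω G s t m) (hG : G ⊆ G') (h' : ExitsIn ω G' t u n) :
    ExitsIn ω G' s u (m + n) := by
  obtain ⟨h1, h2, h3⟩ := h
  obtain ⟨h1', h2', h3'⟩ := h'
  refine ⟨by rw [ray_add, h1, h1'], h2', ?_⟩
  intro i hi
  rcases Nat.lt_or_ge i m with h | h
  · exact hG (h3 i h)
  · obtain ⟨k, rfl⟩ : ∃ k, i = m + k := ⟨i - m, by omega⟩
    rw [ray_add, h1]
    exact h3' k (by omega)

theorem Exits.trans {ω : A × ℤ → Fin 3} {G G' : Set (A × ℤ)} {s t u : (A × ℤ) × Dir}
    (h : Exits ω G s t) (hG : G ⊆ G') (h' : Exits ω G' t u) : Exits ω G' s u := by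
  obtain ⟨m, h⟩ := h
  obtain ⟨n, h'⟩ := h'
  exact ⟨_, h.trans hG h'⟩

theorem ExitsIn.split {ω : A × ℤ → Fin 3} {G G' : Set (A × ℤ)} {s u : (A × ℤ) × Dir} {n : ℕ}
    (h : ExitsIn ω G' s u n) (hG : G ⊆ G') :
    ∃ t m, m ≤ n ∧ ExitsIn ω G s t m ∧ ExitsIn ω G' t u (n - m) := by
  classical
  obtain ⟨h1, h2, h3⟩ := h
  have hex : ∃ m, (ray ω s m).1 ∉ G := ⟨n, by rw [h1]; exact fun h => h2 (hG h)⟩
  have hm : Nat.find hex ≤ n := Nat.find_min' hex (by rw [h1]; exact fun h => h2 (hG h))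
  refine ⟨ray ω s (Nat.find hex), Nat.find hex, hm, ⟨rfl, Nat.find_spec hex, ?_⟩, ?_, h2, ?_⟩
  · intro i hi
    by_contra hcon
    exact absurd (Nat.find_min' hex hcon) (by omega)
  · rw [← ray_add, Nat.add_sub_cancel' hm, h1]
  · intro i hi
    rw [← ray_add]
    exact h3 _ (by omega)

theorem Exits.split {ω : A × ℤ → Fin 3} {G G' : Set (A × ℤ)} {s u : (A × ℤ) × Dir}
    (h : Exits ω G' s u) (hG : G ⊆ G') : ∃ t, Exits ω G s t ∧ Exits ω G' t u := by
  obtain ⟨n, h⟩ := h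
  obtain ⟨t, m, _, h1, h2⟩ := h.split hG
  exact ⟨t, ⟨_, h1⟩, ⟨_, h2⟩⟩

/-- in a finite region an entering ray exits, after at most `4 |G|` steps -/
theorem exists_exitsIn {ω : A × ℤ → Fin 3} {G : Set (A × ℤ)} (hG : G.Finite)
    {s : (A × ℤ) × Dir} (hs : s.1 - vec s.2 ∉ G) :
    ∃ t n, n ≤ 4 * G.ncard ∧ ExitsIn ω G s t n := by
  classical
  by_cases hex : ∃ n, n ≤ 4 * G.ncard ∧ (ray ω s n).1 ∉ G
  · have hex' : ∃ m, (ray ω s m).1 ∉ G := hex.imp fun _ h => h.2
    obtain ⟨n, hn, hn'⟩ := hex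
    refine ⟨ray ω s (Nat.find hex'), Nat.find hex', (Nat.find_min' hex' hn').trans hn, rfl,
      Nat.find_spec hex', ?_⟩
    intro i hi
    by_contra hcon
    exact absurd (Nat.find_min' hex' hcon) (by omega)
  · exfalso
    push Not at hex
    -- the states `ray ω s i`, `i ≤ 4 |G|`, are distinct and lie in `G × Dir`
    have hinj : Set.InjOn (fun i => ray ω s i) (Set.Iic (4 * G.ncard)) := by
      have aux : ∀ i k, i + (k + 1) ≤ 4 * G.ncard → ray ω s i ≠ ray ω s (i + (k + 1)) := by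
        intro i k hik heq
        have h1 : ray ω s (i + (k + 1)) = ray ω (ray ω s (k + 1)) i := by
          rw [add_comm i, ray_add]
        rw [h1] at heq
        have h2 := ray_inj ω i heq
        apply hs
        have h3 := ray_prev ω s k
        rw [← h2] at h3
        rw [h3]
        exact hex k (by omega)
      intro i hi j hj hij
      simp only [Set.mem_Iic] at hi hj
      rcases lt_trichotomy i j with h | h | h
      · obtain ⟨k, rfl⟩ : ∃ k, j = i + (k + 1) := ⟨j - i - 1, by omega⟩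
        exact absurd hij (aux i k hj)
      · exact h
      · obtain ⟨k, rfl⟩ : ∃ k, i = j + (k + 1) := ⟨i - j - 1, by omega⟩
        exact absurd hij.symm (aux j k hi)
    have hmaps : Set.MapsTo (fun i => ray ω s i) (Set.Iic (4 * G.ncard))
        (G ×ˢ (Set.univ : Set Dir)) := by
      intro i hi
      exact ⟨hex i hi, Set.mem_univ _⟩
    have hfin : (G ×ˢ (Set.univ : Set Dir)).Finite := hG.prod Set.finite_univ
    have hcard := Set.ncard_le_ncard_of_injOn _ hmaps hinj hfin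
    rw [Set.ncard_prod, Set.ncard_univ, Nat.card_eq_fintype_card] at hcard
    have h4 : Fintype.card Dir = 4 := rfl
    have h5 : (Set.Iic (4 * G.ncard)).ncard = 4 * G.ncard + 1 := by
      rw [← Finset.coe_Iic, Set.ncard_coe_finset]; simp
    rw [h4, h5] at hcard
    omega

end generic

end Mir
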