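import Pool.Agent.Mir.Stmts

/-!
C2: rays crossing a square meet.
-/

open MeasureTheory

noncomputable section

namespace Mir

private theorem cross1_nb (ω : ℤ × ℤ → Fin 3) (s : (ℤ × ℤ) × Dir) (i : ℕ) :
    Nb (ray ω s i).1 (ray ω s (i + 1)).1 := by
  have h := ray_prev ω s i
  generalize ray ω s (i + 1) = u at h ⊢
  rw [← h]
  obtain ⟨⟨x, y⟩, d⟩ := u
  cases d <;> simp [Nb, vec]

theorem cross1 (hp : Stmt_plane) : Stmt_cross1 := by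
  intro c ω₁ ω₂ t₁ t₂ n₁ n₂ h₁ ht₁ h₂ ht₂
  have hs₁ : (((-(c:ℤ), (c:ℤ) + 1), Dir.E) : (ℤ × ℤ) × Dir).1 ∈ box (-(c:ℤ)) c 1 (2 * c + 1) := by
    refine ⟨?_, ?_, ?_, ?_⟩ <;> show _ ≤ _ <;> simp only <;> omega
  have hs₂ : ((((0:ℤ), (1:ℤ)), Dir.N) : (ℤ × ℤ) × Dir).1 ∈ box (-(c:ℤ)) c 1 (2 * c + 1) := by
    refine ⟨?_, ?_, ?_, ?_⟩ <;> show _ ≤ _ <;> simp only <;> omega
  obtain ⟨hn₁, hb₁, he₁⟩ := h₁.prev hs₁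
  obtain ⟨hn₂, hb₂, he₂⟩ := h₂.prev hs₂
  obtain ⟨_, _, hG₁⟩ := h₁
  obtain ⟨_, _, hG₂⟩ := h₂
  have hP : (ray ω₁ ((-(c:ℤ), (c:ℤ) + 1), Dir.E) (n₁ - 1)).1.1 = c := by
    have g1 := hb₁.2.1
    rw [← he₁] at g1 ⊢
    obtain ⟨⟨x, y⟩, d⟩ := t₁
    simp only at ht₁
    cases d <;> simp only [vec, Prod.fst_sub] at g1 ⊢ <;> omega
  have hQ : (ray ω₂ ((0, 1), Dir.N) (n₂ - 1)).1.2 = 2 * c + 1 := by
    have g1 := hb₂.2.2.2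
    rw [← he₂] at g1 ⊢
    obtain ⟨⟨x, y⟩, d⟩ := t₂
    simp only at ht₂
    cases d <;> simp only [vec, Prod.snd_sub] at g1 ⊢ <;> omega
  obtain ⟨i, hi, j, hj, hij⟩ := hp (-(c:ℤ)) c 1 (2 * c + 1) (n₁ - 1) (n₂ - 1)
    (fun i => (ray ω₁ ((-(c:ℤ), (c:ℤ) + 1), Dir.E) i).1) (fun j => (ray ω₂ ((0, 1), Dir.N) j).1)
    (fun i _ => cross1_nb ω₁ _ i) (fun j _ => cross1_nb ω₂ _ j)
    (fun i hi => hG₁ i (by omega)) (fun j hj => hG₂ j (by omega)) rfl hP rfl hQ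
  exact ⟨j, by omega, i, by omega, hij.symm⟩

end Mir
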