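import Pool.Agent.Mir.Stmts

/-!
# Module C3: crossing of two rays in the strip
-/

open MeasureTheory

noncomputable section

namespace Mir

private theorem c3_exists_seq {α : Type} {r : α → α → Prop} {x y : α}
    (h : Relation.ReflTransGen r x y) :
    ∃ (m : ℕ) (p : ℕ → α), p 0 = x ∧ p m = y ∧ ∀ i < m, r (p i) (p (i + 1)) := by
  induction h with
  | refl => exact ⟨0, fun _ => x, rfl, rfl, fun i hi => absurd hi (Nat.not_lt_zero i)⟩
  | @tail b c _ hbc ih =>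
    obtain ⟨m, p, h0, hm, hp⟩ := ih
    refine ⟨m + 1, fun i => if i ≤ m then p i else c, by simp [h0], by simp, ?_⟩
    intro i hi
    rcases Nat.lt_or_ge i m with h | h
    · have h1 : i ≤ m := h.le
      have h2 : i + 1 ≤ m := h
      simp only [if_pos h1, if_pos h2]
      exact hp i h
    · have h1 : i = m := by omega
      subst h1
      simp [hm, hbc]

/-- reachability by nearest neighbour steps inside `S` -/
private def C3R (S : Set (ℤ × ℤ)) (u v : ℤ × ℤ) : Prop :=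
  Relation.ReflTransGen (fun a b => Nb a b ∧ b ∈ S) u v

private theorem c3_plane (hp : Stmt_plane) {a b c d : ℤ} {S S' : Set (ℤ × ℤ)}
    (hS : S ⊆ box a b c d) (hS' : S' ⊆ box a b c d) {x x' y y' : ℤ × ℤ}
    (hx : C3R S x x') (hy : C3R S' y y') (hxS : x ∈ S) (hyS : y ∈ S')
    (h1 : x.1 = a) (h2 : x'.1 = b) (h3 : y.2 = c) (h4 : y'.2 = d) : ∃ z, z ∈ S ∧ z ∈ S' := by
  obtain ⟨m, P, P0, Pm, hP⟩ := c3_exists_seq hx
  obtain ⟨n, Q, Q0, Qn, hQ⟩ := c3_exists_seq hy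
  have hPS : ∀ i ≤ m, P i ∈ S := by
    intro i hi
    rcases Nat.eq_zero_or_pos i with h | h
    · subst h; rw [P0]; exact hxS
    · obtain ⟨k, rfl⟩ : ∃ k, i = k + 1 := ⟨i - 1, by omega⟩
      exact (hP k (by omega)).2
  have hQS : ∀ j ≤ n, Q j ∈ S' := by
    intro j hj
    rcases Nat.eq_zero_or_pos j with h | h
    · subst h; rw [Q0]; exact hyS
    · obtain ⟨k, rfl⟩ : ∃ k, j = k + 1 := ⟨j - 1, by omega⟩
      exact (hQ k (by omega)).2
  obtain ⟨i, hi, j, hj, hij⟩ := hp a b c d m n P Q (fun i hi => (hP i hi).1)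
    (fun j hj => (hQ j hj).1) (fun i hi => hS (hPS i hi)) (fun j hj => hS' (hQS j hj))
    (by rw [P0, h1]) (by rw [Pm, h2]) (by rw [Q0, h3]) (by rw [Qn, h4])
  exact ⟨P i, hPS i hi, hij ▸ hQS j hj⟩

/-- horizontal run to the right -/
private theorem c3_right {S : Set (ℤ × ℤ)} (x y : ℤ) (n : ℕ)
    (h : ∀ i : ℕ, i ≤ n → (x + i, y) ∈ S) : C3R S (x, y) (x + n, y) := by
  induction n with
  | zero =>
    simp only [Nat.cast_zero, add_zero]
    exact Relation.ReflTransGen.refl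
  | succ n ih =>
    refine (ih fun i hi => h i (by omega)).tail ⟨Or.inl ⟨?_, rfl⟩, ?_⟩
    · push_cast; ring
    · exact h (n + 1) le_rfl

/-- vertical run upwards -/
private theorem c3_up {S : Set (ℤ × ℤ)} (x y : ℤ) (n : ℕ)
    (h : ∀ i : ℕ, i ≤ n → (x, y + i) ∈ S) : C3R S (x, y) (x, y + n) := by
  induction n with
  | zero =>
    simp only [Nat.cast_zero, add_zero]
    exact Relation.ReflTransGen.refl
  | succ n ih =>
    refine (ih fun i hi => h i (by omega)).tail ⟨Or.inr (Or.inr (Or.inl ⟨rfl, ?_⟩)), ?_⟩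
    · push_cast; ring
    · exact h (n + 1) le_rfl

private theorem c3_nb (v : ℤ × ℤ) (d : Dir) : Nb v (v + vec d) := by
  obtain ⟨x, y⟩ := v
  cases d <;> simp [Nb, vec] <;> omega

private theorem c3_ray {S : Set (ℤ × ℤ)} (ω : ℤ × ℤ → Fin 3) (s : (ℤ × ℤ) × Dir) (n : ℕ)
    (h : ∀ i ≤ n, (ray ω s i).1 ∈ S) : C3R S s.1 (ray ω s n).1 := by
  induction n with
  | zero => exact Relation.ReflTransGen.refl
  | succ n ih =>
    refine (ih fun i hi => h i (by omega)).tail ⟨?_, h (n + 1) le_rfl⟩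
    rw [ray_succ]
    exact c3_nb _ _

private theorem c3_adj {v : ℤ × ℤ} {d : Dir} {w : ℤ × ℤ} (h : v - vec d = w) :
    (v.1 = w.1 + 1 ∧ v.2 = w.2) ∨ (v.1 = w.1 - 1 ∧ v.2 = w.2) ∨
    (v.1 = w.1 ∧ v.2 = w.2 + 1) ∨ (v.1 = w.1 ∧ v.2 = w.2 - 1) := by
  subst h
  obtain ⟨x, y⟩ := v
  cases d <;> simp [vec]

theorem cross2 (hp : Stmt_plane) : Stmt_cross2 := by
  intro N d ω₁ ω₂ t u t₂ m k n₂ hd1 hdN hA htA hB huB hY htY
  have hdN' : (d : ℤ) < N := by exact_mod_cast hdN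
  have hd1' : (1 : ℤ) ≤ d := by exact_mod_cast hd1
  set s₁ : (ℤ × ℤ) × Dir := ((0, 1), Dir.N) with hs₁
  set s₂ : (ℤ × ℤ) × Dir := (((d : ℤ), 1), Dir.N) with hs₂
  obtain ⟨hA1, hA2, hA3⟩ := hA
  obtain ⟨hB1, hB2, hB3⟩ := hB
  -- the first ray up to time m + k
  have hrA : ∀ i < m + k, -(N : ℤ) ≤ (ray ω₁ s₁ i).1.1 ∧ (ray ω₁ s₁ i).1.1 ≤ 3 * N ∧
      1 ≤ (ray ω₁ s₁ i).1.2 ∧ (ray ω₁ s₁ i).1.2 ≤ 4 * N + 1 := by
    intro i hi
    rcases Nat.lt_or_ge i m with h | h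
    · have := hA3 i h
      simp only [box, Set.mem_setOf_eq] at this
      omega
    · obtain ⟨l, rfl⟩ : ∃ l, i = m + l := ⟨i - m, by omega⟩
      rw [ray_add, hA1]
      have := hB3 l (by omega)
      simp only [box, Set.mem_setOf_eq] at this
      omega
  have hrm : ray ω₁ s₁ (m + k) = u := by rw [ray_add, hA1, hB1]
  -- t is in the right box
  have hmpos : 0 < m := by
    rcases Nat.eq_zero_or_pos m with h | h
    · subst h
      rw [ray_zero] at hA1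
      rw [← hA1] at htA
      simp only [hs₁] at htA
      omega
    · exact h
  have htbox : t.1 ∈ box ((N : ℤ) + 1) (3 * N) 1 (4 * N + 1) := by
    obtain ⟨l, rfl⟩ : ∃ l, m = l + 1 := ⟨m - 1, by omega⟩
    have h1 := hA3 l (by omega)
    have h2 := ray_prev ω₁ s₁ l
    rw [hA1] at h2
    have h3 := c3_adj h2
    simp only [box, Set.mem_setOf_eq] at h1 ⊢
    rcases h3 with h3 | h3 | h3 | h3 <;> omega
  have hkpos : 0 < k := by
    rcases Nat.eq_zero_or_pos k with h | h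
    · subst h
      rw [ray_zero] at hB1
      exact absurd (hB1 ▸ htbox) hB2
    · exact h
  -- position of the exit of the first ray
  have hu : (u.1.1 = 3 * N + 1 ∧ 1 ≤ u.1.2 ∧ u.1.2 ≤ 4 * N + 1) ∨
      ((N : ℤ) + 1 ≤ u.1.1 ∧ u.1.1 ≤ 3 * N ∧ (u.1.2 = 0 ∨ u.1.2 = 4 * N + 2)) := by
    obtain ⟨l, rfl⟩ : ∃ l, k = l + 1 := ⟨k - 1, by omega⟩
    have h1 := hB3 l (by omega)
    have h2 := ray_prev ω₁ t l
    rw [hB1] at h2
    have h3 := c3_adj h2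
    simp only [box, Set.mem_setOf_eq] at h1 hB2
    rcases h3 with h3 | h3 | h3 | h3 <;> omega
  -- the second ray
  obtain ⟨hY1, hY2, hY3⟩ := hY
  have hrY : ∀ i < n₂, -(N : ℤ) ≤ (ray ω₂ s₂ i).1.1 ∧ (ray ω₂ s₂ i).1.1 ≤ N + 2 * d ∧
      1 ≤ (ray ω₂ s₂ i).1.2 ∧ (ray ω₂ s₂ i).1.2 ≤ 2 * (N + d) + 1 := by
    intro i hi
    have := hY3 i hi
    simp only [box, Set.mem_setOf_eq] at this
    omega
  have hnpos : 0 < n₂ := by
    rcases Nat.eq_zero_or_pos n₂ with h | h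
    · subst h
      rw [ray_zero] at hY1
      rw [← hY1] at htY
      simp only [hs₂] at htY
      omega
    · exact h
  have ht2 : 1 ≤ t₂.1.2 ∧ t₂.1.2 ≤ 2 * (N + d) + 1 := by
    obtain ⟨l, rfl⟩ : ∃ l, n₂ = l + 1 := ⟨n₂ - 1, by omega⟩
    have h1 := hrY l (by omega)
    have h2 := ray_prev ω₂ s₂ l
    rw [hY1] at h2
    have h3 := c3_adj h2
    rcases h3 with h3 | h3 | h3 | h3 <;> omega
  -- the two sets
  set S : Set (ℤ × ℤ) := {v | (v.2 = 0 ∧ -(N : ℤ) - 1 ≤ v.1 ∧ v.1 ≤ 0) ∨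
    (∃ i < m + k, v = (ray ω₁ s₁ i).1) ∨
    (v.2 = u.1.2 ∧ u.1.1 ≤ v.1 ∧ v.1 ≤ 3 * N + 1)} with hS
  set S' : Set (ℤ × ℤ) := {v | (v.1 = d ∧ -1 ≤ v.2 ∧ v.2 ≤ 0) ∨
    (∃ i < n₂, v = (ray ω₂ s₂ i).1) ∨
    (v.1 = -(N : ℤ) - 1 ∧ t₂.1.2 ≤ v.2 ∧ v.2 ≤ 4 * N + 3)} with hS'
  have hSbox : S ⊆ box (-(N : ℤ) - 1) (3 * N + 1) (-1) (4 * N + 3) := by
    intro v hv
    simp only [hS, Set.mem_setOf_eq] at hv
    simp only [box, Set.mem_setOf_eq]
    rcases hv with h | ⟨i, hi, h⟩ | h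
    · omega
    · have := hrA i hi
      rw [h]; omega
    · omega
  have hSbox' : S' ⊆ box (-(N : ℤ) - 1) (3 * N + 1) (-1) (4 * N + 3) := by
    intro v hv
    simp only [hS', Set.mem_setOf_eq] at hv
    simp only [box, Set.mem_setOf_eq]
    rcases hv with h | ⟨i, hi, h⟩ | h
    · omega
    · have := hrY i hi
      rw [h]; omega
    · omega
  -- the first path
  have p1 : C3R S (-(N : ℤ) - 1, 0) (0, 0) := by
    have := c3_right (S := S) (-(N : ℤ) - 1) 0 (N + 1) (by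
      intro i hi
      left
      refine ⟨rfl, ?_, ?_⟩
      · show -(N : ℤ) - 1 ≤ -(N : ℤ) - 1 + i; omega
      · show -(N : ℤ) - 1 + i ≤ 0; omega)
    have e : (-(N : ℤ) - 1 + ((N + 1 : ℕ) : ℤ), (0 : ℤ)) = (0, 0) := by
      rw [Prod.mk.injEq]; refine ⟨?_, rfl⟩; push_cast; ring
    rwa [e] at this
  have hin : ∀ i ≤ m + k, (ray ω₁ s₁ i).1 ∈ S := by
    intro i hi
    rcases Nat.lt_or_ge i (m + k) with h | h
    · exact Or.inr (Or.inl ⟨i, h, rfl⟩)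
    · have : i = m + k := by omega
      subst this
      rw [hrm]
      refine Or.inr (Or.inr ⟨rfl, le_rfl, ?_⟩)
      omega
  have p2 : C3R S (0, 0) (0, 1) := Relation.ReflTransGen.single
    ⟨Or.inr (Or.inr (Or.inl ⟨rfl, rfl⟩)), hin 0 (by omega)⟩
  have p3 : C3R S (0, 1) u.1 := by
    have := c3_ray (S := S) ω₁ s₁ (m + k) hin
    rwa [hrm] at this
  have p4 : C3R S u.1 (3 * N + 1, u.1.2) := by
    have := c3_right (S := S) u.1.1 u.1.2 (3 * (N : ℤ) + 1 - u.1.1).toNat (by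
      intro i hi
      right; right
      refine ⟨rfl, ?_, ?_⟩
      · show u.1.1 ≤ u.1.1 + i; omega
      · show u.1.1 + i ≤ 3 * N + 1; omega)
    have e : (u.1.1 + ((3 * (N : ℤ) + 1 - u.1.1).toNat : ℤ), u.1.2) = (3 * (N : ℤ) + 1, u.1.2) := by
      rw [Prod.mk.injEq]; refine ⟨?_, rfl⟩; omega
    rw [e] at this
    exact this
  have hP : C3R S (-(N : ℤ) - 1, 0) (3 * N + 1, u.1.2) := ((p1.trans p2).trans p3).trans p4
  -- the second path
  have hin' : ∀ i ≤ n₂, (ray ω₂ s₂ i).1 ∈ S' := by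
    intro i hi
    rcases Nat.lt_or_ge i n₂ with h | h
    · exact Or.inr (Or.inl ⟨i, h, rfl⟩)
    · have : i = n₂ := by omega
      subst this
      rw [hY1]
      refine Or.inr (Or.inr ⟨?_, le_rfl, ?_⟩)
      · rw [htY]
      · omega
  have q1 : C3R S' ((d : ℤ), -1) ((d : ℤ), 0) := Relation.ReflTransGen.single
    ⟨Or.inr (Or.inr (Or.inl ⟨rfl, rfl⟩)), Or.inl ⟨rfl, by norm_num, le_rfl⟩⟩
  have q2 : C3R S' ((d : ℤ), 0) ((d : ℤ), 1) := Relation.ReflTransGen.single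
    ⟨Or.inr (Or.inr (Or.inl ⟨rfl, rfl⟩)), hin' 0 (by omega)⟩
  have q3 : C3R S' ((d : ℤ), 1) t₂.1 := by
    have := c3_ray (S := S') ω₂ s₂ n₂ hin'
    rwa [hY1] at this
  have q4 : C3R S' t₂.1 (t₂.1.1, 4 * N + 3) := by
    have := c3_up (S := S') t₂.1.1 t₂.1.2 (4 * (N : ℤ) + 3 - t₂.1.2).toNat (by
      intro i hi
      right; right
      refine ⟨?_, ?_, ?_⟩
      · show t₂.1.1 = _; rw [htY]
      · show t₂.1.2 ≤ t₂.1.2 + i; omega
      · show t₂.1.2 + i ≤ 4 * N + 3; omega)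
    have e : (t₂.1.1, t₂.1.2 + ((4 * (N : ℤ) + 3 - t₂.1.2).toNat : ℤ)) = (t₂.1.1, 4 * (N : ℤ) + 3) := by
      rw [Prod.mk.injEq]; refine ⟨rfl, ?_⟩; omega
    rw [e] at this
    exact this
  have hQ : C3R S' ((d : ℤ), -1) (t₂.1.1, 4 * N + 3) := ((q1.trans q2).trans q3).trans q4
  obtain ⟨z, hz, hz'⟩ := c3_plane hp hSbox hSbox' hP hQ
    (Or.inl ⟨rfl, le_rfl, by show -(N : ℤ) - 1 ≤ 0; omega⟩)
    (Or.inl ⟨rfl, le_rfl, by show (-1 : ℤ) ≤ 0; omega⟩) rfl rfl rfl rfl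
  simp only [hS, hS', Set.mem_setOf_eq] at hz hz'
  rcases hz with h | ⟨j, hj, h⟩ | h
  · exfalso
    rcases hz' with h' | ⟨i, hi, h'⟩ | h'
    · omega
    · have := hrY i hi
      rw [← h'] at this; omega
    · omega
  · rcases hz' with h' | ⟨i, hi, h'⟩ | h'
    · exfalso
      have := hrA j hj
      rw [← h] at this; omega
    · exact ⟨i, hi, j, hj, by rw [← h', ← h]⟩
    · exfalso
      have := hrA j hj
      rw [← h] at this; omega
  · exfalso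
    rcases hz' with h' | ⟨i, hi, h'⟩ | h'
    · omega
    · have := hrY i hi
      rw [← h'] at this; omega
    · omega

end Mir
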