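import Pool.Agent.Mir.Stmts

/-!
Rotation invariance on the cylinder and the union bound (A2).
-/

open MeasureTheory ProbabilityTheory

noncomputable section

namespace Mir

/-- rotation of a configuration -/
def cylRot {w : ℕ} (z : ZMod w) (ω : ZMod w × ℤ → Fin 3) : ZMod w × ℤ → Fin 3 :=
  fun v => ω (v.1 - z, v.2)

/-- rotation of a state -/
def cylS {w : ℕ} (z : ZMod w) (s : (ZMod w × ℤ) × Dir) : (ZMod w × ℤ) × Dir :=
  ((s.1.1 + z, s.1.2), s.2)

theorem cylRot_preserving {w : ℕ} {p : ℝ} (h0 : 0 ≤ p) (h1 : p ≤ 1) (z : ZMod w) :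
    MeasurePreserving (cylRot z) (mirOn (ZMod w × ℤ) p) (mirOn (ZMod w × ℤ) p) :=
  reindex h0 h1 (f := fun v : ZMod w × ℤ => (v.1 - z, v.2)) (by
    intro a b h
    simp only [Prod.mk.injEq, sub_left_inj] at h
    exact Prod.ext h.1 h.2)

theorem cylRot_step {w : ℕ} (z : ZMod w) (ω : ZMod w × ℤ → Fin 3) (s : (ZMod w × ℤ) × Dir) :
    step (cylRot z ω) (cylS z s) = cylS z (step ω s) := by
  obtain ⟨⟨x, y⟩, d⟩ := s
  simp only [step, cylRot, cylS, add_sub_cancel_right]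
  generalize turn (ω (x, y)) d = e
  cases e <;> simp [vec] <;> ring

theorem cylRot_ray {w : ℕ} (z : ZMod w) (ω : ZMod w × ℤ → Fin 3) (s : (ZMod w × ℤ) × Dir)
    (n : ℕ) : ray (cylRot z ω) (cylS z s) n = cylS z (ray ω s n) := by
  induction n with
  | zero => rfl
  | succ n ih => rw [ray_succ, ray_succ, ih, cylRot_step]

theorem cylS_inj {w : ℕ} (z : ZMod w) (a b : (ZMod w × ℤ) × Dir) :
    cylS z a = cylS z b ↔ a = b := by
  constructor
  · intro h
    obtain ⟨⟨a1, a2⟩, a3⟩ := a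
    obtain ⟨⟨b1, b2⟩, b3⟩ := b
    simp only [cylS, Prod.mk.injEq, add_left_inj] at h
    simp only [Prod.mk.injEq]
    exact h
  · rintro rfl; rfl

theorem cylRot_exits {w : ℕ} (z : ZMod w) (ω : ZMod w × ℤ → Fin 3) (h : ℕ)
    (s t : (ZMod w × ℤ) × Dir) :
    Exits (cylRot z ω) {v | 1 ≤ v.2 ∧ v.2 ≤ (h : ℤ)} (cylS z s) (cylS z t) ↔
      Exits ω {v | 1 ≤ v.2 ∧ v.2 ≤ (h : ℤ)} s t := by
  refine exists_congr fun n => ?_
  simp only [ExitsIn, cylRot_ray, cylS_inj]
  rfl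

theorem cyl (h : Stmt_par) : Stmt_cyl := by
  intro p h0 h1 w k hw x
  have hP := mirOn_isProb (V := ZMod w × ℤ) h0 h1
  have : NeZero w := ⟨hw.pos.ne'⟩
  set E : ZMod w → Set (ZMod w × ℤ → Fin 3) := fun x =>
    {ω | ∃ t, Exits ω {v | 1 ≤ v.2 ∧ v.2 ≤ (k : ℤ)} ((x, 1), Dir.N) t ∧ t.1.2 = (k : ℤ) + 1}
    with hE
  have hmeas : ∀ y, MeasurableSet (E y) := fun y =>
    meas_exits_some _ _ (fun t => t.1.2 = (k : ℤ) + 1)
  have hinv : ∀ y, (mirOn (ZMod w × ℤ) p).real (E y) = (mirOn (ZMod w × ℤ) p).real (E x) := by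
    intro y
    have hpre : cylRot (y - x) ⁻¹' (E y) = E x := by
      ext ω
      simp only [hE, Set.mem_preimage]
      constructor
      · rintro ⟨t, ht, ht2⟩
        refine ⟨cylS (-(y - x)) t, ?_, ht2⟩
        rw [← cylRot_exits (y - x)]
        have e1 : cylS (y - x) ((x, (1 : ℤ)), Dir.N) = ((y, 1), Dir.N) := by simp [cylS]
        have e2 : cylS (y - x) (cylS (-(y - x)) t) = t := by
          obtain ⟨⟨t1, t2⟩, t3⟩ := t
          simp only [cylS, neg_add_cancel_right]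
        rw [e1, e2]; exact ht
      · rintro ⟨t, ht, ht2⟩
        refine ⟨cylS (y - x) t, ?_, ht2⟩
        have e1 : cylS (y - x) ((x, (1 : ℤ)), Dir.N) = ((y, 1), Dir.N) := by simp [cylS]
        rw [← e1, cylRot_exits]; exact ht
    have := (cylRot_preserving (w := w) h0 h1 (y - x)).measure_preimage
      (hmeas y).nullMeasurableSet
    rw [hpre] at this
    rw [Measure.real, Measure.real, this]
  have hcov : (⋃ y, E y) = Set.univ := by
    rw [Set.eq_univ_iff_forall]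
    intro ω
    obtain ⟨y, t, ht⟩ := h w k hw ω
    exact Set.mem_iUnion.2 ⟨y, t, ht⟩
  have hsum : (1 : ℝ) ≤ ∑ y : ZMod w, (mirOn (ZMod w × ℤ) p).real (E y) := by
    have h2 := measureReal_iUnion_fintype_le (μ := mirOn (ZMod w × ℤ) p) E
    rw [hcov, probReal_univ] at h2
    exact h2
  rw [Finset.sum_congr rfl (fun y _ => hinv y), Finset.sum_const, Finset.card_univ, ZMod.card,
    nsmul_eq_mul] at hsum
  have hw0 : (0 : ℝ) < w := by exact_mod_cast hw.pos
  rw [div_le_iff₀ hw0, mul_comm]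
  exact hsum

end Mir
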