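import Mathlib

/-!
The Lorentz / Ehrenfest mirror model on the square lattice: common definitions.

Positions live in `A × ℤ` where `A = ℤ` (plane) or `A = ZMod w` (cylinder).
-/

open MeasureTheory

noncomputable section

namespace Mir

/-- the four travel directions -/
inductive Dir
  | N | E | S | W
  deriving DecidableEq, Fintype, Inhabited

/-- the opposite direction -/
def Dir.opp : Dir → Dir
  | .N => .S
  | .S => .N
  | .E => .W
  | .W => .E

/-- Outgoing direction of a ray that arrives at a vertex in state `a` travelling in direction `d`;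
`0` = empty, `1` = NE mirror, `2` = NW mirror. -/
def turn : Fin 3 → Dir → Dir
  | 0, d => d
  | 1, .N => .E
  | 1, .E => .N
  | 1, .S => .W
  | 1, .W => .S
  | 2, .N => .W
  | 2, .W => .N
  | 2, .S => .E
  | 2, .E => .S

section generic

variable {A : Type} [CommRing A]

/-- unit vector of a direction -/
def vec : Dir → A × ℤ
  | .N => (0, 1)
  | .S => (0, -1)
  | .E => (1, 0)
  | .W => (-1, 0)

/-- One step of the ray. The state `((x, y), d)` means: the ray arrives at the vertex `(x, y)`
travelling in direction `d`. -/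
def step (ω : A × ℤ → Fin 3) (s : (A × ℤ) × Dir) : (A × ℤ) × Dir :=
  (s.1 + vec (turn (ω s.1) s.2), turn (ω s.1) s.2)

/-- the state of the ray after `n` steps -/
def ray (ω : A × ℤ → Fin 3) (s : (A × ℤ) × Dir) (n : ℕ) : (A × ℤ) × Dir := (step ω)^[n] s

/-- time reversal of a state: the same edge traversed in the opposite direction -/
def rev (s : (A × ℤ) × Dir) : (A × ℤ) × Dir := (s.1 - vec s.2, s.2.opp)

/-- `s` enters `G`: its vertex is in `G`, the previous vertex is not -/
def Enters (G : Set (A × ℤ)) (s : (A × ℤ) × Dir) : Prop := s.1 ∈ G ∧ s.1 - vec s.2 ∉ G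

/-- the ray started at `s` leaves `G` for the first time in the state `t`, after `n` steps -/
def ExitsIn (ω : A × ℤ → Fin 3) (G : Set (A × ℤ)) (s t : (A × ℤ) × Dir) (n : ℕ) : Prop :=
  ray ω s n = t ∧ t.1 ∉ G ∧ ∀ i < n, (ray ω s i).1 ∈ G

/-- the ray started at `s` leaves `G` for the first time in the state `t` -/
def Exits (ω : A × ℤ → Fin 3) (G : Set (A × ℤ)) (s t : (A × ℤ) × Dir) : Prop :=
  ∃ n, ExitsIn ω G s t n

end generic

/-- the law of one vertex -/
def law (p : ℝ) : Measure (Fin 3) :=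
  ENNReal.ofReal (1 - p) • Measure.dirac 0 + ENNReal.ofReal (p / 2) • Measure.dirac 1
    + ENNReal.ofReal (p / 2) • Measure.dirac 2

/-- the i.i.d. mirror configuration indexed by `V` -/
def mirOn (V : Type) (p : ℝ) : Measure (V → Fin 3) := Measure.infinitePi fun _ => law p

/-- the mirror model on the square lattice -/
def mir (p : ℝ) : Measure (ℤ × ℤ → Fin 3) := mirOn (ℤ × ℤ) p

/-- smallest weight -/
def wm (p : ℝ) : ℝ := min (1 - p) (p / 2)

/-- rows `1, ..., m` -/
def slab (m : ℤ) : Set (ℤ × ℤ) := {v | 1 ≤ v.2 ∧ v.2 ≤ m}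

/-- columns `a, ..., b`, rows `c, ..., d` -/
def box (a b c d : ℤ) : Set (ℤ × ℤ) := {v | a ≤ v.1 ∧ v.1 ≤ b ∧ c ≤ v.2 ∧ v.2 ≤ d}

/-- `x` is the exit column of a ray through the rows `1..j`, from bottom to top -/
def Thru (ω : ℤ × ℤ → Fin 3) (j : ℕ) (x : ℤ) : Prop :=
  ∃ y : ℤ, Exits ω (slab j) ((y, 1), Dir.N) ((x, (j : ℤ) + 1), Dir.N)

/-- transmission probability of `j` rows -/
def T (p : ℝ) (j : ℕ) : ℝ :=
  (mir p).real {ω | ∃ x : ℤ, Exits ω (slab j) ((0, 1), Dir.N) ((x, (j : ℤ) + 1), Dir.N)}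

/-- pair function of the exit columns -/
def aa (p : ℝ) (j : ℕ) (d : ℤ) : ℝ := (mir p).real {ω | Thru ω j 0 ∧ Thru ω j d}

/-- probability that the ray entering the rows `1..m` from below at column `0` returns at
column `d` -/
def R (p : ℝ) (m : ℕ) (d : ℤ) : ℝ :=
  (mir p).real {ω | Exits ω (slab m) ((0, 1), Dir.N) ((d, 0), Dir.S)}

end Mir
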