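import Pool.Agent.Mir.Stmts

/-!
# E3: from the recursion to the power law
-/

open MeasureTheory

noncomputable section

namespace Mir

private theorem fin_core (T : ℕ → ℝ) (a r : ℕ → ℕ → ℝ) (κ : ℝ) (hκ : 0 < κ)
    (hT0 : ∀ j, 0 ≤ T j) (hT1 : ∀ j, T j ≤ 1) (ha : ∀ j d, 0 ≤ a j d)
    (hR : ∀ N d : ℕ, 1 ≤ d → d < N → κ / (N : ℝ) ^ 11 ≤ r (4 * N + 1) d)
    (hstar : ∀ j m N : ℕ, ∑ d ∈ Finset.Ico 1 N, a j d * r m d ≤ T j - T (j + m))
    (hsec : ∀ j N : ℕ, (N * T j) ^ 2 - N * T j ≤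
      2 * ∑ d ∈ Finset.Ico 1 N, ((N : ℝ) - d) * a j d) :
    ∃ C : ℝ, ∀ k : ℕ, 1 ≤ k → T k ≤ C * (k : ℝ) ^ (-(1 / 13 : ℝ)) := by
  have hanti1 : ∀ j m, T (j + m) ≤ T j := by
    intro j m
    have := hstar j m 1
    simp at this
    linarith
  have hanti : ∀ i j, i ≤ j → T j ≤ T i := by
    intro i j hij
    obtain ⟨m, rfl⟩ := Nat.exists_eq_add_of_le hij
    exact hanti1 i m
  set C' : ℝ := 15 * (2 * 3 ^ 11 / κ + 1) with hC'
  have hC'pos : 0 < C' := by positivity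
  refine ⟨C' ^ (1 / 13 : ℝ), fun k hk => ?_⟩
  have hk0 : (0 : ℝ) < k := by exact_mod_cast hk
  rcases (hT0 k).eq_or_lt with h0 | htpos
  · rw [← h0]; positivity
  set t : ℝ := T k with ht
  have ht1 : t ≤ 1 := hT1 k
  set N : ℕ := ⌈2 / t⌉₊ with hN
  have hN1 : 2 / t ≤ N := Nat.le_ceil _
  have hNt : 2 ≤ N * t := by
    rw [div_le_iff₀ htpos] at hN1; exact hN1
  have hNpos : (0 : ℝ) < N := by
    have : 0 < 2 / t := by positivity
    linarith
  have hN2 : (N : ℝ) ≤ 3 / t := by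
    have h1 : (N : ℝ) < 2 / t + 1 := Nat.ceil_lt_add_one (by positivity)
    have h2 : 1 ≤ 1 / t := by rw [le_div_iff₀ htpos]; linarith
    have h3 : 3 / t = 2 / t + 1 / t := by ring
    linarith
  have hNone : (1 : ℝ) ≤ N := by
    have h2 : 2 ≤ 2 / t := by rw [le_div_iff₀ htpos]; linarith
    linarith
  set m : ℕ := 4 * N + 1 with hm
  -- lower bound for the decrement
  have hstep : ∀ j, j ≤ k → κ / (N : ℝ) ^ 11 * (t / 2) ≤ T j - T (j + m) := by
    intro j hj
    have htj : t ≤ T j := hanti j k hj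
    have h1 : 2 ≤ N * T j := hNt.trans (mul_le_mul_of_nonneg_left htj hNpos.le)
    have h2 := hsec j N
    have h3 : ∑ d ∈ Finset.Ico 1 N, ((N : ℝ) - d) * a j d ≤
        N * ∑ d ∈ Finset.Ico 1 N, a j d := by
      rw [Finset.mul_sum]
      apply Finset.sum_le_sum
      intro d _
      apply mul_le_mul_of_nonneg_right _ (ha j d)
      have : (0 : ℝ) ≤ d := Nat.cast_nonneg d
      linarith
    have h4 : N * T j ≤ (N * T j) ^ 2 - N * T j := by nlinarith
    have h5 : N * T j ≤ N * (2 * ∑ d ∈ Finset.Ico 1 N, a j d) := by nlinarith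
    have h6 : T j ≤ 2 * ∑ d ∈ Finset.Ico 1 N, a j d := le_of_mul_le_mul_left h5 hNpos
    have h7 : t / 2 ≤ ∑ d ∈ Finset.Ico 1 N, a j d := by linarith
    calc κ / (N : ℝ) ^ 11 * (t / 2) ≤ κ / (N : ℝ) ^ 11 * ∑ d ∈ Finset.Ico 1 N, a j d := by
          apply mul_le_mul_of_nonneg_left h7; positivity
      _ = ∑ d ∈ Finset.Ico 1 N, a j d * (κ / (N : ℝ) ^ 11) := by
          rw [Finset.mul_sum]; exact Finset.sum_congr rfl fun _ _ => mul_comm _ _
      _ ≤ ∑ d ∈ Finset.Ico 1 N, a j d * r m d := by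
          apply Finset.sum_le_sum
          intro d hd
          rw [Finset.mem_Ico] at hd
          exact mul_le_mul_of_nonneg_left (hR N d hd.1 hd.2) (ha j d)
      _ ≤ T j - T (j + m) := hstar j m N
  have hmpos : 0 < m := by omega
  set q : ℕ := k / m with hq
  have hqm : q * m ≤ k := Nat.div_mul_le_self k m
  have hsum : ∀ i, i ≤ q → (i : ℝ) * (κ / (N : ℝ) ^ 11 * (t / 2)) ≤ T 0 - T (i * m) := by
    intro i
    induction i with
    | zero => intro _; simp
    | succ i ih =>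
      intro hi
      have h1 := ih (by omega)
      have h2 : i * m ≤ k := le_trans (Nat.mul_le_mul_right m (by omega)) hqm
      have h3 := hstep (i * m) h2
      have h4 : (i + 1) * m = i * m + m := by ring
      rw [h4]
      push_cast
      linarith
  have hq1 : (q : ℝ) * (κ / (N : ℝ) ^ 11 * (t / 2)) ≤ 1 := by
    have := hsum q le_rfl
    have h0 := hT0 (q * m)
    have h1 := hT1 0
    linarith
  have hkq : (k : ℝ) ≤ (q + 1) * m := by
    have : k < (q + 1) * m := by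
      have := Nat.lt_div_mul_add hmpos (a := k)
      rw [← hq] at this
      calc k < q * m + m := this
        _ = (q + 1) * m := by ring
    exact_mod_cast this.le
  have hq2 : (q : ℝ) ≤ 2 * 3 ^ 11 / κ / t ^ 12 := by
    have h1 : (N : ℝ) ^ 11 ≤ (3 / t) ^ 11 := pow_le_pow_left₀ hNpos.le hN2 11
    have h2 : (q : ℝ) * (κ * (t / 2)) ≤ (N : ℝ) ^ 11 := by
      have h3 : (q : ℝ) * (κ / (N : ℝ) ^ 11 * (t / 2)) = (q : ℝ) * (κ * (t / 2)) / (N : ℝ) ^ 11 := by
        ring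
      rw [h3, div_le_iff₀ (by positivity)] at hq1
      linarith
    have h4 : (q : ℝ) * (κ * (t / 2)) ≤ 3 ^ 11 / t ^ 11 := by
      rw [div_pow] at h1; exact h2.trans h1
    rw [div_div, le_div_iff₀ (by positivity)]
    rw [le_div_iff₀ (by positivity)] at h4
    have h5 : (q : ℝ) * (κ * t ^ 12) = 2 * ((q : ℝ) * (κ * (t / 2)) * t ^ 11) := by ring
    rw [h5]; linarith
  have hm2 : (m : ℝ) ≤ 15 / t := by
    have h1 : (m : ℝ) = 4 * N + 1 := by rw [hm]; push_cast; ring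
    rw [h1]
    have h2 : 15 / t = 5 * (3 / t) := by ring
    rw [h2]; linarith
  have hkt : (k : ℝ) ≤ C' / t ^ 13 := by
    have h1 : (1 : ℝ) ≤ 1 / t ^ 12 := by
      rw [le_div_iff₀ (by positivity)]
      have := pow_le_one₀ htpos.le ht1 (n := 12)
      linarith
    calc (k : ℝ) ≤ (q + 1) * m := hkq
      _ ≤ (2 * 3 ^ 11 / κ / t ^ 12 + 1 / t ^ 12) * (15 / t) := by
          apply mul_le_mul (by linarith) hm2 (by positivity) (by positivity)
      _ = C' / t ^ 13 := by rw [hC']; field_simp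
  have ht13 : t ^ 13 ≤ C' / k := by
    rw [le_div_iff₀ hk0]
    rw [le_div_iff₀ (by positivity)] at hkt
    linarith
  have h1 : t = (t ^ 13) ^ (1 / 13 : ℝ) := by
    rw [← Real.rpow_natCast t 13, ← Real.rpow_mul htpos.le]
    norm_num
  calc t = (t ^ 13) ^ (1 / 13 : ℝ) := h1
    _ ≤ (C' / k) ^ (1 / 13 : ℝ) := by
        apply Real.rpow_le_rpow (by positivity) ht13 (by norm_num)
    _ = C' ^ (1 / 13 : ℝ) * (k : ℝ) ^ (-(1 / 13 : ℝ)) := by
        rw [Real.div_rpow hC'pos.le hk0.le, Real.rpow_neg hk0.le, div_eq_mul_inv]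

theorem fin_thm (h1 : Stmt_R) (h2 : Stmt_star) (h3 : Stmt_second) : Stmt_fin := by
  intro p hp0 hp1
  obtain ⟨κ, hκ, hR⟩ := h1 p hp0 hp1
  haveI : IsProbabilityMeasure (mir p) := mir_isProb hp0.le hp1.le
  exact fin_core (T p) (fun j d => aa p j (d : ℤ)) (fun m d => R p m (d : ℤ)) κ hκ
    (fun j => measureReal_nonneg) (fun j => measureReal_le_one) (fun j d => measureReal_nonneg)
    (fun N d hd hdN => hR N d hd hdN) (fun j m N => h2 p hp0.le hp1.le j m N)
    (fun j N => h3 p hp0.le hp1.le j N)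

end Mir
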