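import Pool.Agent.Mir.Stmts

/-!
A3: coupling of the box with the cylinder.
-/

open MeasureTheory

noncomputable section

namespace Mir

/-- the section of the projection with values in the columns `a, ..., a + w - 1` -/
private def ksSec (a : ℤ) (w : ℕ) (v : ZMod w × ℤ) : ℤ × ℤ :=
  (a + ((v.1 - (a : ZMod w)).val : ℤ), v.2)

private def ksProj (w : ℕ) (s : (ℤ × ℤ) × Dir) : (ZMod w × ℤ) × Dir :=
  (((s.1.1 : ZMod w), s.1.2), s.2)

private theorem ksSec_inj (a : ℤ) (w : ℕ) [NeZero w] : Function.Injective (ksSec a w) := by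
  rintro ⟨z, y⟩ ⟨z', y'⟩ h
  simp only [ksSec, Prod.mk.injEq] at h
  obtain ⟨h1, h2⟩ := h
  have h3 : (z - (a : ZMod w)).val = (z' - (a : ZMod w)).val := by omega
  have h4 := ZMod.val_injective w h3
  have h5 : z = z' := by
    have := congrArg (· + (a : ZMod w)) h4
    simpa using this
  rw [h5, h2]

private theorem ksSec_proj (a : ℤ) (w : ℕ) [NeZero w] (v : ℤ × ℤ) (h1 : a ≤ v.1)
    (h2 : v.1 ≤ a + w - 1) : ksSec a w ((v.1 : ZMod w), v.2) = v := by
  obtain ⟨x, y⟩ := v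
  simp only [ksSec, Prod.mk.injEq, and_true]
  simp only at h1 h2
  have h3 : ((x : ZMod w) - (a : ZMod w)) = (((x - a : ℤ)) : ZMod w) := by push_cast; ring
  rw [h3, ZMod.val_intCast, Int.emod_eq_of_lt (by omega) (by omega)]
  ring

private theorem ks_step (a : ℤ) (w : ℕ) [NeZero w] (ω : ℤ × ℤ → Fin 3) (s : (ℤ × ℤ) × Dir)
    (h1 : a ≤ s.1.1) (h2 : s.1.1 ≤ a + w - 1) :
    ksProj w (step ω s) = step (fun v => ω (ksSec a w v)) (ksProj w s) := by
  have h3 := ksSec_proj a w s.1 h1 h2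
  simp only [step, ksProj]
  rw [h3]
  generalize turn (ω s.1) s.2 = e
  cases e <;> simp [vec]

theorem ks (hc : Stmt_cyl) : Stmt_ks := by
  intro p hp0 hp1 a x w h hw hax hxw
  have : NeZero w := ⟨by rintro rfl; simp at hw⟩
  have hP := mir_isProb hp0 hp1
  set E : Set (ZMod w × ℤ → Fin 3) := {ω | ∃ t, Exits ω {v | 1 ≤ v.2 ∧ v.2 ≤ (h : ℤ)}
    (((x : ZMod w), 1), Dir.N) t ∧ t.1.2 = (h : ℤ) + 1} with hE
  have hEm : MeasurableSet E := by
    have : Countable (ZMod w) := Finite.to_countable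
    exact meas_exits_some _ _ fun t => t.1.2 = (h : ℤ) + 1
  refine (hc p hp0 hp1 w h hw (x : ZMod w)).trans ?_
  have hpre := (reindex hp0 hp1 (ksSec_inj a w)).measure_preimage hEm.nullMeasurableSet
  have hpre' : (mirOn (ZMod w × ℤ) p).real E
      = (mir p).real ((fun (ω : ℤ × ℤ → Fin 3) v => ω (ksSec a w v)) ⁻¹' E) := by
    rw [Measure.real, Measure.real, ← hpre]; rfl
  rw [← hE, hpre']
  refine measureReal_mono ?_ (measure_ne_top _ _)
  rintro ω ⟨t', ht', htop⟩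
  have hfin : (box a (a + w - 1) 1 h).Finite := by
    have : box a (a + w - 1) 1 h ⊆ (Set.Icc a (a + w - 1)) ×ˢ (Set.Icc (1:ℤ) h) := by
      rintro v ⟨h1, h2, h3, h4⟩
      exact ⟨⟨h1, h2⟩, ⟨h3, h4⟩⟩
    exact ((Set.finite_Icc _ _).prod (Set.finite_Icc _ _)).subset this
  have hs : ((x, (1:ℤ)), Dir.N).1 - vec ((x, (1:ℤ)), Dir.N).2 ∉ box a (a + w - 1) 1 h := by
    rintro ⟨_, _, h3, _⟩
    have h1 : (1:ℤ) ≤ 1 - 1 := h3
    omega
  obtain ⟨t, n, _, ht⟩ := exists_exitsIn (ω := ω) hfin hs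
  refine ⟨t, ⟨n, ht⟩, ?_⟩
  intro h0
  obtain ⟨h1, h2, h3⟩ := ht
  have key : ∀ i ≤ n, ray (fun v => ω (ksSec a w v)) (((x : ZMod w), 1), Dir.N) i
      = ksProj w (ray ω ((x, 1), Dir.N) i) := by
    intro i
    induction i with
    | zero => intro _; rfl
    | succ i ih =>
      intro hi
      obtain ⟨g1, g2, _, _⟩ := h3 i (by omega)
      rw [ray_succ, ray_succ, ih (by omega), ks_step a w ω _ g1 g2]
  have hex : Exits (fun v => ω (ksSec a w v)) {v | 1 ≤ v.2 ∧ v.2 ≤ (h : ℤ)}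
      (((x : ZMod w), 1), Dir.N) (ksProj w t) := by
    refine ⟨n, ?_, ?_, ?_⟩
    · rw [key n le_rfl, h1]
    · rintro ⟨g1, _⟩
      have g2 : (1:ℤ) ≤ t.1.2 := g1
      omega
    · intro i hi
      rw [key i hi.le]
      obtain ⟨_, _, g3, g4⟩ := h3 i hi
      exact ⟨g3, g4⟩
  have huniq := Exits.unique ht' hex
  have hfinal : t'.1.2 = t.1.2 := by rw [huniq]; rfl
  omega

end Mir
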