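import Pool.Agent.Mir.Stmts

/-!
Boxes of odd height, entry from the left side (A4): exchange of coordinates and translation.
-/

open MeasureTheory ProbabilityTheory

noncomputable section

namespace Mir

theorem ksr (h : Stmt_ks) : Stmt_ksr := by
  intro p h0 h1 a y m W hm hy1 hy2
  have hks := h p h0 h1 1 y m W hm hy1 (by linarith)
  have hP := mir_isProb h0 h1
  refine hks.trans ?_
  have hpres : MeasurePreserving (fun ω => tr (a - 1, 0) (sw ω)) (mir p) (mir p) :=
    (tr_preserving h0 h1 (a - 1, 0)).comp (sw_preserving h0 h1)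
  have hmeas : MeasurableSet {ω : ℤ × ℤ → Fin 3 |
      ∃ t, Exits ω (box a (a + W - 1) 1 m) ((a, y), Dir.E) t ∧ t.1.1 ≠ a - 1} :=
    meas_exits_some _ _ (fun t => t.1.1 ≠ a - 1)
  have hpre := hpres.measure_preimage hmeas.nullMeasurableSet
  rw [Measure.real, Measure.real, ← hpre]
  refine ENNReal.toReal_mono (measure_ne_top _ _) (measure_mono ?_)
  rintro ω ⟨t, ht, ht2⟩
  refine ⟨trS (a - 1, 0) (swS t), ?_, ?_⟩
  · have h3 : Exits (sw ω) (box 1 W 1 m) (swS ((y, 1), Dir.N)) (swS t) := by
      rw [exits_sw ω (G := box 1 (1 + m - 1) 1 W)]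
      · exact ht
      · intro x y
        simp only [box, Set.mem_ofPred_eq]
        constructor
        · rintro ⟨a1, a2, a3, a4⟩
          exact ⟨a3, by linarith, a1, a2⟩
        · rintro ⟨a1, a2, a3, a4⟩
          exact ⟨a3, a4, a1, by linarith⟩
    have h4 : Exits (tr (a - 1, 0) (sw ω)) (box a (a + W - 1) 1 m)
        (trS (a - 1, 0) (swS ((y, 1), Dir.N))) (trS (a - 1, 0) (swS t)) := by
      rw [exits_tr (a - 1, 0) (sw ω) (G := box 1 W 1 m)]
      · exact h3
      · rintro ⟨x, y⟩
        simp only [box, Set.mem_ofPred_eq, Prod.fst_add, Prod.snd_add, add_zero]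
        constructor
        · rintro ⟨a1, a2, a3, a4⟩
          exact ⟨by linarith, by linarith, a3, a4⟩
        · rintro ⟨a1, a2, a3, a4⟩
          exact ⟨by linarith, by linarith, a3, a4⟩
    have h5 : trS (a - 1, 0) (swS ((y, 1), Dir.N)) = ((a, y), Dir.E) := by
      simp [trS, swS, swD]
    rw [h5] at h4
    exact h4
  · intro hcon
    apply ht2
    have : (trS (a - 1, 0) (swS t)).1.1 = t.1.2 + (a - 1) := rfl
    rw [this] at hcon
    linarith

end Mir
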