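import Pool.Agent.Mir.Stmts

/-!
Module D1 (Stmt_lam): the ray from the bottom middle of a square leaves it through a given
lateral side with at least polynomial probability.
-/

open MeasureTheory

noncomputable section

namespace Mir

private theorem lam_box (c : ℕ) : box (-(c : ℤ)) c 1 (2 * c + 1) =
    ((Finset.Icc (-(c : ℤ)) c ×ˢ Finset.Icc (1 : ℤ) (2 * c + 1) : Finset (ℤ × ℤ)) :
      Set (ℤ × ℤ)) := by
  ext v
  simp only [box, Set.mem_ofPred_eq, Finset.coe_product, Finset.coe_Icc, Set.mem_prod,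
    Set.mem_Icc]
  tauto

private theorem lam_finite (c : ℕ) : (box (-(c : ℤ)) c 1 (2 * c + 1)).Finite := by
  rw [lam_box]
  exact Finset.finite_toSet _

private theorem lam_ncard (c : ℕ) :
    (box (-(c : ℤ)) c 1 (2 * c + 1)).ncard = (2 * c + 1) ^ 2 := by
  rw [lam_box, Set.ncard_coe_finset, Finset.card_product, Int.card_Icc, Int.card_Icc]
  have h1 : ((c : ℤ) + 1 - -(c : ℤ)).toNat = 2 * c + 1 := by omega
  have h2 : (2 * (c : ℤ) + 1 + 1 - 1).toNat = 2 * c + 1 := by omega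
  rw [h1, h2]
  ring

private theorem lam_side (c : ℕ) {t : (ℤ × ℤ) × Dir}
    (h1 : t.1 ∉ box (-(c : ℤ)) c 1 (2 * c + 1))
    (h2 : t.1 - vec t.2 ∈ box (-(c : ℤ)) c 1 (2 * c + 1)) (h0 : t.1.2 ≠ 0) :
    t.1.1 = -(c : ℤ) - 1 ∨ t.1.1 = c + 1 ∨ t.1.2 = 2 * c + 2 := by
  obtain ⟨⟨x, y⟩, d⟩ := t
  simp only [box, Set.mem_ofPred_eq] at h1 h2
  simp only at h0 ⊢
  cases d <;> simp only [vec, Prod.mk_sub_mk] at h2 <;> omega

private theorem lam_enters2 (c : ℕ) :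
    Enters (box (-(c : ℤ)) c 1 (2 * c + 1)) (((0 : ℤ), (1 : ℤ)), Dir.N) := by
  constructor
  · simp only [box, Set.mem_ofPred_eq]; omega
  · simp only [box, Set.mem_ofPred_eq, vec, Prod.mk_sub_mk]; omega

private theorem lam_enters1 (c : ℕ) :
    Enters (box (-(c : ℤ)) c 1 (2 * c + 1)) ((-(c : ℤ), (c : ℤ) + 1), Dir.E) := by
  constructor
  · simp only [box, Set.mem_ofPred_eq]; omega
  · simp only [box, Set.mem_ofPred_eq, vec, Prod.mk_sub_mk]; omega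

private theorem lam_refl {p : ℝ} (h0 : 0 ≤ p) (h1 : p ≤ 1) (c : ℕ) :
    (mir p).real {ω | ∃ t, Exits ω (box (-(c : ℤ)) c 1 (2 * c + 1)) ((0, 1), Dir.N) t ∧
      t.1.1 = -(c : ℤ) - 1} =
    (mir p).real {ω | ∃ t, Exits ω (box (-(c : ℤ)) c 1 (2 * c + 1)) ((0, 1), Dir.N) t ∧
      t.1.1 = c + 1} := by
  have hG : ∀ x y : ℤ, (-x, y) ∈ box (-(c : ℤ)) c 1 (2 * c + 1) ↔
      (x, y) ∈ box (-(c : ℤ)) c 1 (2 * c + 1) := by
    intro x y
    simp only [box, Set.mem_ofPred_eq]; omega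
  have hs : rfS (((0 : ℤ), (1 : ℤ)), Dir.N) = ((0, 1), Dir.N) := by simp [rfS, rfD]
  have hm : MeasurableSet {ω : ℤ × ℤ → Fin 3 |
      ∃ t, Exits ω (box (-(c : ℤ)) c 1 (2 * c + 1)) ((0, 1), Dir.N) t ∧
        t.1.1 = -(c : ℤ) - 1} := meas_exits_some _ _ (fun t => t.1.1 = -(c : ℤ) - 1)
  have key := (rf_preserving h0 h1).measure_preimage hm.nullMeasurableSet
  rw [Measure.real, Measure.real, ← key]
  congr 2
  ext ω
  simp only [Set.mem_preimage, Set.mem_ofPred_eq]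
  constructor
  · rintro ⟨t, h, ht⟩
    refine ⟨rfS t, ?_, ?_⟩
    · have := (exits_rf ω hG (((0 : ℤ), (1 : ℤ)), Dir.N) (rfS t)).1
      rw [hs, rfS_rfS] at this
      exact this h
    · show -t.1.1 = (c : ℤ) + 1
      omega
  · rintro ⟨t, h, ht⟩
    refine ⟨rfS t, ?_, ?_⟩
    · have := (exits_rf ω hG (((0 : ℤ), (1 : ℤ)), Dir.N) t).2 h
      rwa [hs] at this
    · show -t.1.1 = -(c : ℤ) - 1
      omega

private theorem lam_rot {p : ℝ} (h0 : 0 ≤ p) (h1 : p ≤ 1) (c : ℕ) :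
    (mir p).real {ω | ∃ t, Exits ω (box (-(c : ℤ)) c 1 (2 * c + 1))
      ((-(c : ℤ), (c : ℤ) + 1), Dir.E) t ∧ t.1.1 = c + 1} =
    (mir p).real {ω | ∃ t, Exits ω (box (-(c : ℤ)) c 1 (2 * c + 1)) ((0, 1), Dir.N) t ∧
      t.1.2 = 2 * c + 2} := by
  have hG1 : ∀ x y : ℤ, (y, x) ∈ box 1 (2 * (c : ℤ) + 1) (-(c : ℤ)) c ↔
      (x, y) ∈ box (-(c : ℤ)) c 1 (2 * c + 1) := by
    intro x y
    simp only [box, Set.mem_ofPred_eq]; omega
  have hG2 : ∀ v : ℤ × ℤ, v + (-(c : ℤ) - 1, (c : ℤ) + 1) ∈ box (-(c : ℤ)) c 1 (2 * c + 1) ↔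
      v ∈ box 1 (2 * (c : ℤ) + 1) (-(c : ℤ)) c := by
    rintro ⟨x, y⟩
    simp only [box, Set.mem_ofPred_eq, Prod.mk_add_mk]; omega
  have hs : trS (-(c : ℤ) - 1, (c : ℤ) + 1) (swS (((0 : ℤ), (1 : ℤ)), Dir.N))
      = ((-(c : ℤ), (c : ℤ) + 1), Dir.E) := by
    simp [trS, swS, swD]
  have hm : MeasurableSet {ω : ℤ × ℤ → Fin 3 |
      ∃ t, Exits ω (box (-(c : ℤ)) c 1 (2 * c + 1)) ((-(c : ℤ), (c : ℤ) + 1), Dir.E) t ∧
        t.1.1 = c + 1} := meas_exits_some _ _ (fun t => t.1.1 = (c : ℤ) + 1)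
  have key := ((tr_preserving h0 h1 (-(c : ℤ) - 1, (c : ℤ) + 1)).comp
    (sw_preserving h0 h1)).measure_preimage hm.nullMeasurableSet
  rw [Measure.real, Measure.real, ← key]
  congr 2
  ext ω
  have hiff : ∀ t, Exits (tr (-(c : ℤ) - 1, (c : ℤ) + 1) (sw ω))
      (box (-(c : ℤ)) c 1 (2 * c + 1)) ((-(c : ℤ), (c : ℤ) + 1), Dir.E)
      (trS (-(c : ℤ) - 1, (c : ℤ) + 1) (swS t)) ↔
      Exits ω (box (-(c : ℤ)) c 1 (2 * c + 1)) ((0, 1), Dir.N) t := by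
    intro t
    have h2 := exits_tr (-(c : ℤ) - 1, (c : ℤ) + 1) (sw ω) hG2
      (swS (((0 : ℤ), (1 : ℤ)), Dir.N)) (swS t)
    rw [hs] at h2
    exact h2.trans (exits_sw ω hG1 (((0 : ℤ), (1 : ℤ)), Dir.N) t)
  simp only [Set.mem_preimage, Set.mem_ofPred_eq, Function.comp_apply]
  constructor
  · rintro ⟨t, h, ht⟩
    have hsur : trS (-(c : ℤ) - 1, (c : ℤ) + 1)
        (swS (swS (trS (-(-(c : ℤ) - 1, (c : ℤ) + 1)) t))) = t := by
      rw [swS_swS]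
      obtain ⟨⟨x, y⟩, d⟩ := t
      simp only [trS, Prod.neg_mk, Prod.mk_add_mk, Prod.mk.injEq, and_true]
      constructor <;> ring
    refine ⟨swS (trS (-(-(c : ℤ) - 1, (c : ℤ) + 1)) t), ?_, ?_⟩
    · rw [← hiff, hsur]; exact h
    · obtain ⟨⟨x, y⟩, d⟩ := t
      simp only [swS, trS, Prod.neg_mk, Prod.mk_add_mk] at ht ⊢
      omega
  · rintro ⟨t, h, ht⟩
    refine ⟨trS (-(c : ℤ) - 1, (c : ℤ) + 1) (swS t), (hiff t).2 h, ?_⟩
    obtain ⟨⟨x, y⟩, d⟩ := t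
    simp only [swS, trS, Prod.mk_add_mk] at ht ⊢
    omega

theorem lam (h1 : Stmt_ks) (h2 : Stmt_cross1) (h3 : Stmt_surg) (h4 : Stmt_meet) :
    Stmt_lam := by
  intro p hp0 hp1 c
  have hpr := mir_isProb hp0.le hp1.le
  -- the left, right and top passages
  set l : ℝ := (mir p).real {ω | ∃ t, Exits ω (box (-(c : ℤ)) c 1 (2 * c + 1))
    ((0, 1), Dir.N) t ∧ t.1.1 = -(c : ℤ) - 1} with hl
  set r : ℝ := (mir p).real {ω | ∃ t, Exits ω (box (-(c : ℤ)) c 1 (2 * c + 1))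
    ((0, 1), Dir.N) t ∧ t.1.1 = c + 1} with hr
  set q : ℝ := (mir p).real {ω | ∃ t, Exits ω (box (-(c : ℤ)) c 1 (2 * c + 1))
    ((0, 1), Dir.N) t ∧ t.1.2 = 2 * c + 2} with hq
  have hlr : l = r := lam_refl hp0.le hp1.le c
  have hl0 : 0 ≤ l := measureReal_nonneg
  have hq0 : 0 ≤ q := measureReal_nonneg
  have hw1 : (1 : ℝ) ≤ 2 * (c : ℝ) + 1 := by
    have : (0 : ℝ) ≤ c := Nat.cast_nonneg c
    linarith
  have hwm0 := wm_pos hp0 hp1
  have hwm1 := wm_le_one hp0.le hp1.le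
  -- (a) Kozma-Sidoravicius
  have ha : 1 / (2 * (c : ℝ) + 1) ≤ l + r + q := by
    have h := h1 p hp0.le hp1.le (-(c : ℤ)) 0 (2 * c + 1) (2 * c + 1) ⟨c, rfl⟩ (by omega)
      (by push_cast; omega)
    have e1 : -(c : ℤ) + ((2 * c + 1 : ℕ) : ℤ) - 1 = c := by push_cast; ring
    have e2 : ((2 * c + 1 : ℕ) : ℤ) = 2 * c + 1 := by push_cast; ring
    rw [e1, e2] at h
    push_cast at h
    refine h.trans ?_
    have hsub : {ω : ℤ × ℤ → Fin 3 | ∃ t, Exits ω (box (-(c : ℤ)) c 1 (2 * c + 1))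
        ((0, 1), Dir.N) t ∧ t.1.2 ≠ 0} ⊆
        ({ω | ∃ t, Exits ω (box (-(c : ℤ)) c 1 (2 * c + 1)) ((0, 1), Dir.N) t ∧
          t.1.1 = -(c : ℤ) - 1} ∪ {ω | ∃ t, Exits ω (box (-(c : ℤ)) c 1 (2 * c + 1))
          ((0, 1), Dir.N) t ∧ t.1.1 = c + 1}) ∪ {ω | ∃ t, Exits ω
          (box (-(c : ℤ)) c 1 (2 * c + 1)) ((0, 1), Dir.N) t ∧ t.1.2 = 2 * c + 2} := by
      rintro ω ⟨t, ht, ht0⟩
      have hp := ht.prev (lam_enters2 c).1
      have hn : t.1 ∉ box (-(c : ℤ)) c 1 (2 * c + 1) := by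
        obtain ⟨n, _, h, _⟩ := ht
        exact h
      rcases lam_side c hn hp ht0 with h | h | h
      · exact Or.inl (Or.inl ⟨t, ht, h⟩)
      · exact Or.inl (Or.inr ⟨t, ht, h⟩)
      · exact Or.inr ⟨t, ht, h⟩
    refine (measureReal_mono hsub).trans ?_
    refine (measureReal_union_le _ _).trans ?_
    exact add_le_add (measureReal_union_le _ _) le_rfl
  -- (b) gluing
  have hb : wm p * (q * q) ≤ 4 * (2 * (c : ℝ) + 1) ^ 2 * l := by
    have hmeet := h4 p hp0.le hp1.le (box (-(c : ℤ)) c 1 (2 * c + 1))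
      ((-(c : ℤ), (c : ℤ) + 1), Dir.E) ((0, 1), Dir.N)
      (fun ω n => ∃ t, ExitsIn ω (box (-(c : ℤ)) c 1 (2 * c + 1))
        ((-(c : ℤ), (c : ℤ) + 1), Dir.E) t n ∧ t.1.1 = c + 1)
      (fun ω n => ∃ t, ExitsIn ω (box (-(c : ℤ)) c 1 (2 * c + 1)) ((0, 1), Dir.N) t n ∧
        t.1.2 = 2 * c + 2)
      (4 * (2 * c + 1) ^ 2) ?_ ?_ ?_ ?_ ?_
    · have hsurg := h3 p hp0.le hp1.le (box (-(c : ℤ)) c 1 (2 * c + 1))
        ((-(c : ℤ), (c : ℤ) + 1), Dir.E) ((0, 1), Dir.N) (4 * (2 * c + 1) ^ 2)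
        (lam_enters1 c) (lam_enters2 c) (by simp)
      have hX : (mir p).real {ω | ∃ n, ∃ t, ExitsIn ω (box (-(c : ℤ)) c 1 (2 * c + 1))
          ((-(c : ℤ), (c : ℤ) + 1), Dir.E) t n ∧ t.1.1 = c + 1} = q := by
        rw [hq, ← lam_rot hp0.le hp1.le c]
        congr 1
        ext ω
        simp only [Set.mem_ofPred_eq, Exits]
        constructor
        · rintro ⟨n, t, h, ht⟩; exact ⟨t, ⟨n, h⟩, ht⟩
        · rintro ⟨t, ⟨n, h⟩, ht⟩; exact ⟨n, t, h, ht⟩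
      have hY : (mir p).real {ω | ∃ n, ∃ t, ExitsIn ω (box (-(c : ℤ)) c 1 (2 * c + 1))
          ((0, 1), Dir.N) t n ∧ t.1.2 = 2 * c + 2} = q := by
        rw [hq]
        congr 1
        ext ω
        simp only [Set.mem_ofPred_eq, Exits]
        constructor
        · rintro ⟨n, t, h, ht⟩; exact ⟨t, ⟨n, h⟩, ht⟩
        · rintro ⟨t, ⟨n, h⟩, ht⟩; exact ⟨n, t, h, ht⟩
      rw [hX, hY] at hmeet
      have hle : (mir p).real {ω | Exits ω (box (-(c : ℤ)) c 1 (2 * c + 1)) ((0, 1), Dir.N)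
          (rev ((-(c : ℤ), (c : ℤ) + 1), Dir.E))} ≤ l := by
        refine measureReal_mono ?_
        intro ω hω
        exact ⟨_, hω, by simp [rev, vec]⟩
      calc wm p * (q * q) ≤ wm p * (mir p).real {ω | Meet (box (-(c : ℤ)) c 1 (2 * c + 1))
            ((-(c : ℤ), (c : ℤ) + 1), Dir.E) ((0, 1), Dir.N) (4 * (2 * c + 1) ^ 2) ω} :=
            mul_le_mul_of_nonneg_left hmeet hwm0.le
        _ ≤ _ := hsurg
        _ ≤ ((4 * (2 * c + 1) ^ 2 : ℕ) : ℝ) * l :=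
            mul_le_mul_of_nonneg_left hle (Nat.cast_nonneg _)
        _ = 4 * (2 * (c : ℝ) + 1) ^ 2 * l := by push_cast; ring
    · -- locality
      rintro ω ω' n ⟨t, ⟨h, h', h''⟩, ht⟩ hω
      have key := ray_congr hω
      refine ⟨t, ⟨by rw [key n le_rfl, h], h', ?_⟩, ht⟩
      intro i hi
      rw [key i hi.le]; exact h'' i hi
    · rintro ω n n' ⟨t, h, _⟩ ⟨t', h', _⟩
      exact (h.unique h').1
    · rintro ω n ⟨t, h, _⟩
      exact h.2.2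
    · rintro ω n ⟨t, h, _⟩
      refine ⟨?_, h.2.2⟩
      obtain ⟨t', n', hn', h'⟩ := exists_exitsIn (ω := ω) (lam_finite c)
        (s := (((0 : ℤ), (1 : ℤ)), Dir.N)) (lam_enters2 c).2
      rw [(h.unique h').1]
      rwa [lam_ncard] at hn'
    · rintro ω₁ ω₂ n₁ n₂ ⟨t₁, h₁, e₁⟩ ⟨t₂, h₂, e₂⟩
      exact h2 c ω₁ ω₂ t₁ t₂ n₁ n₂ h₁ e₁ h₂ e₂
  -- conclusion
  have hfin : wm p / (20 * (2 * (c : ℝ) + 1) ^ 4) ≤ l := by
    generalize 2 * (c : ℝ) + 1 = w at *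
    have hw0 : (0 : ℝ) < w := by linarith
    rw [div_le_iff₀ (by positivity)]
    by_cases hcase : 1 / (2 * w) ≤ 2 * l
    · have h5 : 1 / (4 * w) ≤ l := by
        have : 1 / (4 * w) = 1 / (2 * w) / 2 := by field_simp; ring
        rw [this]; linarith
      have h6 : (1 : ℝ) ≤ l * (4 * w) := by
        rwa [div_le_iff₀ (by positivity)] at h5
      have h7 : (1 : ℝ) ≤ w ^ 3 := one_le_pow₀ hw1
      have h8 : l * (4 * w) * 1 ≤ l * (4 * w) * w ^ 3 :=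
        mul_le_mul_of_nonneg_left h7 (by positivity)
      have h9 : 0 ≤ l * w ^ 4 := by positivity
      nlinarith [h6, h8, h9]
    · have h5 : 1 / (2 * w) ≤ q := by
        have : 1 / w = 1 / (2 * w) + 1 / (2 * w) := by field_simp; ring
        rw [this] at ha
        push Not at hcase
        rw [← hlr] at ha
        linarith
      have h6 : (1 : ℝ) ≤ q * (2 * w) := by
        rwa [div_le_iff₀ (by positivity)] at h5
      have h7 : (1 : ℝ) ≤ (q * (2 * w)) ^ 2 := one_le_pow₀ h6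
      have h8 : wm p * 1 ≤ wm p * (q * (2 * w)) ^ 2 := mul_le_mul_of_nonneg_left h7 hwm0.le
      have h9 : wm p * (q * q) * (4 * w ^ 2) ≤ 4 * w ^ 2 * l * (4 * w ^ 2) :=
        mul_le_mul_of_nonneg_right hb (by positivity)
      have h10 : 0 ≤ l * w ^ 4 := by positivity
      nlinarith [h8, h9, h10]
  exact ⟨hfin, hlr ▸ hfin⟩

end Mir
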