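import Pool.Agent.Mir.Stmts

/-!
# E4: the statement to be handed in
-/

open MeasureTheory

noncomputable section

namespace Mir

private theorem main_vec_le (d : Dir) : (vec d : ℤ × ℤ).2 ≤ 1 := by
  cases d <;> simp [vec]

private theorem main_vec_eq (d : Dir) (h : (vec d : ℤ × ℤ).2 = 1) : d = Dir.N := by
  cases d <;> simp [vec] at h ⊢

private theorem main_succ (ω : ℤ × ℤ → Fin 3) (s : (ℤ × ℤ) × Dir) (n : ℕ) :
    (ray ω s (n + 1)).1.2 = (ray ω s n).1.2 + (vec (ray ω s (n + 1)).2 : ℤ × ℤ).2 := by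
  have h := ray_prev ω s n
  have h2 : (ray ω s (n + 1)).1 = (ray ω s n).1 + vec (ray ω s (n + 1)).2 := by
    rw [← h]; simp
  conv_lhs => rw [h2]
  rfl

private theorem main_subset (j : ℕ) :
    {ω : ℤ × ℤ → Fin 3 | ∃ n, (ray ω ((0, 1), Dir.N) n).1.2 = ((j + 1 : ℕ) : ℤ) ∧
      ∀ i ≤ n, 1 ≤ (ray ω ((0, 1), Dir.N) i).1.2} ⊆
    {ω | ∃ x : ℤ, Exits ω (slab j) ((0, 1), Dir.N) ((x, (j : ℤ) + 1), Dir.N)} := by
  classical
  rintro ω ⟨n0, hn0, hpos0⟩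
  set s : (ℤ × ℤ) × Dir := ((0, 1), Dir.N) with hs
  have hex : ∃ n, (ray ω s n).1.2 = (j : ℤ) + 1 := ⟨n0, by rw [hn0]; push_cast; ring⟩
  set n := Nat.find hex with hn
  have hn1 : (ray ω s n).1.2 = (j : ℤ) + 1 := Nat.find_spec hex
  have hmin : ∀ i < n, (ray ω s i).1.2 ≠ (j : ℤ) + 1 := fun i hi => Nat.find_min hex hi
  have hle : n ≤ n0 := Nat.find_min' hex (by rw [hn0]; push_cast; ring)
  have hpos : ∀ i ≤ n, 1 ≤ (ray ω s i).1.2 := fun i hi => hpos0 i (hi.trans hle)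
  have hup : ∀ i, i < n → (ray ω s i).1.2 ≤ j := by
    intro i
    induction i with
    | zero =>
      intro h0
      have h1 := hmin 0 h0
      have h2 : (ray ω s 0).1.2 = 1 := rfl
      rw [h2] at h1 ⊢
      have : (j : ℤ) ≠ 0 := by intro h; apply h1; rw [h]; ring
      have h3 : (0 : ℤ) ≤ j := Int.natCast_nonneg j
      omega
    | succ i ih =>
      intro hi
      have h1 := ih (by omega)
      have h2 := hmin (i + 1) hi
      have h3 := main_succ ω s i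
      have h4 := main_vec_le (ray ω s (i + 1)).2
      omega
  have hdir : (ray ω s n).2 = Dir.N := by
    rcases Nat.eq_zero_or_pos n with h0 | h0
    · rw [h0]; rfl
    · obtain ⟨m, hm⟩ : ∃ m, n = m + 1 := ⟨n - 1, by omega⟩
      have h1 := hup m (by omega)
      have h3 := main_succ ω s m
      rw [← hm, hn1] at h3
      have h4 := main_vec_le (ray ω s n).2
      exact main_vec_eq _ (by omega)
  refine ⟨(ray ω s n).1.1, n, ?_, ?_, ?_⟩
  · rw [← hn1, ← hdir]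
  · intro h
    have h2 : (j : ℤ) + 1 ≤ j := h.2
    omega
  · intro i hi
    exact ⟨hpos i hi.le, hup i hi⟩

theorem main_thm (h : Stmt_fin) : Stmt_main := by
  intro p hp0 hp1
  obtain ⟨C, hC⟩ := h p hp0 hp1
  have : IsProbabilityMeasure (mir p) := mir_isProb hp0.le hp1.le
  refine ⟨max 1 (|C| * 2 ^ (1 / 13 : ℝ)), fun k hk => ?_⟩
  obtain ⟨j, rfl⟩ : ∃ j, k = j + 1 := ⟨k - 1, by omega⟩
  rcases Nat.eq_zero_or_pos j with hj | hj
  · subst hj
    simp only [zero_add, Nat.cast_one, Real.one_rpow, mul_one]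
    exact measureReal_le_one.trans (le_max_left _ _)
  · have hj0 : (0 : ℝ) < j := by exact_mod_cast hj
    have hj1 : (1 : ℝ) ≤ j := by exact_mod_cast hj
    have h1 : (mir p).real {ω : ℤ × ℤ → Fin 3 | ∃ n,
        (ray ω ((0, 1), Dir.N) n).1.2 = ((j + 1 : ℕ) : ℤ) ∧
        ∀ i ≤ n, 1 ≤ (ray ω ((0, 1), Dir.N) i).1.2} ≤ T p j :=
      measureReal_mono (main_subset j)
    have h2 : T p j ≤ |C| * (j : ℝ) ^ (-(1 / 13 : ℝ)) :=
      (hC j hj).trans (mul_le_mul_of_nonneg_right (le_abs_self C) (by positivity))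
    have h3 : (j : ℝ) ^ (-(1 / 13 : ℝ)) ≤
        2 ^ (1 / 13 : ℝ) * ((j + 1 : ℕ) : ℝ) ^ (-(1 / 13 : ℝ)) := by
      have h4 : ((j + 1 : ℕ) : ℝ) ≤ 2 * j := by push_cast; linarith
      have h5 : (0 : ℝ) < ((j + 1 : ℕ) : ℝ) := by positivity
      rw [Real.rpow_neg hj0.le, Real.rpow_neg h5.le]
      have h6 : ((j + 1 : ℕ) : ℝ) ^ (1 / 13 : ℝ) ≤ 2 ^ (1 / 13 : ℝ) * (j : ℝ) ^ (1 / 13 : ℝ) := by
        rw [← Real.mul_rpow (by norm_num) hj0.le]
        exact Real.rpow_le_rpow h5.le h4 (by norm_num)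
      have h7 : 0 < ((j + 1 : ℕ) : ℝ) ^ (1 / 13 : ℝ) := by positivity
      have h8 : 0 < (j : ℝ) ^ (1 / 13 : ℝ) := by positivity
      rw [inv_eq_one_div, inv_eq_one_div, mul_one_div, div_le_div_iff₀ h8 h7]
      linarith
    calc _ ≤ T p j := h1
      _ ≤ |C| * (j : ℝ) ^ (-(1 / 13 : ℝ)) := h2
      _ ≤ |C| * (2 ^ (1 / 13 : ℝ) * ((j + 1 : ℕ) : ℝ) ^ (-(1 / 13 : ℝ))) :=
          mul_le_mul_of_nonneg_left h3 (abs_nonneg C)
      _ = (|C| * 2 ^ (1 / 13 : ℝ)) * ((j + 1 : ℕ) : ℝ) ^ (-(1 / 13 : ℝ)) := by ring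
      _ ≤ _ := mul_le_mul_of_nonneg_right (le_max_right _ _) (by positivity)

end Mir
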