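import Pool.Agent.Mir.Stmts

/-!
B3: two rays that are forced to meet (independence off the trace of the first ray).
-/

open MeasureTheory

noncomputable section

namespace Mir

/-- an event that depends only on finitely many vertices is measurable -/
private theorem meetM_meas_of_finite {F : Finset (ℤ × ℤ)} {X : Set (ℤ × ℤ → Fin 3)}
    (h : DepOn X (F : Set (ℤ × ℤ))) : MeasurableSet X := by
  classical
  set r : (ℤ × ℤ → Fin 3) → (F → Fin 3) := fun ω v => ω v with hr
  have hrm : Measurable r := measurable_pi_lambda _ fun v => measurable_pi_apply (v : ℤ × ℤ)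
  have hX : X = r ⁻¹' (r '' X) := by
    ext ω
    constructor
    · exact fun hω => ⟨ω, hω, rfl⟩
    · rintro ⟨ω', hω', he⟩
      refine h ω' ω (fun v hv => ?_) hω'
      exact congrFun he ⟨v, hv⟩
  rw [hX]
  exact hrm (Set.toFinite _).measurableSet

theorem meet : Stmt_meet := by
  classical
  intro p h0 h1 G s₁ s₂ X Y L hloc huniq hXG hYG hcross
  have hP := mir_isProb h0 h1
  -- `A F`: the event `X` with vertex set `F` of the first ray
  set A : Finset (ℤ × ℤ) → Set (ℤ × ℤ → Fin 3) := fun F =>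
    {ω | ∃ n, X ω n ∧ (Finset.range n).image (fun i => (ray ω s₁ i).1) = F} with hA
  set B : Finset (ℤ × ℤ) → Set (ℤ × ℤ → Fin 3) := fun F =>
    {ω | ∃ i < L, (ray ω s₂ i).1 ∈ F ∧ ∀ i' ≤ i, (ray ω s₂ i').1 ∈ G} with hB
  have hAdep : ∀ F, DepOn (A F) (F : Set (ℤ × ℤ)) := by
    rintro F ω ω' hω ⟨n, hn, hF⟩
    have hag : ∀ i < n, ω (ray ω s₁ i).1 = ω' (ray ω s₁ i).1 := by
      intro i hi
      refine hω _ ?_
      rw [← hF]
      exact Finset.mem_coe.2 (Finset.mem_image_of_mem _ (Finset.mem_range.2 hi))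
    refine ⟨n, hloc ω ω' n hn hag, ?_⟩
    rw [← hF]
    refine Finset.image_congr ?_
    intro i hi
    have hi' : i < n := by simpa using hi
    show (ray ω' s₁ i).1 = (ray ω s₁ i).1
    rw [ray_congr hag i hi'.le]
  have hAm : ∀ F, MeasurableSet (A F) := fun F => meetM_meas_of_finite (hAdep F)
  have hBdep : ∀ F : Finset (ℤ × ℤ), DepOn (B F) ((F : Set (ℤ × ℤ))ᶜ) := by
    rintro F ω ω' hω ⟨i, hi, hiF, hiG⟩
    have hex : ∃ i, (ray ω s₂ i).1 ∈ F := ⟨i, hiF⟩
    have hmin := Nat.find_spec hex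
    have hle : Nat.find hex ≤ i := Nat.find_min' hex hiF
    have hag : ∀ l < Nat.find hex, ω (ray ω s₂ l).1 = ω' (ray ω s₂ l).1 := by
      intro l hl
      refine hω _ ?_
      intro hmem
      exact Nat.find_min hex hl (Finset.mem_coe.1 hmem)
    have hray := ray_congr hag
    refine ⟨Nat.find hex, by omega, ?_, ?_⟩
    · rw [hray _ le_rfl]; exact hmin
    · intro i' hi'
      rw [hray i' hi']
      exact hiG i' (hi'.trans hle)
  have hBm : ∀ F, MeasurableSet (B F) := by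
    intro F
    have : B F = ⋃ i, ⋃ (_ : i < L), ({ω | (ray ω s₂ i).1 ∈ F} ∩
        ⋂ i', ⋂ (_ : i' ≤ i), {ω | (ray ω s₂ i').1 ∈ G}) := by
      ext ω
      constructor
      · rintro ⟨i, hi, h1, h2⟩
        refine Set.mem_iUnion.2 ⟨i, Set.mem_iUnion.2 ⟨hi, h1, ?_⟩⟩
        exact Set.mem_iInter.2 fun i' => Set.mem_iInter.2 fun hi' => h2 i' hi'
      · intro h
        obtain ⟨i, h⟩ := Set.mem_iUnion.1 h
        obtain ⟨hi, h1, h2⟩ := Set.mem_iUnion.1 h
        exact ⟨i, hi, h1, fun i' hi' => Set.mem_iInter.1 (Set.mem_iInter.1 h2 i') hi'⟩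
    rw [this]
    exact MeasurableSet.iUnion fun i => MeasurableSet.iUnion fun _ =>
      (meas_ray_prop s₂ i fun u => u.1 ∈ F).inter
        (MeasurableSet.iInter fun i' => MeasurableSet.iInter fun _ =>
          meas_ray_prop s₂ i' fun u => u.1 ∈ G)
  have hdisj : Pairwise (Function.onFun Disjoint A) := by
    intro F F' hne
    refine Set.disjoint_left.2 ?_
    rintro ω ⟨n, hn, hF⟩ ⟨n', hn', hF'⟩
    have := huniq ω n n' hn hn'
    subst this
    exact hne (hF.symm.trans hF')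
  have hcover : {ω | ∃ n, X ω n} = ⋃ F, A F := by
    ext ω
    constructor
    · rintro ⟨n, hn⟩
      exact Set.mem_iUnion.2 ⟨_, n, hn, rfl⟩
    · intro h
      obtain ⟨F, n, hn, _⟩ := Set.mem_iUnion.1 h
      exact ⟨n, hn⟩
  have hYB : ∀ F, (A F).Nonempty → {ω | ∃ n, Y ω n} ⊆ B F := by
    rintro F ⟨ω₁, n₁, hn₁, hF⟩ ω ⟨n₂, hn₂⟩
    obtain ⟨i, hi, j, hj, he⟩ := hcross ω₁ ω n₁ n₂ hn₁ hn₂
    obtain ⟨hL, hG⟩ := hYG ω n₂ hn₂
    refine ⟨i, by omega, ?_, fun i' hi' => hG i' (by omega)⟩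
    rw [he, ← hF]
    exact Finset.mem_image_of_mem (fun i => (ray ω₁ s₁ i).1) (Finset.mem_range.2 hj)
  have hsub : (⋃ F, A F ∩ B F) ⊆ {ω | Meet G s₁ s₂ L ω} := by
    intro ω hω
    obtain ⟨F, ⟨n, hn, hF⟩, i, hi, hiF, hiG⟩ := Set.mem_iUnion.1 hω
    rw [← hF] at hiF
    obtain ⟨j, hj, he⟩ := Finset.mem_image.1 hiF
    have hj' : j < n := Finset.mem_range.1 hj
    exact ⟨i, hi, j, he.symm, hiG, fun j' hj' => hXG ω n hn j' (by omega)⟩
  have key : mir p {ω | ∃ n, X ω n} * mir p {ω | ∃ n, Y ω n}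
      ≤ mir p {ω | Meet G s₁ s₂ L ω} := by
    calc mir p {ω | ∃ n, X ω n} * mir p {ω | ∃ n, Y ω n}
        = (∑' F, mir p (A F)) * mir p {ω | ∃ n, Y ω n} := by
          rw [hcover, measure_iUnion hdisj hAm]
      _ = ∑' F, mir p (A F) * mir p {ω | ∃ n, Y ω n} := ENNReal.tsum_mul_right.symm
      _ ≤ ∑' F, mir p (A F ∩ B F) := by
          refine ENNReal.tsum_le_tsum fun F => ?_
          rcases (A F).eq_empty_or_nonempty with he | hne
          · rw [he]; simp
          · rw [show mir p = mirOn (ℤ × ℤ) p from rfl,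
              indep_mul h0 h1 disjoint_compl_right (hAm F) (hBm F) (hAdep F) (hBdep F)]
            exact mul_le_mul_right (measure_mono (hYB F hne)) _
      _ = mir p (⋃ F, A F ∩ B F) := by
          rw [measure_iUnion _ fun F => (hAm F).inter (hBm F)]
          intro F F' hne
          exact (hdisj hne).mono Set.inter_subset_left Set.inter_subset_left
      _ ≤ mir p {ω | Meet G s₁ s₂ L ω} := measure_mono hsub
  rw [Measure.real, Measure.real, Measure.real, ← ENNReal.toReal_mul]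
  exact ENNReal.toReal_mono (measure_ne_top _ _) key

end Mir
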