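import Pool.Agent.Mir.Stmts

/-!
A1: parity argument on the cylinder of odd circumference.
-/

open MeasureTheory

noncomputable section

namespace Mir

private theorem par_opp_ne (d : Dir) : d.opp ≠ d := by cases d <;> decide

private theorem par_uturn (a : Fin 3) (d : Dir) : (turn a d).opp ≠ d := by
  fin_cases a <;> cases d <;> decide

/-- a ray never returns along its own starting edge -/
private theorem par_nofix {A : Type} [CommRing A] (ω : A × ℤ → Fin 3) (s : (A × ℤ) × Dir) (n : ℕ)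
    (h : ray ω s n = rev s) : False := by
  have key : ∀ i ≤ n, ray ω s i = rev (ray ω s (n - i)) := by
    intro i hi
    have := ray_rev ω s (n - i) i
    rwa [Nat.sub_add_cancel hi, h, rev_rev] at this
  rcases Nat.even_or_odd' n with ⟨k, hk | hk⟩
  · have h1 := key k (by omega)
    have h2 : n - k = k := by omega
    rw [h2] at h1
    have h3 := congrArg Prod.snd h1
    exact par_opp_ne _ h3.symm
  · have h1 := key k (by omega)
    have h2 : n - k = k + 1 := by omega
    rw [h2, ray_succ] at h1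
    have h3 := congrArg Prod.snd h1
    exact par_uturn _ _ h3.symm

theorem par : Stmt_par := by
  intro w h hw ω
  haveI : NeZero w := ⟨by rintro rfl; simp at hw⟩
  set G : Set (ZMod w × ℤ) := {v | 1 ≤ v.2 ∧ v.2 ≤ (h : ℤ)} with hG
  rcases Nat.eq_zero_or_pos h with h0 | hpos
  · refine ⟨0, (((0 : ZMod w), (1:ℤ)), Dir.N), ⟨0, rfl, ?_, ?_⟩, ?_⟩
    · rw [hG, h0]
      simp
    · intro i hi
      omega
    · rw [h0]; simp
  have hfin : G.Finite := by
    have : G ⊆ (Set.univ : Set (ZMod w)) ×ˢ (Set.Icc (1:ℤ) h) := by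
      intro v hv
      exact ⟨trivial, hv⟩
    exact (Set.finite_univ.prod (Set.finite_Icc _ _)).subset this
  have hs : ∀ x : ZMod w, Enters G ((x, (1:ℤ)), Dir.N) := by
    intro x
    constructor
    · show (1:ℤ) ≤ 1 ∧ (1:ℤ) ≤ h
      omega
    · intro hcon
      have h1 : (1:ℤ) ≤ 1 - 1 := hcon.1
      omega
  by_contra hcon
  push Not at hcon
  have hex : ∀ x : ZMod w, ∃ y : ZMod w, Exits ω G ((x, (1:ℤ)), Dir.N) ((y, (0:ℤ)), Dir.S) := by
    intro x
    obtain ⟨t, n, _, ht⟩ := exists_exitsIn (ω := ω) hfin (hs x).2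
    have hE : Exits ω G ((x, (1:ℤ)), Dir.N) t := ⟨n, ht⟩
    have hne := hcon x t hE
    have hprev := hE.prev (hs x).1
    have hout := ht.2.1
    obtain ⟨⟨y, z⟩, d⟩ := t
    cases d with
    | N =>
      exfalso
      have h1 : (1:ℤ) ≤ z - 1 := hprev.1
      have h2 : z - 1 ≤ (h:ℤ) := hprev.2
      have h3 : ¬ (1 ≤ z ∧ z ≤ (h:ℤ)) := hout
      have h4 : z ≠ (h:ℤ) + 1 := hne
      omega
    | S =>
      have h1 : (1:ℤ) ≤ z - (-1) := hprev.1
      have h2 : z - (-1) ≤ (h:ℤ) := hprev.2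
      have h3 : ¬ (1 ≤ z ∧ z ≤ (h:ℤ)) := hout
      have hz : z = 0 := by omega
      subst hz
      exact ⟨y, hE⟩
    | E =>
      exfalso
      have h1 : (1:ℤ) ≤ z - 0 := hprev.1
      have h2 : z - 0 ≤ (h:ℤ) := hprev.2
      have h3 : ¬ (1 ≤ z ∧ z ≤ (h:ℤ)) := hout
      omega
    | W =>
      exfalso
      have h1 : (1:ℤ) ≤ z - 0 := hprev.1
      have h2 : z - 0 ≤ (h:ℤ) := hprev.2
      have h3 : ¬ (1 ≤ z ∧ z ≤ (h:ℤ)) := hout
      omega
  choose f hf using hex
  have hrev0 : ∀ y : ZMod w, rev (((y, (0:ℤ)), Dir.S) : (ZMod w × ℤ) × Dir) = ((y, (1:ℤ)), Dir.N) := by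
    intro y
    simp [rev, vec, Dir.opp]
  have hrev1 : ∀ x : ZMod w, rev (((x, (1:ℤ)), Dir.N) : (ZMod w × ℤ) × Dir) = ((x, (0:ℤ)), Dir.S) := by
    intro y
    simp [rev, vec, Dir.opp]
  have hinv : Function.Involutive f := by
    intro x
    have h1 := (hf x).reverse (hs x)
    rw [hrev0, hrev1] at h1
    have h2 := (hf (f x)).unique h1
    exact congrArg (fun t : (ZMod w × ℤ) × Dir => t.1.1) h2
  have hnofix : ∀ x, f x ≠ x := by
    intro x hx
    have h1 := hf x
    rw [hx, ← hrev1] at h1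
    obtain ⟨n, hn⟩ := h1
    exact par_nofix ω _ n hn.1
  have hcard : ¬ 2 ∣ Fintype.card (ZMod w) := by
    rw [ZMod.card]
    intro hd
    exact (Nat.not_even_iff_odd.mpr hw) (even_iff_two_dvd.mpr hd)
  obtain ⟨a, ha⟩ := Equiv.Perm.exists_fixed_point_of_prime (p := 2) (n := 1) hcard
    (σ := hinv.toPerm f) (by
      ext x
      simp [pow_succ, Equiv.Perm.mul_apply, hinv x])
  exact hnofix a ha

end Mir
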