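import Pool.Agent.Mir.Stmts

/-!
Crossing lemma in the plane (C1): discrete winding number of the differences of two lattice paths.
-/

open Finset

noncomputable section

namespace Mir

private def psi (Y : ℤ) : ℤ := if 0 ≤ Y then 1 else 0

private def phi (X : ℤ) : ℤ := if 0 < X then 1 else 0

private theorem plane_square {X Y X1 Y1 X2 Y2 X3 Y3 : ℤ}
    (h1 : (X1 = X + 1 ∧ Y1 = Y) ∨ (X1 = X - 1 ∧ Y1 = Y) ∨ (X1 = X ∧ Y1 = Y + 1) ∨
      (X1 = X ∧ Y1 = Y - 1))
    (h2 : (X2 = X + 1 ∧ Y2 = Y) ∨ (X2 = X - 1 ∧ Y2 = Y) ∨ (X2 = X ∧ Y2 = Y + 1) ∨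
      (X2 = X ∧ Y2 = Y - 1))
    (h3 : X3 = X1 + X2 - X) (h3' : Y3 = Y1 + Y2 - Y)
    (n0 : ¬ (X = 0 ∧ Y = 0)) (n1 : ¬ (X1 = 0 ∧ Y1 = 0)) (n2 : ¬ (X2 = 0 ∧ Y2 = 0))
    (n3 : ¬ (X3 = 0 ∧ Y3 = 0)) :
    phi X * (psi Y1 - psi Y) + phi X1 * (psi Y3 - psi Y1)
      = phi X * (psi Y2 - psi Y) + phi X2 * (psi Y3 - psi Y2) := by
  unfold phi psi
  rcases h1 with ⟨rfl, rfl⟩ | ⟨rfl, rfl⟩ | ⟨rfl, rfl⟩ | ⟨rfl, rfl⟩ <;>
    rcases h2 with ⟨rfl, rfl⟩ | ⟨rfl, rfl⟩ | ⟨rfl, rfl⟩ | ⟨rfl, rfl⟩ <;>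
    subst h3 <;> subst h3' <;> split_ifs <;> omega

theorem plane : Stmt_plane := by
  intro a b c d m n p q hp hq hpR' hqR' hxa hxb hyc hyd
  by_contra hcon
  push Not at hcon
  have hpR : ∀ i ≤ m, a ≤ (p i).1 ∧ (p i).1 ≤ b ∧ c ≤ (p i).2 ∧ (p i).2 ≤ d := hpR'
  have hqR : ∀ i ≤ n, a ≤ (q i).1 ∧ (q i).1 ≤ b ∧ c ≤ (q i).2 ∧ (q i).2 ≤ d := hqR'
  have hne : ∀ i ≤ m, ∀ j ≤ n, ¬ ((p i).1 - (q j).1 = 0 ∧ (p i).2 - (q j).2 = 0) := by
    intro i hi j hj h
    have : p i = q j := Prod.ext (by omega) (by omega)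
    exact hcon i hi j hj this
  set X : ℕ → ℕ → ℤ := fun i j => (p i).1 - (q j).1 with hX
  set Y : ℕ → ℕ → ℤ := fun i j => (p i).2 - (q j).2 with hY
  -- squares
  have hsq : ∀ i < m, ∀ j < n,
      (phi (X i j) * (psi (Y (i + 1) j) - psi (Y i j))
        - phi (X i (j + 1)) * (psi (Y (i + 1) (j + 1)) - psi (Y i (j + 1))))
      + (phi (X (i + 1) j) * (psi (Y (i + 1) (j + 1)) - psi (Y (i + 1) j))
        - phi (X i j) * (psi (Y i (j + 1)) - psi (Y i j))) = 0 := by
    intro i hi j hj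
    have s1 := hp i hi
    have s2 := hq j hj
    have := plane_square (X := X i j) (Y := Y i j) (X1 := X (i + 1) j) (Y1 := Y (i + 1) j)
      (X2 := X i (j + 1)) (Y2 := Y i (j + 1)) (X3 := X (i + 1) (j + 1)) (Y3 := Y (i + 1) (j + 1))
      (by simp only [hX, hY]; rcases s1 with h | h | h | h <;> omega)
      (by simp only [hX, hY]; rcases s2 with h | h | h | h <;> omega)
      (by simp only [hX]; ring) (by simp only [hY]; ring)
      (hne i (by omega) j (by omega)) (hne (i + 1) (by omega) j (by omega))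
      (hne i (by omega) (j + 1) (by omega)) (hne (i + 1) (by omega) (j + 1) (by omega))
    linarith
  -- telescoping
  have htot : (∑ i ∈ range m, (phi (X i 0) * (psi (Y (i + 1) 0) - psi (Y i 0))
        - phi (X i n) * (psi (Y (i + 1) n) - psi (Y i n))))
      + ∑ j ∈ range n, (phi (X m j) * (psi (Y m (j + 1)) - psi (Y m j))
        - phi (X 0 j) * (psi (Y 0 (j + 1)) - psi (Y 0 j))) = 0 := by
    have e1 : ∀ i, (phi (X i 0) * (psi (Y (i + 1) 0) - psi (Y i 0))
        - phi (X i n) * (psi (Y (i + 1) n) - psi (Y i n)))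
        = ∑ j ∈ range n, (phi (X i j) * (psi (Y (i + 1) j) - psi (Y i j))
        - phi (X i (j + 1)) * (psi (Y (i + 1) (j + 1)) - psi (Y i (j + 1)))) := by
      intro i
      rw [Finset.sum_range_sub' (fun j => phi (X i j) * (psi (Y (i + 1) j) - psi (Y i j)))]
    have e2 : ∀ j, (phi (X m j) * (psi (Y m (j + 1)) - psi (Y m j))
        - phi (X 0 j) * (psi (Y 0 (j + 1)) - psi (Y 0 j)))
        = ∑ i ∈ range m, (phi (X (i + 1) j) * (psi (Y (i + 1) (j + 1)) - psi (Y (i + 1) j))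
        - phi (X i j) * (psi (Y i (j + 1)) - psi (Y i j))) := by
      intro j
      rw [Finset.sum_range_sub (fun i => phi (X i j) * (psi (Y i (j + 1)) - psi (Y i j)))]
    rw [Finset.sum_congr rfl (fun i _ => e1 i), Finset.sum_congr rfl (fun j _ => e2 j),
      Finset.sum_comm (s := range n) (t := range m), ← Finset.sum_add_distrib]
    refine Finset.sum_eq_zero (fun i hi => ?_)
    rw [← Finset.sum_add_distrib]
    refine Finset.sum_eq_zero (fun j hj => ?_)
    exact hsq i (Finset.mem_range.1 hi) j (Finset.mem_range.1 hj)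
  rw [Finset.sum_sub_distrib, Finset.sum_sub_distrib] at htot
  have b1 : ∑ i ∈ range m, phi (X i 0) * (psi (Y (i + 1) 0) - psi (Y i 0)) = 0 := by
    refine Finset.sum_eq_zero (fun i hi => ?_)
    have hi := Finset.mem_range.1 hi
    have h1 : 0 ≤ Y i 0 := by
      have := hpR i (by omega); simp only [hY]; omega
    have h2 : 0 ≤ Y (i + 1) 0 := by
      have := hpR (i + 1) (by omega); simp only [hY]; omega
    simp [psi, h1, h2]
  have b2 : ∑ j ∈ range n, phi (X 0 j) * (psi (Y 0 (j + 1)) - psi (Y 0 j)) = 0 := by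
    refine Finset.sum_eq_zero (fun j hj => ?_)
    have hj := Finset.mem_range.1 hj
    have h1 : ¬ 0 < X 0 j := by
      have := hqR j (by omega); simp only [hX]; omega
    simp [phi, h1]
  have b3 : ∑ j ∈ range n, phi (X m j) * (psi (Y m (j + 1)) - psi (Y m j))
      = psi (Y m n) - psi (Y m 0) := by
    rw [← Finset.sum_range_sub (fun j => psi (Y m j))]
    refine Finset.sum_congr rfl (fun j hj => ?_)
    have hj := Finset.mem_range.1 hj
    have h1 : 0 ≤ X m j := by
      have := hqR j (by omega); simp only [hX]; omega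
    have n1 := hne m le_rfl j (by omega)
    have n2 := hne m le_rfl (j + 1) (by omega)
    have s2 := hq j hj
    simp only [Nb] at s2
    simp only [hX, hY] at h1 ⊢
    unfold phi psi
    split_ifs <;> omega
  have b4 : ∑ i ∈ range m, phi (X i n) * (psi (Y (i + 1) n) - psi (Y i n))
      = phi (X m n) * psi (Y m n) - phi (X 0 n) * psi (Y 0 n) := by
    rw [← Finset.sum_range_sub (fun i => phi (X i n) * psi (Y i n))]
    refine Finset.sum_congr rfl (fun i hi => ?_)
    have hi := Finset.mem_range.1 hi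
    have h1 : Y i n ≤ 0 := by
      have := hpR i (by omega); simp only [hY]; omega
    have h2 : Y (i + 1) n ≤ 0 := by
      have := hpR (i + 1) (by omega); simp only [hY]; omega
    have n1 := hne i (by omega) n le_rfl
    have n2 := hne (i + 1) (by omega) n le_rfl
    have s1 := hp i hi
    simp only [Nb] at s1
    simp only [hX, hY] at h1 h2 ⊢
    unfold phi psi
    split_ifs <;> omega
  rw [b1, b2, b3, b4] at htot
  have h1 : 0 ≤ Y m 0 := by
    have := hpR m le_rfl; simp only [hY]; omega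
  have h2 : X 0 n ≤ 0 := by
    have := hqR n le_rfl; simp only [hX]; omega
  have h3 : 0 ≤ X m n := by
    have := hqR n le_rfl; simp only [hX]; omega
  have h4 : Y m n ≤ 0 := by
    have := hpR m le_rfl; simp only [hY]; omega
  have n3 := hne m le_rfl n le_rfl
  simp only [hX, hY] at h1 h2 h3 h4 htot
  unfold phi psi at htot
  split_ifs at htot <;> omega

end Mir
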