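import Pool.Agent.Mir.Stmts

/-!
Module D3 (Stmt_R): the return probabilities of the slab are at least polynomial.
-/

open MeasureTheory

noncomputable section

namespace Mir

/-- the time of the left passage of the second ray -/
private def rm_Y (N d : ℕ) (ω : ℤ × ℤ → Fin 3) (n : ℕ) : Prop :=
  ∃ t, ExitsIn ω (box (-N) (N + 2 * d) 1 (2 * (N + d) + 1)) ((d, 1), Dir.N) t n ∧
    t.1.1 = -(N : ℤ) - 1

private theorem rm_box (N d : ℕ) : box (-(N : ℤ)) (N + 2 * d) 1 (2 * (N + d) + 1) =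
    ((Finset.Icc (-(N : ℤ)) (N + 2 * d) ×ˢ Finset.Icc (1 : ℤ) (2 * (N + d) + 1) :
      Finset (ℤ × ℤ)) : Set (ℤ × ℤ)) := by
  ext v
  simp only [box, Set.mem_ofPred_eq, Finset.coe_product, Finset.coe_Icc, Set.mem_prod,
    Set.mem_Icc]
  tauto

private theorem rm_finite (N d : ℕ) :
    (box (-(N : ℤ)) (N + 2 * d) 1 (2 * (N + d) + 1)).Finite := by
  rw [rm_box]
  exact Finset.finite_toSet _

private theorem rm_ncard (N d : ℕ) :
    (box (-(N : ℤ)) (N + 2 * d) 1 (2 * (N + d) + 1)).ncard = (2 * (N + d) + 1) ^ 2 := by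
  rw [rm_box, Set.ncard_coe_finset, Finset.card_product, Int.card_Icc, Int.card_Icc]
  have h1 : ((N : ℤ) + 2 * d + 1 - -(N : ℤ)).toNat = 2 * (N + d) + 1 := by omega
  have h2 : (2 * ((N : ℤ) + d) + 1 + 1 - 1).toNat = 2 * (N + d) + 1 := by omega
  rw [h1, h2]
  ring

/-- the probability of the left passage of the second ray -/
private theorem rm_PY (h4 : Stmt_lam) {p : ℝ} (hp0 : 0 < p) (hp1 : p < 1) (N d : ℕ) :
    wm p / (20 * (2 * ((N : ℝ) + d) + 1) ^ 4) ≤ (mir p).real {ω | ∃ n, rm_Y N d ω n} := by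
  have hl := (h4 p hp0 hp1 (N + d)).1
  have hset : {ω : ℤ × ℤ → Fin 3 | ∃ n, rm_Y N d ω n} =
      {ω | ∃ t, Exits ω (box (-N) (N + 2 * d) 1 (2 * (N + d) + 1)) ((d, 1), Dir.N) t ∧
        t.1.1 = -(N : ℤ) - 1} := by
    ext ω
    simp only [rm_Y, Set.mem_ofPred_eq, Exits]
    constructor
    · rintro ⟨n, t, h, ht⟩
      exact ⟨t, ⟨n, h⟩, ht⟩
    · rintro ⟨t, ⟨n, h⟩, ht⟩
      exact ⟨n, t, h, ht⟩
  have hG : ∀ v : ℤ × ℤ, v + ((d : ℤ), (0 : ℤ)) ∈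
      box (-(N : ℤ)) (N + 2 * d) 1 (2 * (N + d) + 1) ↔
      v ∈ box (-((N + d : ℕ) : ℤ)) ((N + d : ℕ) : ℤ) 1 (2 * ((N + d : ℕ) : ℤ) + 1) := by
    rintro ⟨x, y⟩
    simp only [box, Set.mem_ofPred_eq, Prod.mk_add_mk]; push_cast; omega
  have hs : trS ((d : ℤ), (0 : ℤ)) (((0 : ℤ), (1 : ℤ)), Dir.N) = (((d : ℤ), (1 : ℤ)), Dir.N) := by
    simp [trS]
  have hm : MeasurableSet {ω : ℤ × ℤ → Fin 3 |
      ∃ t, Exits ω (box (-(N : ℤ)) (N + 2 * d) 1 (2 * (N + d) + 1))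
        (((d : ℤ), (1 : ℤ)), Dir.N) t ∧ t.1.1 = -(N : ℤ) - 1} :=
    meas_exits_some _ _ (fun t => t.1.1 = -(N : ℤ) - 1)
  have key := (tr_preserving hp0.le hp1.le ((d : ℤ), (0 : ℤ))).measure_preimage
    hm.nullMeasurableSet
  have hcast : (20 : ℝ) * (2 * ((N : ℝ) + d) + 1) ^ 4
      = 20 * (2 * ((N + d : ℕ) : ℝ) + 1) ^ 4 := by push_cast; ring
  rw [hcast]
  refine hl.trans (le_of_eq ?_)
  rw [hset, Measure.real, Measure.real, ← key]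
  congr 2
  ext ω
  have hiff : ∀ t, Exits (tr ((d : ℤ), (0 : ℤ)) ω)
      (box (-(N : ℤ)) (N + 2 * d) 1 (2 * (N + d) + 1)) (((d : ℤ), (1 : ℤ)), Dir.N)
      (trS ((d : ℤ), (0 : ℤ)) t) ↔
      Exits ω (box (-((N + d : ℕ) : ℤ)) ((N + d : ℕ) : ℤ) 1 (2 * ((N + d : ℕ) : ℤ) + 1))
        ((0, 1), Dir.N) t := by
    intro t
    have h2 := exits_tr ((d : ℤ), (0 : ℤ)) ω hG (((0 : ℤ), (1 : ℤ)), Dir.N) t
    rw [hs] at h2
    exact h2
  simp only [Set.mem_preimage, Set.mem_ofPred_eq]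
  constructor
  · rintro ⟨t, h, ht⟩
    refine ⟨trS ((d : ℤ), (0 : ℤ)) t, (hiff t).2 h, ?_⟩
    obtain ⟨⟨x, y⟩, e⟩ := t
    simp only [trS, Prod.mk_add_mk] at ht ⊢
    push_cast at ht
    omega
  · rintro ⟨t, h, ht⟩
    have hsur : trS ((d : ℤ), (0 : ℤ)) (trS (-((d : ℤ), (0 : ℤ))) t) = t := by
      obtain ⟨⟨x, y⟩, e⟩ := t
      simp only [trS, Prod.neg_mk, Prod.mk_add_mk, Prod.mk.injEq, and_true]
      constructor <;> ring
    refine ⟨trS (-((d : ℤ), (0 : ℤ))) t, ?_, ?_⟩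
    · rw [← hiff, hsur]; exact h
    · obtain ⟨⟨x, y⟩, e⟩ := t
      simp only [trS, Prod.neg_mk, Prod.mk_add_mk] at ht ⊢
      push_cast
      omega

/-- the separating ray: locality -/
private theorem rm_local (N : ℕ) (ω ω' : ℤ × ℤ → Fin 3) (n : ℕ) (hX : XR N ω n)
    (hω : ∀ i < n, ω (ray ω ((0, 1), Dir.N) i).1 = ω' (ray ω ((0, 1), Dir.N) i).1) :
    XR N ω' n := by
  obtain ⟨t, m, u, k, h1, h2, h3, h4, rfl⟩ := hX
  have key := ray_congr hω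
  have hm' := key m (by omega)
  have hm : ray ω ((0, 1), Dir.N) m = t := h1.1
  have hk : ∀ i ≤ k, ray ω' t i = ray ω t i := by
    intro i hi
    have h5 := key (m + i) (by omega)
    rw [ray_add, ray_add, hm', hm] at h5
    exact h5
  refine ⟨t, m, u, k, ⟨?_, h1.2.1, ?_⟩, h2, ⟨?_, h3.2.1, ?_⟩, h4, rfl⟩
  · rw [hm', hm]
  · intro i hi
    rw [key i (by omega)]
    exact h1.2.2 i hi
  · rw [hk k le_rfl]; exact h3.1
  · intro i hi
    rw [hk i hi.le]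
    exact h3.2.2 i hi

/-- the separating ray: uniqueness of the time -/
private theorem rm_unique (N : ℕ) (ω : ℤ × ℤ → Fin 3) (n n' : ℕ) (hX : XR N ω n)
    (hX' : XR N ω n') : n = n' := by
  obtain ⟨t, m, u, k, h1, h2, h3, h4, rfl⟩ := hX
  obtain ⟨t', m', u', k', h1', h2', h3', h4', rfl⟩ := hX'
  obtain ⟨rfl, rfl⟩ := h1.unique h1'
  obtain ⟨rfl, rfl⟩ := h3.unique h3'
  rfl

/-- the separating ray stays in the slab -/
private theorem rm_inside (N : ℕ) (ω : ℤ × ℤ → Fin 3) (n : ℕ) (hX : XR N ω n) :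
    ∀ i < n, (ray ω ((0, 1), Dir.N) i).1 ∈ slab ((4 * N + 1 : ℕ) : ℤ) := by
  obtain ⟨t, m, u, k, h1, h2, h3, h4, rfl⟩ := hX
  intro i hi
  rcases Nat.lt_or_ge i m with h | h
  · have h5 := h1.2.2 i h
    simp only [box, slab, Set.mem_ofPred_eq] at h5 ⊢
    push_cast
    omega
  · obtain ⟨j, rfl⟩ : ∃ j, i = m + j := ⟨i - m, by omega⟩
    rw [ray_add, h1.1]
    have h5 := h3.2.2 j (by omega)
    simp only [box, slab, Set.mem_ofPred_eq] at h5 ⊢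
    push_cast
    omega

/-- the second ray: bound of the time, stays in the slab -/
private theorem rm_Yin {N d : ℕ} (hdN : d < N) (ω : ℤ × ℤ → Fin 3) (n : ℕ)
    (hY : rm_Y N d ω n) : n ≤ 4 * (2 * (N + d) + 1) ^ 2 ∧
      ∀ i < n, (ray ω ((d, 1), Dir.N) i).1 ∈ slab ((4 * N + 1 : ℕ) : ℤ) := by
  obtain ⟨t, h, ht⟩ := hY
  constructor
  · have hs : ((((d : ℤ), (1 : ℤ)), Dir.N) : (ℤ × ℤ) × Dir).1 -
        vec ((((d : ℤ), (1 : ℤ)), Dir.N) : (ℤ × ℤ) × Dir).2 ∉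
        box (-(N : ℤ)) (N + 2 * d) 1 (2 * (N + d) + 1) := by
      simp only [box, Set.mem_ofPred_eq, vec, Prod.mk_sub_mk]; omega
    obtain ⟨t', n', hn', h'⟩ := exists_exitsIn (ω := ω) (rm_finite N d) hs
    rw [rm_ncard] at hn'
    obtain ⟨rfl, _⟩ := h.unique h'
    exact hn'
  · intro i hi
    have h5 := h.2.2 i hi
    simp only [box, slab, Set.mem_ofPred_eq] at h5 ⊢
    push_cast
    omega

theorem rm (h1 : Stmt_surg) (h2 : Stmt_meet) (h3 : Stmt_cross2) (h4 : Stmt_lam)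
    (h5 : Stmt_X) : Stmt_R := by
  intro p hp0 hp1
  have hw := wm_pos hp0 hp1
  refine ⟨wm p ^ 3 / (20 * 81 * 5 * (20 * 256) * 64), by positivity, ?_⟩
  intro N d hd hdN
  have hN1 : 1 ≤ N := by omega
  have hX := h5 p hp0 hp1 N hN1
  have hY := rm_PY h4 hp0 hp1 N d
  -- the two states enter the slab
  have hE1 : Enters (slab ((4 * N + 1 : ℕ) : ℤ)) (((0 : ℤ), (1 : ℤ)), Dir.N) := by
    constructor
    · constructor
      · exact le_rfl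
      · push_cast; omega
    · simp only [slab, Set.mem_ofPred_eq, vec, Prod.mk_sub_mk]; omega
  have hE2 : Enters (slab ((4 * N + 1 : ℕ) : ℤ)) (((d : ℤ), (1 : ℤ)), Dir.N) := by
    constructor
    · constructor
      · exact le_rfl
      · push_cast; omega
    · simp only [slab, Set.mem_ofPred_eq, vec, Prod.mk_sub_mk]; omega
  have hne : ((((0 : ℤ), (1 : ℤ)), Dir.N) : (ℤ × ℤ) × Dir) ≠ (((d : ℤ), (1 : ℤ)), Dir.N) := by
    intro h
    simp only [Prod.mk.injEq, and_true] at h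
    omega
  -- meeting
  have hM := h2 p hp0.le hp1.le (slab ((4 * N + 1 : ℕ) : ℤ)) ((0, 1), Dir.N) ((d, 1), Dir.N)
    (XR N) (rm_Y N d) (4 * (2 * (N + d) + 1) ^ 2) (rm_local N) (rm_unique N) (rm_inside N)
    (rm_Yin hdN) (by
      rintro ω₁ ω₂ n₁ n₂ ⟨t, m, u, k, k1, k2, k3, k4, rfl⟩ ⟨t₂, l1, l2⟩
      exact h3 N d ω₁ ω₂ t u t₂ m k n₂ hd hdN k1 k2 k3 k4 l1 l2)
  -- surgery
  have hS := h1 p hp0.le hp1.le (slab ((4 * N + 1 : ℕ) : ℤ)) ((0, 1), Dir.N) ((d, 1), Dir.N)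
    (4 * (2 * (N + d) + 1) ^ 2) hE1 hE2 hne
  -- the exit event
  have hR : (mir p).real {ω | Exits ω (slab ((4 * N + 1 : ℕ) : ℤ)) ((d, 1), Dir.N)
      (rev ((0, 1), Dir.N))} = R p (4 * N + 1) d := by
    unfold R
    congr 1
    ext ω
    simp only [Set.mem_ofPred_eq]
    rw [exits_rev_iff hE2 (by rw [rev_rev]; exact hE1), rev_rev]
    simp [rev, vec, Dir.opp]
  rw [hR] at hS
  -- arithmetic
  have hNr : (2 : ℝ) ≤ N := by exact_mod_cast (show 2 ≤ N by omega)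
  have hdr : (d : ℝ) + 1 ≤ N := by exact_mod_cast (show d + 1 ≤ N by omega)
  have hd0 : (0 : ℝ) ≤ d := Nat.cast_nonneg d
  have hN0 : (0 : ℝ) < N := by linarith
  have hR0 : 0 ≤ R p (4 * N + 1) d := measureReal_nonneg
  have hX2 : wm p / (20 * 81 * 5 * (N : ℝ) ^ 5) ≤ (mir p).real {ω | ∃ n, XR N ω n} := by
    refine le_trans ?_ hX
    rw [div_mul_div_comm, mul_one]
    refine div_le_div_of_nonneg_left hw.le (by positivity) ?_
    have a1 : (2 * (N : ℝ) + 1) ^ 4 ≤ (3 * N) ^ 4 :=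
      pow_le_pow_left₀ (by positivity) (by linarith) 4
    have a2 : 4 * (N : ℝ) + 1 ≤ 5 * N := by linarith
    calc 20 * (2 * (N : ℝ) + 1) ^ 4 * (4 * N + 1) ≤ 20 * (3 * (N : ℝ)) ^ 4 * (5 * N) := by
          gcongr
      _ = 20 * 81 * 5 * (N : ℝ) ^ 5 := by ring
  have hc : 2 * ((N : ℝ) + d) + 1 ≤ 4 * N := by linarith
  have hY2 : wm p / (20 * 256 * (N : ℝ) ^ 4) ≤ (mir p).real {ω | ∃ n, rm_Y N d ω n} := by
    refine le_trans ?_ hY
    refine div_le_div_of_nonneg_left hw.le (by positivity) ?_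
    calc 20 * (2 * ((N : ℝ) + d) + 1) ^ 4 ≤ 20 * (4 * (N : ℝ)) ^ 4 := by gcongr
      _ = 20 * 256 * (N : ℝ) ^ 4 := by ring
  have hL : ((4 * (2 * (N + d) + 1) ^ 2 : ℕ) : ℝ) ≤ 64 * (N : ℝ) ^ 2 := by
    push_cast
    calc 4 * (2 * ((N : ℝ) + d) + 1) ^ 2 ≤ 4 * (4 * (N : ℝ)) ^ 2 := by gcongr
      _ = 64 * (N : ℝ) ^ 2 := by ring
  have hXY : wm p / (20 * 81 * 5 * (N : ℝ) ^ 5) * (wm p / (20 * 256 * (N : ℝ) ^ 4)) ≤
      (mir p).real {ω | Meet (slab ((4 * N + 1 : ℕ) : ℤ)) ((0, 1), Dir.N) ((d, 1), Dir.N)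
        (4 * (2 * (N + d) + 1) ^ 2) ω} :=
    le_trans (mul_le_mul hX2 hY2 (by positivity) measureReal_nonneg) hM
  have hfin : wm p * (wm p / (20 * 81 * 5 * (N : ℝ) ^ 5) * (wm p / (20 * 256 * (N : ℝ) ^ 4))) ≤
      64 * (N : ℝ) ^ 2 * R p (4 * N + 1) d :=
    calc _ ≤ _ := mul_le_mul_of_nonneg_left hXY hw.le
      _ ≤ _ := hS
      _ ≤ _ := mul_le_mul_of_nonneg_right hL hR0
  have he : wm p * (wm p / (20 * 81 * 5 * (N : ℝ) ^ 5) * (wm p / (20 * 256 * (N : ℝ) ^ 4))) =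
      wm p ^ 3 / (20 * 81 * 5 * (20 * 256)) / (N : ℝ) ^ 9 := by
    field_simp
  rw [he, div_le_iff₀ (by positivity)] at hfin
  rw [div_le_iff₀ (by positivity)]
  have hq : wm p ^ 3 / (20 * 81 * 5 * (20 * 256) * 64) =
      wm p ^ 3 / (20 * 81 * 5 * (20 * 256)) / 64 := by rw [div_div]
  rw [hq, div_le_iff₀ (by norm_num)]
  calc _ ≤ _ := hfin
    _ = _ := by ring

end Mir
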