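import Pool.Agent.Mir.Stmts

/-!
Module E2: second moment of the exit point process.
-/

open MeasureTheory

noncomputable section

namespace Mir

private theorem second_exits_self {ω : ℤ × ℤ → Fin 3} {G : Set (ℤ × ℤ)} {s : (ℤ × ℤ) × Dir}
    (h : s.1 ∉ G) : Exits ω G s s := ⟨0, rfl, h, fun i hi => absurd hi (by omega)⟩

/-- two rays entering the rows `1..j` from below do not leave in the same state -/
private theorem second_inj {ω : ℤ × ℤ → Fin 3} {j : ℕ} {y y' x : ℤ}
    (h : Exits ω (slab j) ((y, 1), Dir.N) ((x, (j : ℤ) + 1), Dir.N))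
    (h' : Exits ω (slab j) ((y', 1), Dir.N) ((x, (j : ℤ) + 1), Dir.N)) : y = y' := by
  rcases Nat.eq_zero_or_pos j with hj | hj
  · subst hj
    have aux : ∀ z : ℤ, Exits ω (slab ((0 : ℕ) : ℤ)) ((z, 1), Dir.N)
        ((x, ((0 : ℕ) : ℤ) + 1), Dir.N) → z = x := by
      intro z hz
      have h0 : (((z, 1), Dir.N) : (ℤ × ℤ) × Dir).1 ∉ slab ((0 : ℕ) : ℤ) := by
        rintro ⟨_, h2⟩
        simp at h2
      have := hz.unique (second_exits_self h0)
      simp only [Prod.mk.injEq] at this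
      exact this.1.1.symm
    rw [aux y h, aux y' h']
  · have hs : ∀ z : ℤ, Enters (slab (j : ℤ)) ((z, 1), Dir.N) := by
      intro z
      refine ⟨⟨le_rfl, ?_⟩, ?_⟩
      · simp only
        exact_mod_cast hj
      · rintro ⟨h1, _⟩
        simp [vec] at h1
    have h1 := h.reverse (hs y)
    have h2 := h'.reverse (hs y')
    have h3 := h1.unique h2
    have h4 := rev_inj h3
    simp only [Prod.mk.injEq] at h4
    exact h4.1.1

private theorem second_tr_exits (j : ℕ) (ω : ℤ × ℤ → Fin 3) (x y z : ℤ) :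
    Exits (tr (z, 0) ω) (slab j) ((y + z, 1), Dir.N) ((x + z, (j : ℤ) + 1), Dir.N) ↔
      Exits ω (slab j) ((y, 1), Dir.N) ((x, (j : ℤ) + 1), Dir.N) := by
  have hG : ∀ v : ℤ × ℤ, v + (z, 0) ∈ slab (j : ℤ) ↔ v ∈ slab (j : ℤ) := by
    rintro ⟨a, b⟩
    simp [slab]
  have := exits_tr (z, 0) ω hG ((y, 1), Dir.N) ((x, (j : ℤ) + 1), Dir.N)
  simpa [trS] using this

private theorem second_tr_thru (j : ℕ) (ω : ℤ × ℤ → Fin 3) (x z : ℤ) :
    Thru (tr (z, 0) ω) j (x + z) ↔ Thru ω j x := by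
  constructor
  · rintro ⟨y, h⟩
    refine ⟨y - z, (second_tr_exits j ω x (y - z) z).1 ?_⟩
    rwa [sub_add_cancel]
  · rintro ⟨y, h⟩
    exact ⟨y + z, (second_tr_exits j ω x y z).2 h⟩

private theorem second_pair {p : ℝ} (h0 : 0 ≤ p) (h1 : p ≤ 1) (j : ℕ) (x x' : ℤ) :
    (mir p).real ({ω | Thru ω j x} ∩ {ω | Thru ω j x'}) = aa p j (x' - x) := by
  have hpre : ({ω : ℤ × ℤ → Fin 3 | Thru ω j x} ∩ {ω | Thru ω j x'}) =
      tr (-x, 0) ⁻¹' {ω | Thru ω j 0 ∧ Thru ω j (x' - x)} := by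
    ext ω
    have e1 := second_tr_thru j ω x (-x)
    have e2 := second_tr_thru j ω x' (-x)
    rw [add_neg_cancel] at e1
    rw [← sub_eq_add_neg] at e2
    simp only [Set.mem_inter_iff, Set.mem_preimage]
    exact (and_congr e1 e2).symm
  have hm : MeasurableSet {ω : ℤ × ℤ → Fin 3 | Thru ω j 0 ∧ Thru ω j (x' - x)} :=
    (meas_thru _ _).inter (meas_thru _ _)
  rw [Measure.real, hpre, (tr_preserving h0 h1 (-x, 0)).measure_preimage hm.nullMeasurableSet]
  rfl

private theorem second_one {p : ℝ} (h0 : 0 ≤ p) (h1 : p ≤ 1) (j : ℕ) (x : ℤ) :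
    (mir p).real {ω | Thru ω j x} = T p j := by
  have e1 : {ω : ℤ × ℤ → Fin 3 | Thru ω j x} =
      ⋃ y : ℤ, {ω | Exits ω (slab j) ((y, 1), Dir.N) ((x, (j : ℤ) + 1), Dir.N)} := by
    ext ω; simp [Thru]
  have e2 : {ω : ℤ × ℤ → Fin 3 | ∃ x : ℤ, Exits ω (slab j) ((0, 1), Dir.N)
      ((x, (j : ℤ) + 1), Dir.N)} =
      ⋃ x : ℤ, {ω | Exits ω (slab j) ((0, 1), Dir.N) ((x, (j : ℤ) + 1), Dir.N)} := by
    ext ω; simp
  have d1 : Pairwise (Function.onFun Disjoint fun y : ℤ =>
      {ω : ℤ × ℤ → Fin 3 | Exits ω (slab j) ((y, 1), Dir.N) ((x, (j : ℤ) + 1), Dir.N)}) := by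
    intro y y' hy
    refine Set.disjoint_left.2 ?_
    intro ω h2 h3
    exact hy (second_inj h2 h3)
  have d2 : Pairwise (Function.onFun Disjoint fun x : ℤ =>
      {ω : ℤ × ℤ → Fin 3 | Exits ω (slab j) ((0, 1), Dir.N) ((x, (j : ℤ) + 1), Dir.N)}) := by
    intro y y' hy
    refine Set.disjoint_left.2 ?_
    intro ω h2 h3
    have := Exits.unique h2 h3
    simp only [Prod.mk.injEq] at this
    exact hy this.1.1
  have e3 : ∀ y : ℤ, mir p {ω | Exits ω (slab j) ((y, 1), Dir.N) ((x, (j : ℤ) + 1), Dir.N)} =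
      mir p {ω | Exits ω (slab j) ((0, 1), Dir.N) ((x - y, (j : ℤ) + 1), Dir.N)} := by
    intro y
    have hpre : {ω : ℤ × ℤ → Fin 3 | Exits ω (slab j) ((y, 1), Dir.N)
        ((x, (j : ℤ) + 1), Dir.N)} = tr (-y, 0) ⁻¹'
        {ω | Exits ω (slab j) ((0, 1), Dir.N) ((x - y, (j : ℤ) + 1), Dir.N)} := by
      ext ω
      have := second_tr_exits j ω x y (-y)
      rw [add_neg_cancel, ← sub_eq_add_neg] at this
      exact this.symm
    rw [hpre]
    exact (tr_preserving h0 h1 (-y, 0)).measure_preimage (meas_exits _ _ _).nullMeasurableSet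
  rw [T, Measure.real, Measure.real, e1, e2, measure_iUnion d1 (fun y => meas_exits _ _ _),
    measure_iUnion d2 (fun y => meas_exits _ _ _)]
  congr 1
  rw [tsum_congr e3]
  exact (Equiv.subLeft x).tsum_eq
    (fun z : ℤ => mir p {ω | Exits ω (slab j) ((0, 1), Dir.N) ((z, (j : ℤ) + 1), Dir.N)})

/-- second moment inequality for finitely many events -/
private theorem second_jensen {Ω : Type*} [MeasurableSpace Ω] (μ : Measure Ω)
    [IsProbabilityMeasure μ] (N : ℕ) (E : ℕ → Set Ω) (hE : ∀ i, MeasurableSet (E i)) :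
    (∑ i ∈ Finset.range N, μ.real (E i)) ^ 2 ≤
      ∑ i ∈ Finset.range N, ∑ k ∈ Finset.range N, μ.real (E i ∩ E k) := by
  set f : ℕ → Ω → ℝ := fun i => (E i).indicator 1 with hf
  have hfi : ∀ i, Integrable (f i) μ := fun i =>
    (integrable_const (1 : ℝ)).indicator (hE i)
  have hff : ∀ i k, (fun ω => f i ω * f k ω) = (E i ∩ E k).indicator 1 := by
    intro i k
    funext ω
    simp only [hf, Set.indicator_apply, Pi.one_apply, Set.mem_inter_iff]
    by_cases h1 : ω ∈ E i <;> by_cases h2 : ω ∈ E k <;> simp [h1, h2]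
  have hffi : ∀ i k, Integrable (fun ω => f i ω * f k ω) μ := by
    intro i k
    rw [hff]
    exact (integrable_const (1 : ℝ)).indicator ((hE i).inter (hE k))
  set Z : Ω → ℝ := fun ω => ∑ i ∈ Finset.range N, f i ω with hZ
  set c : ℝ := ∑ i ∈ Finset.range N, μ.real (E i) with hc
  have hZi : Integrable Z μ := integrable_finsetSum _ fun i _ => hfi i
  have hZint : ∫ ω, Z ω ∂μ = c := by
    rw [hZ, integral_finsetSum _ fun i _ => hfi i]
    refine Finset.sum_congr rfl fun i _ => ?_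
    exact integral_indicator_one (hE i)
  have hZ2 : (fun ω => Z ω ^ 2) = fun ω =>
      ∑ i ∈ Finset.range N, ∑ k ∈ Finset.range N, f i ω * f k ω := by
    funext ω
    rw [hZ, sq, Finset.sum_mul_sum]
  have hZ2i : Integrable (fun ω => Z ω ^ 2) μ := by
    rw [hZ2]
    exact integrable_finsetSum _ fun i _ => integrable_finsetSum _ fun k _ => hffi i k
  have hZ2int : ∫ ω, Z ω ^ 2 ∂μ =
      ∑ i ∈ Finset.range N, ∑ k ∈ Finset.range N, μ.real (E i ∩ E k) := by
    rw [hZ2, integral_finsetSum _ fun i _ => integrable_finsetSum _ fun k _ => hffi i k]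
    refine Finset.sum_congr rfl fun i _ => ?_
    rw [integral_finsetSum _ fun k _ => hffi i k]
    refine Finset.sum_congr rfl fun k _ => ?_
    rw [hff]
    exact integral_indicator_one ((hE i).inter (hE k))
  have hpos : 0 ≤ ∫ ω, (Z ω - c) ^ 2 ∂μ := integral_nonneg fun ω => sq_nonneg _
  have hexp : (fun ω => (Z ω - c) ^ 2) = fun ω => Z ω ^ 2 - 2 * c * Z ω + c ^ 2 := by
    funext ω; ring
  have hi1 : Integrable (fun ω => 2 * c * Z ω) μ := hZi.const_mul _
  have hi2 : Integrable (fun ω => Z ω ^ 2 - 2 * c * Z ω) μ := hZ2i.sub hi1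
  have e1 : ∫ ω, (Z ω ^ 2 - 2 * c * Z ω + c ^ 2) ∂μ =
      ∫ ω, (Z ω ^ 2 - 2 * c * Z ω) ∂μ + ∫ _ω, c ^ 2 ∂μ := integral_add hi2 (integrable_const _)
  have e2 : ∫ ω, (Z ω ^ 2 - 2 * c * Z ω) ∂μ = ∫ ω, Z ω ^ 2 ∂μ - ∫ ω, 2 * c * Z ω ∂μ :=
    integral_sub hZ2i hi1
  rw [hexp, e1, e2, integral_const_mul, hZint, hZ2int] at hpos
  simp only [integral_const, probReal_univ, smul_eq_mul, one_mul] at hpos
  nlinarith

/-- double sum of a function of the distance -/
private theorem second_sum (f : ℕ → ℕ → ℝ) (g : ℕ → ℝ) (hs : ∀ i k, f i k = f k i)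
    (hg : ∀ i d, f i (i + d) = g d) (N : ℕ) :
    ∑ i ∈ Finset.range N, ∑ k ∈ Finset.range N, f i k =
      N * g 0 + 2 * ∑ d ∈ Finset.Ico 1 N, ((N : ℝ) - d) * g d := by
  induction N with
  | zero => simp
  | succ N ih =>
    have h1 : ∑ i ∈ Finset.range (N + 1), ∑ k ∈ Finset.range (N + 1), f i k =
        (∑ i ∈ Finset.range N, ∑ k ∈ Finset.range N, f i k) +
          2 * (∑ i ∈ Finset.range N, f i N) + f N N := by
      rw [Finset.sum_range_succ]
      simp only [Finset.sum_range_succ, Finset.sum_add_distrib]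
      have : ∑ k ∈ Finset.range N, f N k = ∑ i ∈ Finset.range N, f i N :=
        Finset.sum_congr rfl fun k _ => hs N k
      rw [this]; ring
    have h2 : ∑ i ∈ Finset.range N, f i N = ∑ d ∈ Finset.Ico 1 (N + 1), g d := by
      rw [Finset.sum_Ico_eq_sum_range, Nat.add_sub_cancel, ← Finset.sum_range_reflect]
      refine Finset.sum_congr rfl fun i hi => ?_
      have hi' := Finset.mem_range.1 hi
      have h3 := hg (N - 1 - i) (1 + i)
      rw [← h3]
      congr 1
      omega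
    have h3 : f N N = g 0 := by simpa using hg N 0
    have h4 : ∑ d ∈ Finset.Ico 1 (N + 1), (((N + 1 : ℕ) : ℝ) - d) * g d =
        ∑ d ∈ Finset.Ico 1 N, ((N : ℝ) - d) * g d + ∑ d ∈ Finset.Ico 1 (N + 1), g d := by
      have h5 : ∑ d ∈ Finset.Ico 1 (N + 1), ((N : ℝ) - d) * g d =
          ∑ d ∈ Finset.Ico 1 N, ((N : ℝ) - d) * g d := by
        rcases Nat.eq_zero_or_pos N with h | h
        · subst h; simp
        · rw [Finset.sum_Ico_succ_top (by omega)]
          simp
      rw [← h5, ← Finset.sum_add_distrib]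
      refine Finset.sum_congr rfl fun d _ => ?_
      push_cast
      ring
    rw [h1, h2, h3, h4, ih]
    push_cast
    ring

theorem second : Stmt_second := by
  intro p h0 h1 j N
  have hP := mir_isProb h0 h1
  have hJ := second_jensen (mir p) N (fun i : ℕ => {ω | Thru ω j (i : ℤ)})
    fun i => meas_thru j _
  have e1 : ∑ i ∈ Finset.range N, (mir p).real {ω | Thru ω j (i : ℤ)} = N * T p j := by
    have : ∀ i ∈ Finset.range N, (mir p).real {ω | Thru ω j (i : ℤ)} = T p j :=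
      fun i _ => second_one h0 h1 j (i : ℤ)
    rw [Finset.sum_congr rfl this]
    simp
  have e2 := second_sum
    (fun i k => (mir p).real ({ω | Thru ω j (i : ℤ)} ∩ {ω | Thru ω j (k : ℤ)}))
    (fun d => aa p j (d : ℤ)) (fun i k => by simp only [Set.inter_comm])
    (fun i d => by
      rw [second_pair h0 h1]
      congr 1
      push_cast
      ring) N
  have e3 : aa p j ((0 : ℕ) : ℤ) = T p j := by
    have h2 := second_pair h0 h1 j 0 0
    rw [Set.inter_self, second_one h0 h1] at h2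
    simpa using h2.symm
  rw [e3] at e2
  rw [e1, e2] at hJ
  linarith

end Mir
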