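import Pool.Agent.Mir.Stmts

/-!
Module E1: the recursive inequality for the transmission probabilities.
-/

open MeasureTheory

noncomputable section

namespace Mir

private theorem star_slab_subset (j m : ℕ) : slab (j : ℤ) ⊆ slab ((j + m : ℕ) : ℤ) := by
  rintro ⟨x, y⟩ ⟨h1, h2⟩
  refine ⟨h1, ?_⟩
  simp only at h2 ⊢
  push_cast
  have : (0 : ℤ) ≤ m := Int.natCast_nonneg m
  linarith

/-- rows `j+1, ..., j+m` -/
private def star_rows (j m : ℕ) : Set (ℤ × ℤ) := {v | (j : ℤ) + 1 ≤ v.2 ∧ v.2 ≤ (j : ℤ) + m}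

private theorem star_rows_subset (j m : ℕ) : star_rows j m ⊆ slab ((j + m : ℕ) : ℤ) := by
  rintro ⟨x, y⟩ ⟨h1, h2⟩
  simp only at h1 h2
  refine ⟨?_, ?_⟩
  · simp only
    have : (0 : ℤ) ≤ j := Int.natCast_nonneg j
    linarith
  · simp only
    push_cast
    linarith

private theorem star_disj (j m : ℕ) : Disjoint (slab (j : ℤ)) (star_rows j m) := by
  refine Set.disjoint_left.2 ?_
  rintro ⟨x, y⟩ ⟨_, h2⟩ ⟨h3, _⟩
  simp only at h2 h3
  linarith

/-- an exit state outside the region is reached at once -/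
private theorem star_exits_self {ω : ℤ × ℤ → Fin 3} {G : Set (ℤ × ℤ)} {s : (ℤ × ℤ) × Dir}
    (h : s.1 ∉ G) : Exits ω G s s := ⟨0, rfl, h, fun i hi => absurd hi (by omega)⟩

/-- the exit states of the rows `1..j` -/
private theorem star_exit (ω : ℤ × ℤ → Fin 3) (j : ℕ) (x : ℤ) (t : (ℤ × ℤ) × Dir)
    (h : Exits ω (slab j) ((x, 1), Dir.N) t) :
    (∃ x' : ℤ, t = ((x', (j : ℤ) + 1), Dir.N)) ∨ (∃ x' : ℤ, t = ((x', 0), Dir.S)) := by
  rcases Nat.eq_zero_or_pos j with hj | hj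
  · subst hj
    have h0 : ((x, 1), Dir.N).1 ∉ slab ((0 : ℕ) : ℤ) := by
      rintro ⟨_, h2⟩
      simp at h2
    have := h.unique (star_exits_self h0)
    left
    exact ⟨x, by rw [this]; simp⟩
  · have hs : ((x, 1), Dir.N).1 ∈ slab (j : ℤ) := by
      refine ⟨le_rfl, ?_⟩
      simp only
      exact_mod_cast hj
    have h1 := h.prev hs
    have h2 : t.1 ∉ slab (j : ℤ) := by
      obtain ⟨n, _, h2, _⟩ := h
      exact h2
    obtain ⟨⟨a, b⟩, d⟩ := t
    simp only [slab, Set.mem_setOf_eq] at h1 h2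
    cases d
    · left
      refine ⟨a, ?_⟩
      simp only [vec, Prod.mk_sub_mk, Prod.mk.injEq, and_true, true_and] at h1 ⊢
      by_contra hne
      apply h2
      constructor
      · linarith
      · rcases h1 with ⟨h1, h3⟩
        omega
    · exfalso
      simp only [vec, Prod.mk_sub_mk] at h1
      exact h2 ⟨by linarith, by linarith⟩
    · right
      refine ⟨a, ?_⟩
      simp only [vec, Prod.mk_sub_mk, Prod.mk.injEq, and_true, true_and] at h1 ⊢
      by_contra hne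
      apply h2
      rcases h1 with ⟨h1, h3⟩
      constructor <;> omega
    · exfalso
      simp only [vec, Prod.mk_sub_mk] at h1
      exact h2 ⟨by linarith, by linarith⟩

/-- a passage of the rows `1..j` backwards -/
private theorem star_back {ω : ℤ × ℤ → Fin 3} {j : ℕ} {x : ℤ} (h : Thru ω j x) :
    ∃ y : ℤ, Exits ω (slab j) ((x, (j : ℤ)), Dir.S) ((y, 0), Dir.S) := by
  obtain ⟨y, h⟩ := h
  rcases Nat.eq_zero_or_pos j with hj | hj
  · subst hj
    refine ⟨x, ?_⟩
    have h0 : (((x, ((0 : ℕ) : ℤ)), Dir.S) : (ℤ × ℤ) × Dir).1 ∉ slab ((0 : ℕ) : ℤ) := by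
      rintro ⟨h1, _⟩
      simp at h1
    simpa using star_exits_self (ω := ω) h0
  · refine ⟨y, ?_⟩
    have hs : Enters (slab (j : ℤ)) ((y, 1), Dir.N) := by
      refine ⟨⟨le_rfl, ?_⟩, ?_⟩
      · simp only
        exact_mod_cast hj
      · rintro ⟨h1, _⟩
        simp [vec] at h1
    have := h.reverse hs
    simpa [rev, vec, Dir.opp] using this

/-- two rays entering the rows `1..j` from below do not leave in the same state -/
private theorem star_inj {ω : ℤ × ℤ → Fin 3} {j : ℕ} {y y' x : ℤ}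
    (h : Exits ω (slab j) ((y, 1), Dir.N) ((x, (j : ℤ) + 1), Dir.N))
    (h' : Exits ω (slab j) ((y', 1), Dir.N) ((x, (j : ℤ) + 1), Dir.N)) : y = y' := by
  rcases Nat.eq_zero_or_pos j with hj | hj
  · subst hj
    have aux : ∀ z : ℤ, Exits ω (slab ((0 : ℕ) : ℤ)) ((z, 1), Dir.N)
        ((x, ((0 : ℕ) : ℤ) + 1), Dir.N) → z = x := by
      intro z hz
      have h0 : (((z, 1), Dir.N) : (ℤ × ℤ) × Dir).1 ∉ slab ((0 : ℕ) : ℤ) := by
        rintro ⟨_, h2⟩
        simp at h2
      have := hz.unique (star_exits_self h0)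
      simp only [Prod.mk.injEq] at this
      exact this.1.1.symm
    rw [aux y h, aux y' h']
  · have hs : ∀ z : ℤ, Enters (slab (j : ℤ)) ((z, 1), Dir.N) := by
      intro z
      refine ⟨⟨le_rfl, ?_⟩, ?_⟩
      · simp only
        exact_mod_cast hj
      · rintro ⟨h1, _⟩
        simp [vec] at h1
    have h1 := h.reverse (hs y)
    have h2 := h'.reverse (hs y')
    have h3 := h1.unique h2
    have h4 := rev_inj h3
    simp only [Prod.mk.injEq] at h4
    exact h4.1.1

/-- first part of the event `Z` -/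
private def star_F (j : ℕ) (d x : ℤ) : Set (ℤ × ℤ → Fin 3) :=
  {ω | Exits ω (slab j) ((0, 1), Dir.N) ((x, (j : ℤ) + 1), Dir.N) ∧ Thru ω j (x + d)}

/-- the translated event -/
private def star_F' (j : ℕ) (d x : ℤ) : Set (ℤ × ℤ → Fin 3) :=
  {ω | Exits ω (slab j) ((-x, 1), Dir.N) ((0, (j : ℤ) + 1), Dir.N) ∧ Thru ω j d}

/-- second part of the event `Z` -/
private def star_H (j m : ℕ) (d x : ℤ) : Set (ℤ × ℤ → Fin 3) :=
  {ω | Exits ω (star_rows j m) ((x, (j : ℤ) + 1), Dir.N) ((x + d, (j : ℤ)), Dir.S)}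

private theorem star_F_meas (j : ℕ) (d x : ℤ) : MeasurableSet (star_F j d x) :=
  (meas_exits _ _ _).inter (meas_thru _ _)

private theorem star_F'_meas (j : ℕ) (d x : ℤ) : MeasurableSet (star_F' j d x) :=
  (meas_exits _ _ _).inter (meas_thru _ _)

private theorem star_H_meas (j m : ℕ) (d x : ℤ) : MeasurableSet (star_H j m d x) :=
  meas_exits _ _ _

private theorem star_F_dep (j : ℕ) (d x : ℤ) : DepOn (star_F j d x) (slab j) := by
  rintro ω ω' h ⟨h1, h2⟩
  exact ⟨(exits_congr h).1 h1, dep_thru j _ ω ω' h h2⟩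

private theorem star_H_dep (j m : ℕ) (d x : ℤ) : DepOn (star_H j m d x) (star_rows j m) :=
  dep_exits _ _ _

/-- translation of the first part -/
private theorem star_F_tr {p : ℝ} (h0 : 0 ≤ p) (h1 : p ≤ 1) (j : ℕ) (d x : ℤ) :
    mir p (star_F j d x) = mir p (star_F' j d x) := by
  have hpre : star_F j d x = tr (-x, 0) ⁻¹' star_F' j d x := by
    ext ω
    have hG : ∀ v : ℤ × ℤ, v + (-x, 0) ∈ slab (j : ℤ) ↔ v ∈ slab (j : ℤ) := by
      rintro ⟨a, b⟩
      simp [slab]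
    have e1 : Exits (tr (-x, 0) ω) (slab j) ((-x, 1), Dir.N) ((0, (j : ℤ) + 1), Dir.N) ↔
        Exits ω (slab j) ((0, 1), Dir.N) ((x, (j : ℤ) + 1), Dir.N) := by
      have := exits_tr (-x, 0) ω hG ((0, 1), Dir.N) ((x, (j : ℤ) + 1), Dir.N)
      simpa [trS] using this
    have e2 : Thru (tr (-x, 0) ω) j d ↔ Thru ω j (x + d) := by
      constructor
      · rintro ⟨y, h⟩
        refine ⟨y + x, ?_⟩
        have := exits_tr (-x, 0) ω hG ((y + x, 1), Dir.N) ((x + d, (j : ℤ) + 1), Dir.N)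
        simp only [trS, Prod.mk_add_mk, add_zero, add_neg_cancel_right] at this
        rw [show x + d + -x = d by ring] at this
        exact this.1 h
      · rintro ⟨y, h⟩
        refine ⟨y - x, ?_⟩
        have := exits_tr (-x, 0) ω hG ((y, 1), Dir.N) ((x + d, (j : ℤ) + 1), Dir.N)
        simp only [trS, Prod.mk_add_mk, add_zero] at this
        rw [show x + d + -x = d by ring, show y + -x = y - x by ring] at this
        exact this.2 h
    simp only [star_F, star_F', Set.mem_setOf_eq, Set.mem_preimage, e1, e2]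
  rw [hpre]
  exact (tr_preserving h0 h1 (-x, 0)).measure_preimage (star_F'_meas j d x).nullMeasurableSet

/-- translation of the second part -/
private theorem star_H_tr {p : ℝ} (h0 : 0 ≤ p) (h1 : p ≤ 1) (j m : ℕ) (d x : ℤ) :
    mir p (star_H j m d x) =
      mir p {ω | Exits ω (slab m) ((0, 1), Dir.N) ((d, 0), Dir.S)} := by
  have hpre : {ω : ℤ × ℤ → Fin 3 | Exits ω (slab m) ((0, 1), Dir.N) ((d, 0), Dir.S)} =
      tr (x, (j : ℤ)) ⁻¹' star_H j m d x := by
    ext ω
    have hG : ∀ v : ℤ × ℤ, v + (x, (j : ℤ)) ∈ star_rows j m ↔ v ∈ slab (m : ℤ) := by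
      rintro ⟨a, b⟩
      simp only [slab, star_rows, Prod.mk_add_mk, Set.mem_setOf_eq]
      constructor
      · rintro ⟨h1, h2⟩; constructor <;> linarith
      · rintro ⟨h1, h2⟩; constructor <;> linarith
    have e1 := exits_tr (x, (j : ℤ)) ω hG ((0, 1), Dir.N) ((d, 0), Dir.S)
    simp only [trS, Prod.mk_add_mk, zero_add] at e1
    rw [show (1 : ℤ) + j = j + 1 by ring, show d + x = x + d by ring] at e1
    simp only [star_H, Set.mem_setOf_eq, Set.mem_preimage]
    exact e1.symm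
  rw [hpre]
  exact ((tr_preserving h0 h1 (x, (j : ℤ))).measure_preimage
    (star_H_meas j m d x).nullMeasurableSet).symm

/-- the events `Z` -/
private def star_Z (j m : ℕ) (d x : ℤ) : Set (ℤ × ℤ → Fin 3) := star_F j d x ∩ star_H j m d x

private theorem star_Z_meas (j m : ℕ) (d x : ℤ) : MeasurableSet (star_Z j m d x) :=
  (star_F_meas j d x).inter (star_H_meas j m d x)

private theorem star_Z_disj (j m : ℕ) (d : ℤ) :
    Pairwise (Function.onFun Disjoint fun x => star_Z j m d x) := by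
  intro x x' hx
  refine Set.disjoint_left.2 ?_
  rintro ω ⟨⟨h1, _⟩, _⟩ ⟨⟨h2, _⟩, _⟩
  have := h1.unique h2
  simp only [Prod.mk.injEq] at this
  exact hx this.1.1

private theorem star_W (p : ℝ) (h0 : 0 ≤ p) (h1 : p ≤ 1) (j m : ℕ) (d : ℤ) :
    mir p (⋃ x, star_Z j m d x) = mir p {ω | Thru ω j 0 ∧ Thru ω j d} *
      mir p {ω | Exits ω (slab m) ((0, 1), Dir.N) ((d, 0), Dir.S)} := by
  have e1 : {ω : ℤ × ℤ → Fin 3 | Thru ω j 0 ∧ Thru ω j d} = ⋃ x, star_F' j d x := by
    ext ω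
    simp only [Set.mem_setOf_eq, Set.mem_iUnion, star_F']
    constructor
    · rintro ⟨⟨y, h⟩, h'⟩
      exact ⟨-y, by simpa using h, h'⟩
    · rintro ⟨x, h, h'⟩
      exact ⟨⟨-x, h⟩, h'⟩
  have hd : Pairwise (Function.onFun Disjoint fun x => star_F' j d x) := by
    intro x x' hx
    refine Set.disjoint_left.2 ?_
    rintro ω ⟨h1, _⟩ ⟨h2, _⟩
    exact hx (neg_injective (star_inj h1 h2))
  rw [measure_iUnion (star_Z_disj j m d) (star_Z_meas j m d), e1,
    measure_iUnion hd (star_F'_meas j d), ← ENNReal.tsum_mul_right]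
  refine tsum_congr fun x => ?_
  rw [star_Z, ← star_F_tr h0 h1, ← star_H_tr h0 h1 j m d x]
  exact indep_mul h0 h1 (star_disj j m) (star_F_meas j d x) (star_H_meas j m d x)
    (star_F_dep j d x) (star_H_dep j m d x)

theorem star : Stmt_star := by
  intro p h0 h1 j m N
  have hP := mir_isProb h0 h1
  set A : Set (ℤ × ℤ → Fin 3) :=
    {ω | ∃ x : ℤ, Exits ω (slab j) ((0, 1), Dir.N) ((x, (j : ℤ) + 1), Dir.N)} with hA
  set B : Set (ℤ × ℤ → Fin 3) :=
    {ω | ∃ x : ℤ, Exits ω (slab ((j + m : ℕ) : ℤ)) ((0, 1), Dir.N)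
      ((x, ((j + m : ℕ) : ℤ) + 1), Dir.N)} with hB
  have hBm : MeasurableSet B := by
    have : B = ⋃ x : ℤ, {ω | Exits ω (slab ((j + m : ℕ) : ℤ)) ((0, 1), Dir.N)
      ((x, ((j + m : ℕ) : ℤ) + 1), Dir.N)} := by
      ext ω; simp [hB]
    rw [this]
    exact MeasurableSet.iUnion fun x => meas_exits _ _ _
  have hBA : B ⊆ A := by
    rintro ω ⟨x, h⟩
    obtain ⟨t, h1, h2⟩ := h.split (star_slab_subset j m)
    rcases star_exit ω j 0 t h1 with ⟨x', rfl⟩ | ⟨x', rfl⟩
    · exact ⟨x', h1⟩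
    · exfalso
      have h3 : (((x', 0), Dir.S) : (ℤ × ℤ) × Dir).1 ∉ slab ((j + m : ℕ) : ℤ) := by
        rintro ⟨h4, _⟩
        simp at h4
      have := h2.unique (star_exits_self h3)
      simp at this
  have hsub : ∀ d ∈ Finset.Ico 1 N, (⋃ x, star_Z j m (d : ℤ) x) ⊆ A \ B := by
    intro d _ ω hω
    obtain ⟨x, ⟨h1, h2⟩, h3⟩ := Set.mem_iUnion.1 hω
    refine ⟨⟨x, h1⟩, ?_⟩
    rintro ⟨x', h4⟩
    obtain ⟨y, h5⟩ := star_back h2
    have h6 : (((y, 0), Dir.S) : (ℤ × ℤ) × Dir).1 ∉ slab ((j + m : ℕ) : ℤ) := by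
      rintro ⟨h7, _⟩
      simp at h7
    have h7 := h5.trans (star_slab_subset j m) (star_exits_self h6)
    have h8 := Exits.trans h3 (star_rows_subset j m) h7
    have h9 := h1.trans (star_slab_subset j m) h8
    have := h9.unique h4
    simp at this
  have hdis : Set.PairwiseDisjoint (↑(Finset.Ico 1 N)) fun d : ℕ =>
      ⋃ x, star_Z j m (d : ℤ) x := by
    intro d _ d' _ hd
    refine Set.disjoint_left.2 ?_
    intro ω h1 h2
    obtain ⟨x, ⟨h1, _⟩, h3⟩ := Set.mem_iUnion.1 h1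
    obtain ⟨x', ⟨h1', _⟩, h3'⟩ := Set.mem_iUnion.1 h2
    have e1 := h1.unique h1'
    simp only [Prod.mk.injEq] at e1
    obtain ⟨⟨rfl, _⟩, _⟩ := e1
    have e2 := Exits.unique h3 h3'
    simp only [Prod.mk.injEq, add_right_inj, Nat.cast_inj] at e2
    exact hd e2.1.1
  have hreal : ∀ d : ℕ, aa p j (d : ℤ) * R p m (d : ℤ) =
      (mir p).real (⋃ x, star_Z j m (d : ℤ) x) := by
    intro d
    rw [aa, R, Measure.real, Measure.real, Measure.real, star_W p h0 h1, ENNReal.toReal_mul]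
  have hm : ∀ d ∈ Finset.Ico 1 N, MeasurableSet (⋃ x, star_Z j m (d : ℤ) x) := fun d _ =>
    MeasurableSet.iUnion fun x => star_Z_meas j m _ x
  calc ∑ d ∈ Finset.Ico 1 N, aa p j (d : ℤ) * R p m (d : ℤ)
      = ∑ d ∈ Finset.Ico 1 N, (mir p).real (⋃ x, star_Z j m (d : ℤ) x) :=
        Finset.sum_congr rfl fun d _ => hreal d
    _ = (mir p).real (⋃ d ∈ Finset.Ico 1 N, ⋃ x, star_Z j m (d : ℤ) x) :=
        (measureReal_biUnion_finset hdis hm).symm
    _ ≤ (mir p).real (A \ B) := measureReal_mono (Set.iUnion₂_subset hsub)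
    _ = (mir p).real A - (mir p).real B := measureReal_diff hBA hBm
    _ = T p j - T p (j + m) := rfl

end Mir
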