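import Pool.Agent.Mir.Prob

/-!
# Frozen statements of the modules (paper: MIR_paper.md in the team store)

Each module proves one `Stmt_...` from other `Stmt_...`.  Base lemmas: `Det.lean`, `Prob.lean`.
-/

open MeasureTheory

noncomputable section

namespace Mir

/-! ### A. Parity (Kozma-Sidoravicius) -/

/-- A1: on a cylinder of odd circumference some ray entering from below leaves through the top -/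
def Stmt_par : Prop := ∀ (w h : ℕ), Odd w → ∀ ω : ZMod w × ℤ → Fin 3,
  ∃ x : ZMod w, ∃ t, Exits ω {v | 1 ≤ v.2 ∧ v.2 ≤ (h : ℤ)} ((x, 1), Dir.N) t ∧ t.1.2 = (h : ℤ) + 1

/-- A2: cylinder, probability -/
def Stmt_cyl : Prop := ∀ (p : ℝ), 0 ≤ p → p ≤ 1 → ∀ (w h : ℕ), Odd w → ∀ x : ZMod w,
  1 / (w : ℝ) ≤ (mirOn (ZMod w × ℤ) p).real
    {ω | ∃ t, Exits ω {v | 1 ≤ v.2 ∧ v.2 ≤ (h : ℤ)} ((x, 1), Dir.N) t ∧ t.1.2 = (h : ℤ) + 1}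

/-- A3: box of odd width `w`, any entry column -/
def Stmt_ks : Prop := ∀ (p : ℝ), 0 ≤ p → p ≤ 1 → ∀ (a x : ℤ) (w h : ℕ), Odd w →
  a ≤ x → x ≤ a + w - 1 →
  1 / (w : ℝ) ≤ (mir p).real
    {ω | ∃ t, Exits ω (box a (a + w - 1) 1 h) ((x, 1), Dir.N) t ∧ t.1.2 ≠ 0}

/-- A4: box of odd height `m`, entry from the left side -/
def Stmt_ksr : Prop := ∀ (p : ℝ), 0 ≤ p → p ≤ 1 → ∀ (a y : ℤ) (m W : ℕ), Odd m →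
  1 ≤ y → y ≤ m →
  1 / (m : ℝ) ≤ (mir p).real
    {ω | ∃ t, Exits ω (box a (a + W - 1) 1 m) ((a, y), Dir.E) t ∧ t.1.1 ≠ a - 1}

/-! ### B. Gluing -/

/-- the ray from `s₂` meets, before time `L`, the trace of the ray from `s₁`, both inside `G` -/
def Meet (G : Set (ℤ × ℤ)) (s₁ s₂ : (ℤ × ℤ) × Dir) (L : ℕ) (ω : ℤ × ℤ → Fin 3) : Prop :=
  ∃ i < L, ∃ j, (ray ω s₂ i).1 = (ray ω s₁ j).1 ∧ (∀ i' ≤ i, (ray ω s₂ i').1 ∈ G) ∧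
    ∀ j' ≤ j, (ray ω s₁ j').1 ∈ G

/-- B1: deterministic surgery at the first meeting vertex -/
def Stmt_surgdet : Prop := ∀ (G : Set (ℤ × ℤ)) (s₁ s₂ : (ℤ × ℤ) × Dir) (L : ℕ)
  (ω : ℤ × ℤ → Fin 3), Enters G s₁ → Enters G s₂ → s₁ ≠ s₂ → Meet G s₁ s₂ L ω →
  ∃ i < L, ∃ a : Fin 3,
    ray (Function.update ω (ray ω s₂ i).1 a) s₂ i = ray ω s₂ i ∧
    Exits (Function.update ω (ray ω s₂ i).1 a) G s₂ (rev s₁)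

/-- B2: surgery, probability -/
def Stmt_surg : Prop := ∀ (p : ℝ), 0 ≤ p → p ≤ 1 → ∀ (G : Set (ℤ × ℤ))
  (s₁ s₂ : (ℤ × ℤ) × Dir) (L : ℕ), Enters G s₁ → Enters G s₂ → s₁ ≠ s₂ →
  wm p * (mir p).real {ω | Meet G s₁ s₂ L ω} ≤ L * (mir p).real {ω | Exits ω G s₂ (rev s₁)}

/-- B3: two rays that are forced to meet -/
def Stmt_meet : Prop := ∀ (p : ℝ), 0 ≤ p → p ≤ 1 → ∀ (G : Set (ℤ × ℤ))
  (s₁ s₂ : (ℤ × ℤ) × Dir) (X Y : (ℤ × ℤ → Fin 3) → ℕ → Prop) (L : ℕ),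
  (∀ ω ω' n, X ω n → (∀ i < n, ω (ray ω s₁ i).1 = ω' (ray ω s₁ i).1) → X ω' n) →
  (∀ ω n n', X ω n → X ω n' → n = n') →
  (∀ ω n, X ω n → ∀ i < n, (ray ω s₁ i).1 ∈ G) →
  (∀ ω n, Y ω n → n ≤ L ∧ ∀ i < n, (ray ω s₂ i).1 ∈ G) →
  (∀ ω₁ ω₂ n₁ n₂, X ω₁ n₁ → Y ω₂ n₂ →
    ∃ i < n₂, ∃ j < n₁, (ray ω₂ s₂ i).1 = (ray ω₁ s₁ j).1) →
  (mir p).real {ω | ∃ n, X ω n} * (mir p).real {ω | ∃ n, Y ω n}
    ≤ (mir p).real {ω | Meet G s₁ s₂ L ω}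

/-! ### C. Planarity -/

/-- nearest neighbours -/
def Nb (u v : ℤ × ℤ) : Prop :=
  (v.1 = u.1 + 1 ∧ v.2 = u.2) ∨ (v.1 = u.1 - 1 ∧ v.2 = u.2) ∨
    (v.1 = u.1 ∧ v.2 = u.2 + 1) ∨ (v.1 = u.1 ∧ v.2 = u.2 - 1)

/-- C1: a left-right and a bottom-top lattice path in a rectangle share a vertex -/
def Stmt_plane : Prop := ∀ (a b c d : ℤ) (m n : ℕ) (P Q : ℕ → ℤ × ℤ),
  (∀ i < m, Nb (P i) (P (i + 1))) → (∀ j < n, Nb (Q j) (Q (j + 1))) →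
  (∀ i ≤ m, P i ∈ box a b c d) → (∀ j ≤ n, Q j ∈ box a b c d) →
  (P 0).1 = a → (P m).1 = b → (Q 0).2 = c → (Q n).2 = d →
  ∃ i ≤ m, ∃ j ≤ n, P i = Q j

/-- C2: crossing in a square -/
def Stmt_cross1 : Prop := ∀ (c : ℕ) (ω₁ ω₂ : ℤ × ℤ → Fin 3) (t₁ t₂ : (ℤ × ℤ) × Dir)
  (n₁ n₂ : ℕ),
  ExitsIn ω₁ (box (-c) c 1 (2 * c + 1)) ((-c, c + 1), Dir.E) t₁ n₁ → t₁.1.1 = c + 1 →
  ExitsIn ω₂ (box (-c) c 1 (2 * c + 1)) ((0, 1), Dir.N) t₂ n₂ → t₂.1.2 = 2 * c + 2 →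
  ∃ i < n₂, ∃ j < n₁, (ray ω₂ ((0, 1), Dir.N) i).1 = (ray ω₁ ((-c, c + 1), Dir.E) j).1

/-- C3: crossing in the strip -/
def Stmt_cross2 : Prop := ∀ (N d : ℕ) (ω₁ ω₂ : ℤ × ℤ → Fin 3) (t u t₂ : (ℤ × ℤ) × Dir)
  (m k n₂ : ℕ), 1 ≤ d → d < N →
  ExitsIn ω₁ (box (-N) N 1 (2 * N + 1)) ((0, 1), Dir.N) t m → t.1.1 = N + 1 →
  ExitsIn ω₁ (box (N + 1) (3 * N) 1 (4 * N + 1)) t u k → u.1.1 ≠ N →
  ExitsIn ω₂ (box (-N) (N + 2 * d) 1 (2 * (N + d) + 1)) ((d, 1), Dir.N) t₂ n₂ →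
  t₂.1.1 = -N - 1 →
  ∃ i < n₂, ∃ j < m + k, (ray ω₂ ((d, 1), Dir.N) i).1 = (ray ω₁ ((0, 1), Dir.N) j).1

/-! ### D. Lower bounds for passages -/

/-- D1: the ray from the bottom middle of a square leaves it through the left (right) side -/
def Stmt_lam : Prop := ∀ (p : ℝ), 0 < p → p < 1 → ∀ c : ℕ,
  wm p / (20 * (2 * (c : ℝ) + 1) ^ 4) ≤ (mir p).real
    {ω | ∃ t, Exits ω (box (-c) c 1 (2 * c + 1)) ((0, 1), Dir.N) t ∧ t.1.1 = -c - 1} ∧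
  wm p / (20 * (2 * (c : ℝ) + 1) ^ 4) ≤ (mir p).real
    {ω | ∃ t, Exits ω (box (-c) c 1 (2 * c + 1)) ((0, 1), Dir.N) t ∧ t.1.1 = c + 1}

/-- the event for the separating ray (time `n`) -/
def XR (N : ℕ) (ω : ℤ × ℤ → Fin 3) (n : ℕ) : Prop :=
  ∃ t m u k, ExitsIn ω (box (-N) N 1 (2 * N + 1)) ((0, 1), Dir.N) t m ∧ t.1.1 = N + 1 ∧
    ExitsIn ω (box (N + 1) (3 * N) 1 (4 * N + 1)) t u k ∧ u.1.1 ≠ N ∧ n = m + k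

/-- D2 -/
def Stmt_X : Prop := ∀ (p : ℝ), 0 < p → p < 1 → ∀ N : ℕ, 1 ≤ N →
  wm p / (20 * (2 * (N : ℝ) + 1) ^ 4) * (1 / (4 * (N : ℝ) + 1)) ≤
    (mir p).real {ω | ∃ n, XR N ω n}

/-- D3: the return probabilities are at least polynomial -/
def Stmt_R : Prop := ∀ (p : ℝ), 0 < p → p < 1 → ∃ κ : ℝ, 0 < κ ∧ ∀ N d : ℕ, 1 ≤ d → d < N →
  κ / (N : ℝ) ^ 11 ≤ R p (4 * N + 1) d

/-! ### E. The recursive inequality -/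

/-- E1 -/
def Stmt_star : Prop := ∀ (p : ℝ), 0 ≤ p → p ≤ 1 → ∀ j m N : ℕ,
  ∑ d ∈ Finset.Ico 1 N, aa p j (d : ℤ) * R p m (d : ℤ) ≤ T p j - T p (j + m)

/-- E2: second moment -/
def Stmt_second : Prop := ∀ (p : ℝ), 0 ≤ p → p ≤ 1 → ∀ j N : ℕ,
  (N * T p j) ^ 2 - N * T p j ≤ 2 * ∑ d ∈ Finset.Ico 1 N, ((N : ℝ) - d) * aa p j (d : ℤ)

/-- E3: polynomial decay -/
def Stmt_fin : Prop := ∀ (p : ℝ), 0 < p → p < 1 → ∃ C : ℝ, ∀ k : ℕ, 1 ≤ k →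
  T p k ≤ C * (k : ℝ) ^ (-(1 / 13 : ℝ))

/-- E4: the statement to be handed in -/
def Stmt_main : Prop := ∀ (p : ℝ), 0 < p → p < 1 → ∃ C : ℝ, ∀ k : ℕ, 1 ≤ k →
  (mir p).real {ω | ∃ n, (ray ω ((0, 1), Dir.N) n).1.2 = k ∧
    ∀ i ≤ n, 1 ≤ (ray ω ((0, 1), Dir.N) i).1.2} ≤ C * (k : ℝ) ^ (-(1 / 13 : ℝ))

end Mir
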