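import Pool.Agent.Mir.Stmts

/-!
B2: surgery, probability.
-/

open MeasureTheory

noncomputable section

namespace Mir

private theorem surg_resample {p : ℝ} (h0 : 0 ≤ p) (h1 : p ≤ 1) (v : ℤ × ℤ)
    {B : Set (ℤ × ℤ → Fin 3)} (hB : MeasurableSet B) :
    ENNReal.ofReal (wm p) * (mir p) {ω | ∃ a, Function.update ω v a ∈ B} ≤ (mir p) B := by
  have hP := mir_isProb h0 h1
  have h := resample h0 h1 v hB
  have hw : 0 ≤ wm p := le_min (by linarith) (by linarith)
  have h2 := ENNReal.ofReal_le_ofReal h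
  rw [ENNReal.ofReal_mul hw] at h2
  unfold mir at hP ⊢
  rwa [ofReal_measureReal, ofReal_measureReal] at h2

private theorem surg_one {p : ℝ} (h0 : 0 ≤ p) (h1 : p ≤ 1) (s₂ : (ℤ × ℤ) × Dir) (i : ℕ)
    (E : Set (ℤ × ℤ → Fin 3)) (hE : MeasurableSet E) :
    wm p * (mir p).real {ω | ∃ v : ℤ × ℤ, ∃ a, Function.update ω v a ∈ E ∧
      (ray (Function.update ω v a) s₂ i).1 = v} ≤ (mir p).real E := by
  have hP := mir_isProb h0 h1
  have hw : 0 ≤ wm p := le_min (by linarith) (by linarith)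
  set B : ℤ × ℤ → Set (ℤ × ℤ → Fin 3) := fun v => E ∩ {ω | (ray ω s₂ i).1 = v} with hB
  have hBm : ∀ v, MeasurableSet (B v) := fun v =>
    hE.inter (meas_ray_prop s₂ i fun u => u.1 = v)
  have hset : {ω : ℤ × ℤ → Fin 3 | ∃ v : ℤ × ℤ, ∃ a, Function.update ω v a ∈ E ∧
      (ray (Function.update ω v a) s₂ i).1 = v}
      = ⋃ v, {ω | ∃ a, Function.update ω v a ∈ B v} := by
    ext ω
    simp only [hB, Set.mem_setOf_eq, Set.mem_iUnion, Set.mem_inter_iff]
  have hdis : Pairwise (Function.onFun Disjoint B) := by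
    intro v v' hv
    refine Set.disjoint_left.2 ?_
    rintro ω ⟨_, g1⟩ ⟨_, g2⟩
    exact hv (g1.symm.trans g2)
  have hen : ENNReal.ofReal (wm p) * (mir p) {ω | ∃ v : ℤ × ℤ, ∃ a, Function.update ω v a ∈ E ∧
      (ray (Function.update ω v a) s₂ i).1 = v} ≤ (mir p) E := by
    rw [hset]
    calc ENNReal.ofReal (wm p) * (mir p) (⋃ v, {ω | ∃ a, Function.update ω v a ∈ B v})
        ≤ ENNReal.ofReal (wm p) * ∑' v, (mir p) {ω | ∃ a, Function.update ω v a ∈ B v} := by
          gcongr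
          exact measure_iUnion_le _
      _ = ∑' v, ENNReal.ofReal (wm p) * (mir p) {ω | ∃ a, Function.update ω v a ∈ B v} := by
          rw [ENNReal.tsum_mul_left]
      _ ≤ ∑' v, (mir p) (B v) := ENNReal.tsum_le_tsum fun v => surg_resample h0 h1 v (hBm v)
      _ = (mir p) (⋃ v, B v) := (measure_iUnion hdis hBm).symm
      _ ≤ (mir p) E := measure_mono (Set.iUnion_subset fun v => Set.inter_subset_left)
  have h2 := ENNReal.toReal_mono (measure_ne_top _ _) hen
  rwa [ENNReal.toReal_mul, ENNReal.toReal_ofReal hw] at h2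

theorem surg (hd : Stmt_surgdet) : Stmt_surg := by
  intro p h0 h1 G s₁ s₂ L hs₁ hs₂ hne
  have hP := mir_isProb h0 h1
  have hw : 0 ≤ wm p := le_min (by linarith) (by linarith)
  set E : Set (ℤ × ℤ → Fin 3) := {ω | Exits ω G s₂ (rev s₁)} with hE
  have hEm : MeasurableSet E := meas_exits G s₂ (rev s₁)
  set M : ℕ → Set (ℤ × ℤ → Fin 3) := fun i => {ω | ∃ v : ℤ × ℤ, ∃ a, Function.update ω v a ∈ E ∧
      (ray (Function.update ω v a) s₂ i).1 = v} with hM
  have hsub : {ω | Meet G s₁ s₂ L ω} ⊆ ⋃ i ∈ Finset.range L, M i := by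
    intro ω hω
    obtain ⟨i, hi, a, g1, g2⟩ := hd G s₁ s₂ L ω hs₁ hs₂ hne hω
    simp only [Set.mem_iUnion, Finset.mem_range]
    refine ⟨i, hi, (ray ω s₂ i).1, a, g2, ?_⟩
    rw [g1]
  calc wm p * (mir p).real {ω | Meet G s₁ s₂ L ω}
      ≤ wm p * ∑ i ∈ Finset.range L, (mir p).real (M i) := by
        refine mul_le_mul_of_nonneg_left ?_ hw
        exact (measureReal_mono hsub (measure_ne_top _ _)).trans
          (measureReal_biUnion_finset_le _ _)
    _ = ∑ i ∈ Finset.range L, wm p * (mir p).real (M i) := by rw [Finset.mul_sum]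
    _ ≤ ∑ _i ∈ Finset.range L, (mir p).real E :=
        Finset.sum_le_sum fun i _ => surg_one h0 h1 s₂ i E hEm
    _ = L * (mir p).real E := by simp

end Mir
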