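import Pool.Agent.Mir.Stmts

/-!
Deterministic surgery at the first meeting vertex (B1).
-/

noncomputable section

namespace Mir

theorem surgdet : Stmt_surgdet := by
  classical
  intro G s₁ s₂ L ω hE1 hE2 hne hmeet
  have hex : ∃ i, ∃ j, (ray ω s₂ i).1 = (ray ω s₁ j).1 ∧ ∀ j' ≤ j, (ray ω s₁ j').1 ∈ G := by
    obtain ⟨i, _, j, h1, _, h3⟩ := hmeet
    exact ⟨i, j, h1, h3⟩
  obtain ⟨i₀, hi₀L, j₀, h01, h02, h03⟩ := hmeet
  set i := Nat.find hex with hi
  have hile : i ≤ i₀ := Nat.find_min' hex ⟨j₀, h01, h03⟩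
  have hspec := Nat.find_spec hex
  rw [← hi] at hspec
  have hmin : ∀ i' < i, ¬ ∃ j, (ray ω s₂ i').1 = (ray ω s₁ j).1 ∧
      ∀ j' ≤ j, (ray ω s₁ j').1 ∈ G := fun i' h => Nat.find_min hex h
  obtain ⟨j, hj1, hj2, hj3⟩ : ∃ j, (ray ω s₂ i).1 = (ray ω s₁ j).1 ∧
      (∀ j' ≤ j, (ray ω s₁ j').1 ∈ G) ∧ ∀ j' < j, (ray ω s₂ i).1 ≠ (ray ω s₁ j').1 := by
    have hex2 : ∃ j, (ray ω s₂ i).1 = (ray ω s₁ j).1 ∧ ∀ j' ≤ j, (ray ω s₁ j').1 ∈ G := hspec
    refine ⟨Nat.find hex2, (Nat.find_spec hex2).1, (Nat.find_spec hex2).2, ?_⟩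
    intro j' hj' heq
    exact Nat.find_min hex2 hj' ⟨heq, fun k hk => (Nat.find_spec hex2).2 k (by omega)⟩
  have hG2 : ∀ i' ≤ i, (ray ω s₂ i').1 ∈ G := fun i' h => h02 i' (h.trans hile)
  -- the directions are different
  have hdir : (ray ω s₁ j).2 ≠ (ray ω s₂ i).2 := by
    intro hd
    have hst : ray ω s₁ j = ray ω s₂ i := Prod.ext hj1.symm hd
    rcases lt_trichotomy i j with h | h | h
    · obtain ⟨k, hk⟩ : ∃ k, j = (k + 1) + i := ⟨j - i - 1, by omega⟩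
      rw [hk, ray_add] at hst
      have h2 := ray_inj ω i hst
      apply hE2.2
      rw [← h2, ray_prev]
      exact hj2 k (by omega)
    · rw [← h] at hst
      exact hne (ray_inj ω i hst)
    · obtain ⟨k, hk⟩ : ∃ k, i = (k + 1) + j := ⟨i - j - 1, by omega⟩
      rw [hk, ray_add] at hst
      have h2 := ray_inj ω j hst
      apply hE1.2
      rw [h2, ray_prev]
      exact hG2 k (by omega)
  obtain ⟨a, ha⟩ := exists_turn (ray ω s₂ i).2 (ray ω s₁ j).2.opp (by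
    intro h
    apply hdir
    rw [← opp_opp (ray ω s₁ j).2, h, opp_opp])
  set v := (ray ω s₂ i).1 with hv
  set ω' := Function.update ω v a with hω'
  have hr2 : ∀ i' ≤ i, ray ω' s₂ i' = ray ω s₂ i' := by
    apply ray_congr
    intro i' hi'
    rw [hω', Function.update_of_ne]
    intro heq
    exact hmin i' hi' ⟨j, by rw [heq, hj1], hj2⟩
  have hr1 : ∀ j' ≤ j, ray ω' s₁ j' = ray ω s₁ j' := by
    apply ray_congr
    intro j' hj'
    rw [hω', Function.update_of_ne]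
    intro heq
    exact hj3 j' hj' heq.symm
  have hstep : ray ω' s₂ (i + 1) = rev (ray ω' s₁ j) := by
    rw [ray_succ, hr2 i le_rfl, hr1 j le_rfl]
    have hat : ω' (ray ω s₂ i).1 = a := by
      rw [hω', ← hv, Function.update_self]
    simp only [step, rev, hat, ha, vec_opp]
    rw [← hv, hj1, sub_eq_add_neg]
  have hback : ∀ l ≤ j, ray ω' s₂ (i + 1 + l) = rev (ray ω' s₁ (j - l)) := by
    intro l hl
    have h := ray_rev ω' s₁ (j - l) l
    rw [Nat.sub_add_cancel hl] at h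
    rw [ray_add, hstep, h]
  refine ⟨i, lt_of_le_of_lt hile hi₀L, a, hr2 i le_rfl, i + 1 + j, ?_, ?_, ?_⟩
  · have h := hback j le_rfl
    rw [Nat.sub_self, ray_zero] at h
    exact h
  · exact hE1.2
  · intro k hk
    rcases Nat.lt_or_ge i k with h | h
    · obtain ⟨l, hl⟩ : ∃ l, k = i + 1 + l := ⟨k - i - 1, by omega⟩
      obtain ⟨m, hm⟩ : ∃ m, j - l = m + 1 := ⟨j - l - 1, by omega⟩
      rw [hl, hback l (by omega), hm]
      change (ray ω' s₁ (m + 1)).1 - vec (ray ω' s₁ (m + 1)).2 ∈ G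
      rw [ray_prev, hr1 m (by omega)]
      exact hj2 m (by omega)
    · rw [hr2 k h]
      exact hG2 k h

end Mir
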