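import Pool.Agent.Mir.Stmts

/-!
D2: the two-step exit.
-/

open MeasureTheory

noncomputable section

namespace Mir

/-- exit states of the square on the right side -/
private theorem xrm_exit (N : ℕ) {ω : ℤ × ℤ → Fin 3} {t : (ℤ × ℤ) × Dir}
    (h : Exits ω (box (-N) N 1 (2 * N + 1)) ((0, 1), Dir.N) t) (ht : t.1.1 = N + 1) :
    1 ≤ t.1.2 ∧ t.1.2 ≤ 2 * N + 1 ∧ t = (((N : ℤ) + 1, t.1.2), Dir.E) := by
  have hs : (((0, 1), Dir.N) : (ℤ × ℤ) × Dir).1 ∈ box (-N) N 1 (2 * N + 1) := by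
    simp only [box, Set.mem_ofPred_eq]
    omega
  have h1 := h.prev hs
  obtain ⟨⟨x, y⟩, d⟩ := t
  simp only at ht
  subst ht
  cases d <;> simp only [box, vec, Set.mem_ofPred_eq, Prod.fst_sub, Prod.snd_sub, reduceCtorEq,
    and_false, and_true, true_and] at h1 ⊢ <;> omega

theorem xr (h1 : Stmt_ksr) (h2 : Stmt_lam) : Stmt_X := by
  intro p hp0 hp1 N hN
  have h0 : 0 ≤ p := hp0.le
  have h1' : p ≤ 1 := hp1.le
  have hP := mir_isProb h0 h1'
  set Q : Set (ℤ × ℤ) := box (-N) N 1 (2 * N + 1) with hQ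
  set H : Set (ℤ × ℤ) := box (N + 1) (3 * N) 1 (4 * N + 1) with hH
  set s : (ℤ × ℤ) × Dir := ((0, 1), Dir.N) with hs
  set st : ℤ → (ℤ × ℤ) × Dir := fun y => (((N : ℤ) + 1, y), Dir.E) with hst
  set A : ℤ → Set (ℤ × ℤ → Fin 3) := fun y => {ω | Exits ω Q s (st y)} with hA
  set B : ℤ → Set (ℤ × ℤ → Fin 3) := fun y => {ω | ∃ t, Exits ω H (st y) t ∧ t.1.1 ≠ N} with hB
  set F : Finset ℤ := Finset.Icc (1 : ℤ) (2 * N + 1) with hF
  have hAm : ∀ y, MeasurableSet (A y) := fun y => meas_exits _ _ _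
  have hBm : ∀ y, MeasurableSet (B y) := fun y => meas_exits_some _ _ _
  have hdisj : Disjoint Q H := by
    rw [Set.disjoint_left]
    rintro ⟨x, y⟩ hx hy
    simp only [hQ, hH, box, Set.mem_ofPred_eq] at hx hy
    omega
  have hBP : ∀ y ∈ F, 1 / (4 * (N : ℝ) + 1) ≤ (mir p).real (B y) := by
    intro y hy
    rw [hF, Finset.mem_Icc] at hy
    have := h1 p h0 h1' (N + 1) y (4 * N + 1) (2 * N) ⟨2 * N, by ring⟩ hy.1
      (by push_cast; omega)
    have e1 : box ((N : ℤ) + 1) ((N : ℤ) + 1 + ((2 * N : ℕ) : ℤ) - 1) 1 ((4 * N + 1 : ℕ) : ℤ) = H := by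
      rw [hH]
      congr 1 <;> push_cast <;> ring
    rw [e1] at this
    have e2 : ((4 * N + 1 : ℕ) : ℝ) = 4 * (N : ℝ) + 1 := by push_cast; ring
    rw [e2] at this
    have e3 : ((N : ℤ) + 1 - 1) = N := by ring
    rw [e3] at this
    exact this
  have hind : ∀ y, (mir p).real (A y ∩ B y) = (mir p).real (A y) * (mir p).real (B y) := by
    intro y
    exact indep_mul_real h0 h1' hdisj (hAm y) (hBm y) (dep_exits _ _ _) (dep_exits_some _ _ _)
  have hAd : (↑F : Set ℤ).PairwiseDisjoint fun y => A y ∩ B y := by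
    intro y _ y' _ hyy
    refine Set.disjoint_left.2 ?_
    rintro ω ⟨ha, _⟩ ⟨ha', _⟩
    apply hyy
    have := Exits.unique (show Exits ω Q s (st y) from ha) (show Exits ω Q s (st y') from ha')
    simp only [hst, Prod.mk.injEq] at this
    exact this.1.2
  have hsub1 : {ω | ∃ t, Exits ω Q s t ∧ t.1.1 = N + 1} ⊆ ⋃ y ∈ F, A y := by
    rintro ω ⟨t, ht, ht1⟩
    obtain ⟨q1, q2, q3⟩ := xrm_exit N ht ht1
    simp only [Set.mem_iUnion]
    refine ⟨t.1.2, ?_, ?_⟩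
    · rw [hF, Finset.mem_Icc]
      exact ⟨q1, q2⟩
    · show Exits ω Q s (st t.1.2)
      rw [hst]
      show Exits ω Q s (((N : ℤ) + 1, t.1.2), Dir.E)
      rw [← q3]
      exact ht
  have hsub2 : (⋃ y ∈ F, A y ∩ B y) ⊆ {ω | ∃ n, XR N ω n} := by
    intro ω hω
    simp only [Set.mem_iUnion] at hω
    obtain ⟨y, _, ⟨m, hm⟩, u, ⟨k, hk⟩, hu⟩ := hω
    exact ⟨m + k, st y, m, u, k, hm, rfl, hk, hu, rfl⟩
  have hlam := (h2 p hp0 hp1 N).2
  have hnn : (0 : ℝ) ≤ 1 / (4 * (N : ℝ) + 1) := by positivity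
  calc wm p / (20 * (2 * (N : ℝ) + 1) ^ 4) * (1 / (4 * (N : ℝ) + 1))
      ≤ (mir p).real {ω | ∃ t, Exits ω Q s t ∧ t.1.1 = N + 1} * (1 / (4 * (N : ℝ) + 1)) :=
        mul_le_mul_of_nonneg_right hlam hnn
    _ ≤ (mir p).real (⋃ y ∈ F, A y) * (1 / (4 * (N : ℝ) + 1)) :=
        mul_le_mul_of_nonneg_right (measureReal_mono hsub1 (measure_ne_top _ _)) hnn
    _ ≤ (∑ y ∈ F, (mir p).real (A y)) * (1 / (4 * (N : ℝ) + 1)) :=
        mul_le_mul_of_nonneg_right (measureReal_biUnion_finset_le F A) hnn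
    _ = ∑ y ∈ F, (mir p).real (A y) * (1 / (4 * (N : ℝ) + 1)) := by rw [Finset.sum_mul]
    _ ≤ ∑ y ∈ F, (mir p).real (A y ∩ B y) := by
        refine Finset.sum_le_sum fun y hy => ?_
        rw [hind y]
        exact mul_le_mul_of_nonneg_left (hBP y hy) measureReal_nonneg
    _ = (mir p).real (⋃ y ∈ F, A y ∩ B y) := by
        rw [measureReal_biUnion_finset hAd fun y _ => (hAm y).inter (hBm y)]
    _ ≤ (mir p).real {ω | ∃ n, XR N ω n} := measureReal_mono hsub2 (measure_ne_top _ _)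

end Mir
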